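import Pool.Agent.Helper97.Sub.An3
import Pool.Agent.Helper16.Sub.A1
import Pool.Agent.Helper16.Sub.A2
import Pool.Agent.Helper16.Sub.H
import Pool.Agent.Helper33.Sub.C2
import Pool.Agent.Helper33.Sub.E1
import Pool.Agent.Helper59.Sub.B
import Pool.Agent.Helper59.Sub.C1

set_option autoImplicit false

namespace Pool.Agent.Helper97.Sub

open Finset Polynomial MeasureTheory
open scoped ComplexConjugate

variable {d : ℕ}
variable {σ : Fin d → List (Fin d)} {M : Matrix (Fin d) (Fin d) ℤ} {θ : ℝ} {X : Set (ℤ → Fin d)}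

theorem map_pow_cast (M : Matrix (Fin d) (Fin d) ℤ) (k : ℕ) :
    (M ^ k).map (Int.cast : ℤ → ℂ) = (M.map (Int.cast : ℤ → ℂ)) ^ k := by
  have := Matrix.map_pow M (Int.castRingHom ℂ) k
  simpa using this

theorem root_pow (M : Matrix (Fin d) (Fin d) ℤ) (p : ℕ) (hp : 0 < p) (z : ℂ) :
    ((M ^ p).map (Int.cast : ℤ → ℂ)).charpoly.IsRoot z ↔
      ∃ l : ℂ, (M.map (Int.cast : ℤ → ℂ)).charpoly.IsRoot l ∧ l ^ p = z := by
  rw [map_pow_cast, ← Matrix.mem_spectrum_iff_isRoot_charpoly, spectrum.map_pow_of_pos _ hp]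
  constructor
  · rintro ⟨l, hl, hl2⟩
    exact ⟨l, Matrix.mem_spectrum_iff_isRoot_charpoly.mp hl, hl2⟩
  · rintro ⟨l, hl, hl2⟩
    exact ⟨l, Matrix.mem_spectrum_iff_isRoot_charpoly.mpr hl, hl2⟩

theorem flatMap_sq (σ : Fin d → List (Fin d)) :
    (fun w : List (Fin d) => w.flatMap (T σ 2)) = (fun w : List (Fin d) => w.flatMap σ)^[2] := by
  funext v
  rw [iter_flatMap]

theorem infix_flatMap (τ : Fin d → List (Fin d)) (v : List (Fin d)) (c : Fin d) (h : c ∈ v) :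
    τ c <:+: v.flatMap τ := by
  obtain ⟨s, t, rfl⟩ := List.append_of_mem h
  rw [List.flatMap_append, List.flatMap_cons]
  exact ⟨s.flatMap τ, t.flatMap τ, by simp⟩

theorem Sys.sq (h : Sys σ M θ X) : Sys (T σ 2) (M ^ 2) (θ ^ 2) X := by
  obtain ⟨k₀, hk₀⟩ := h.prim
  have hMnn : ∀ i j, 0 ≤ M i j := fun i j => by rw [h.cnt]; positivity
  have hk₁ : ∀ i j, 0 < (M ^ (k₀ + 1)) i j := by
    intro i j
    rw [pow_succ, Matrix.mul_apply]
    obtain ⟨l, hl⟩ := List.exists_mem_of_ne_nil _ (h.ne j)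
    have hl2 : 0 < M l j := by
      rw [h.cnt]; exact_mod_cast List.count_pos_iff.2 hl
    have h1 : 0 < (M ^ k₀) i l * M l j := mul_pos (hk₀ i l) hl2
    refine h1.trans_le (single_le_sum (f := fun l => (M ^ k₀) i l * M l j) (fun l _ => ?_)
      (mem_univ l))
    exact mul_nonneg (hk₀ i l).le (hMnn l j)
  refine ⟨?_, ?_, ?_, ?_, ?_, ?_⟩
  · intro a h0
    have h1 : 0 < (T σ 2 a).length := by
      have h2 : T σ 2 a = (σ a).flatMap σ := by
        rw [show (2:ℕ) = 1 + 1 from rfl, T_succ, show T σ 1 = σ from funext (T_one σ)]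
      obtain ⟨c, hc⟩ := List.exists_mem_of_ne_nil _ (h.ne a)
      obtain ⟨c', hc'⟩ := List.exists_mem_of_ne_nil _ (h.ne c)
      have h3 : c' ∈ T σ 2 a := by
        rw [h2, List.mem_flatMap]
        exact ⟨c, hc, hc'⟩
      exact List.length_pos_of_mem h3
    rw [h0] at h1
    simp at h1
  · intro i j
    rw [count_T h.cnt]
  · refine ⟨k₀, fun i j => ?_⟩
    rw [← pow_mul, mul_comm, mul_two, pow_add, Matrix.mul_apply]
    exact sum_pos (fun l _ => mul_pos (hk₀ i l) (hk₀ l j)) ⟨i, mem_univ i⟩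
  · rw [root_pow M 2 (by norm_num)]
    exact ⟨θ, h.root, by push_cast; rfl⟩
  · intro z hz
    rw [root_pow M 2 (by norm_num)] at hz
    obtain ⟨l, hl, rfl⟩ := hz
    rw [norm_pow]
    have := h.top l hl
    gcongr
  · intro x
    rw [h.lang x]
    constructor
    · intro hx i k
      obtain ⟨n, a, hna⟩ := hx i k
      obtain ⟨m, hm⟩ : ∃ m, ((List.ofFn (fun j : Fin k => x (i + ((j : ℕ) : ℤ)))) <:+:
          T σ (2 * m) a) := by
        have key : ∀ j, (∀ i j', 0 < (M ^ j) i j') →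
            (List.ofFn (fun j : Fin k => x (i + ((j : ℕ) : ℤ)))) <:+: T σ (j + n) a := by
          intro j hj
          rw [T_add]
          exact hna.trans (infix_flatMap (T σ n) (T σ j a) a (mem_T h.cnt j a a (hj a a)))
        rcases Nat.even_or_odd' (k₀ + n) with ⟨m, hm | hm⟩
        · exact ⟨m, by rw [← hm]; exact key k₀ hk₀⟩
        · refine ⟨m + 1, ?_⟩
          have : 2 * (m + 1) = (k₀ + 1) + n := by omega
          rw [this]
          exact key (k₀ + 1) hk₁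
      refine ⟨m, a, ?_⟩
      rw [flatMap_sq, ← Function.iterate_mul]
      exact hm
    · intro hx i k
      obtain ⟨n, a, hna⟩ := hx i k
      rw [flatMap_sq, ← Function.iterate_mul] at hna
      exact ⟨2 * n, a, hna⟩

/-- roots of unity -/
def RU (z : ℂ) : Prop := ∃ k : ℕ, 0 < k ∧ z ^ k = 1

/-- extraction of the simple data -/
theorem exists_simp (M : Matrix (Fin d) (Fin d) ℤ) (ε : ℂ)
    (h1 : (M.map (Int.cast : ℤ → ℂ)).charpoly.IsRoot ε) (h2 : RU ε)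
    (h3 : (M.map (Int.cast : ℤ → ℂ)).charpoly.rootMultiplicity ε = 1)
    (h4 : ∀ z : ℂ, (M.map (Int.cast : ℤ → ℂ)).charpoly.IsRoot z → RU z → z = ε) :
    ∃ (e : ℤ) (Q : ℤ[X]), (e = 1 ∨ e = -1) ∧ (e : ℂ) = ε ∧
      ∀ p : ℕ, 0 < p → e ^ p = 1 → Simp M e Q p := by
  have hchar : (M.map (Int.cast : ℤ → ℂ)).charpoly = M.charpoly.map (Int.castRingHom ℂ) := by
    have h1 := Matrix.charpoly_map M (Int.castRingHom ℂ)
    have h2 : M.map (Int.castRingHom ℂ) = M.map (Int.cast : ℤ → ℂ) := by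
      ext i j; simp
    rw [h2] at h1
    exact h1
  have hne : M.charpoly.map (Int.castRingHom ℂ) ≠ 0 := by
    rw [← hchar]; exact (Matrix.charpoly_monic _).ne_zero
  -- the conjugate is a root
  have hconj : (M.map (Int.cast : ℤ → ℂ)).charpoly.IsRoot (conj ε) := by
    have h5 := congrArg conj h1
    rw [map_zero, hchar, eval_map, hom_eval₂,
      Subsingleton.elim ((starRingEnd ℂ).comp (Int.castRingHom ℂ)) (Int.castRingHom ℂ)] at h5
    rw [hchar, IsRoot.def, eval_map]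
    exact h5
  have hRUc : RU (conj ε) := by
    obtain ⟨k, hk, hk2⟩ := h2
    exact ⟨k, hk, by rw [← map_pow, hk2, map_one]⟩
  have hreal : conj ε = ε := h4 _ hconj hRUc
  have hnorm : ‖ε‖ = 1 := by
    obtain ⟨k, hk, hk2⟩ := h2
    exact Complex.norm_eq_one_of_pow_eq_one hk2 (by omega)
  obtain ⟨r, hr⟩ := Complex.conj_eq_iff_real.1 hreal
  have he : ε = 1 ∨ ε = -1 := by
    rw [hr, Complex.norm_real, Real.norm_eq_abs] at hnorm
    rcases (abs_eq (by norm_num : (0:ℝ) ≤ 1)).1 hnorm with h5 | h5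
    · left; rw [hr, h5]; simp
    · right; rw [hr, h5]; simp
  obtain ⟨e, he1, he2⟩ : ∃ e : ℤ, (e = 1 ∨ e = -1) ∧ (e : ℂ) = ε := by
    rcases he with h5 | h5
    · exact ⟨1, Or.inl rfl, by rw [h5]; simp⟩
    · exact ⟨-1, Or.inr rfl, by rw [h5]; simp⟩
  have hroot : M.charpoly.IsRoot e := by
    rw [hchar, ← he2, IsRoot.def] at h1
    have h5 : (M.charpoly.map (Int.castRingHom ℂ)).eval ((e : ℤ) : ℂ) =
        ((M.charpoly.eval e : ℤ) : ℂ) := by simp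
    rw [h5] at h1
    rw [IsRoot.def]
    exact_mod_cast h1
  obtain ⟨Q, hQ⟩ := dvd_iff_isRoot.2 hroot
  refine ⟨e, Q, he1, he2, fun p hp hep => ?_⟩
  have hfac : (M.map (Int.cast : ℤ → ℂ)).charpoly = (X - C (e : ℂ)) * Q.map (Int.castRingHom ℂ) := by
    rw [hchar, hQ, Polynomial.map_mul]
    simp
  have hQ0 : Q.map (Int.castRingHom ℂ) ≠ 0 := by
    intro h0
    rw [← hchar, hfac, h0, mul_zero] at hne
    exact hne rfl
  have hmul : (Q.map (Int.castRingHom ℂ)).rootMultiplicity ε = 0 := by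
    rw [hfac, rootMultiplicity_mul (mul_ne_zero (X_sub_C_ne_zero _) hQ0), he2,
      rootMultiplicity_X_sub_C_self] at h3
    omega
  have hnot : ¬ (Q.map (Int.castRingHom ℂ)).IsRoot ε := by
    intro h0
    have := (rootMultiplicity_pos hQ0).2 h0
    omega
  refine ⟨hQ, ?_, ?_, hp, hep⟩
  · intro h0
    apply hnot
    rw [← he2, IsRoot.def]
    have h5 : (Q.map (Int.castRingHom ℂ)).eval ((e : ℤ) : ℂ) =
        ((Q.eval e : ℤ) : ℂ) := by simp
    rw [h5, h0]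
    simp
  · intro z hz k hk hzk
    have h5 : (M.map (Int.cast : ℤ → ℂ)).charpoly.IsRoot z := by
      rw [hfac, IsRoot.def, eval_mul, hz, mul_zero]
    have h6 := h4 z h5 ⟨k, hk, hzk⟩
    rw [h6] at hz
    exact hnot hz

/-- The reduction: no exceptional set of frequencies gives singular spectrum. -/
theorem Sys.final (h : Sys σ M θ X) (hθ : 1 < θ) (ζ : Fin d → ℚ) (hζ : Neutral M ζ)
    (hvol : volume {ω : ℝ | ∃ l : ℂ, (OpM σ (yv ζ ω)).charpoly.IsRoot l ∧ ‖l‖ ^ 2 = θ} = 0)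
    (μ : Measure (ℤ → Fin d)) [IsProbabilityMeasure μ]
    (hX : μ Xᶜ = 0) (hμ : MeasurePreserving (sh (d := d)) μ μ)
    (f : (ℤ → Fin d) → ℂ) (hf : MemLp f 2 μ) :
    ∃ ν, IsSpec μ sh f ν ∧ ν.MutuallySingular volume := by
  obtain ⟨ν, hν⟩ := A1 _ μ _ hμ f hf
  refine ⟨ν, hν, ?_⟩
  refine C1 A1 _ μ _ hμ f hf ?_ ν hν
  intro ε hε
  obtain ⟨w, G, g, hg, hfg, hiff⟩ := C2 d μ inferInstance hμ f hf ε hε
  refine ⟨g, hg, hfg, fun ν' hν' => ?_⟩
  by_contra hns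
  exact h.pos H A2 B E1 hθ hX hμ G w ν' ((hiff ν').1 hν') hns ζ hζ hvol

theorem Sys.one_lt (h : Sys σ M θ X)
    (hsq : ∀ z : ℂ, (M.map (Int.cast : ℤ → ℂ)).charpoly.IsRoot z → ‖z‖ ^ 2 ≠ θ) : 1 < θ := by
  obtain ⟨h1, -⟩ := h.growth H
  refine lt_of_le_of_ne h1 ?_
  rintro rfl
  apply hsq _ h.root
  simp

/-- no exceptional frequency when the neutral vector is zero -/
theorem vol_zero (hM : ∀ i j, M i j = (((σ j).count i : ℕ) : ℤ))
    (hsq : ∀ z : ℂ, (M.map (Int.cast : ℤ → ℂ)).charpoly.IsRoot z → ‖z‖ ^ 2 ≠ θ) :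
    volume {ω : ℝ | ∃ l : ℂ, (OpM σ (yv 0 ω)).charpoly.IsRoot l ∧ ‖l‖ ^ 2 = θ} = 0 := by
  have h1 : {ω : ℝ | ∃ l : ℂ, (OpM σ (yv 0 ω)).charpoly.IsRoot l ∧ ‖l‖ ^ 2 = θ} = ∅ := by
    rw [Set.eq_empty_iff_forall_notMem]
    rintro ω ⟨l, hl, hl2⟩
    have h2 : yv (0 : Fin d → ℚ) ω = fun _ => 1 := by
      funext c; simp [yv]
    rw [h2, OpM_one hM, Matrix.charpoly_transpose] at hl
    exact hsq l hl hl2
  rw [h1, measure_empty]

/-- singular spectrum without neutral direction -/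
theorem Sys.nonneutral (h : Sys σ M θ X)
    (hsq : ∀ z : ℂ, (M.map (Int.cast : ℤ → ℂ)).charpoly.IsRoot z → ‖z‖ ^ 2 ≠ θ)
    (hn : ∀ p : ℕ, 0 < p → ∀ u : Fin d → ℤ,
      (∀ n : ℕ, ∑ a, ((M ^ (p * n)).mulVec u) a = ∑ a, u a) → ∑ a, u a = 0)
    (μ : Measure (ℤ → Fin d)) [IsProbabilityMeasure μ]
    (hX : μ Xᶜ = 0) (hμ : MeasurePreserving (sh (d := d)) μ μ)
    (f : (ℤ → Fin d) → ℂ) (hf : MemLp f 2 μ) :
    ∃ ν, IsSpec μ sh f ν ∧ ν.MutuallySingular volume := by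
  refine h.final (h.one_lt hsq) 0 ⟨fun a => by simp, fun p hp u hu => ?_⟩
    (vol_zero h.cnt hsq) μ hX hμ f hf
  rw [hn p hp u hu]
  simp

/-- one power -/
theorem Sys.simp {e : ℤ} {Q : ℤ[X]} {p : ℕ} (hp : 0 < p) (h : Sys σ (M ^ p) (θ ^ p) X) (hθ : 1 < θ)
    (hs : Simp M e Q p)
    (hsq : ∀ z : ℂ, (M.map (Int.cast : ℤ → ℂ)).charpoly.IsRoot z → ‖z‖ ^ 2 ≠ θ)
    (hpair : ∀ l m : ℂ, (M.map (Int.cast : ℤ → ℂ)).charpoly.IsRoot l →
      (M.map (Int.cast : ℤ → ℂ)).charpoly.IsRoot m → ¬ RU l → ¬ RU m → (l * m) ^ p ≠ θ ^ p)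
    (hRU : ∀ z : ℂ, (M.map (Int.cast : ℤ → ℂ)).charpoly.IsRoot z → RU z → z = (e : ℂ))
    (μ : Measure (ℤ → Fin d)) [IsProbabilityMeasure μ]
    (hX : μ Xᶜ = 0) (hμ : MeasurePreserving (sh (d := d)) μ μ)
    (f : (ℤ → Fin d) → ℂ) (hf : MemLp f 2 μ) :
    ∃ ν, IsSpec μ sh f ν ∧ ν.MutuallySingular volume := by
  have hθ0 : 0 < θ := by linarith
  have hsq' : ∀ z : ℂ, ((M ^ p).map (Int.cast : ℤ → ℂ)).charpoly.IsRoot z → ‖z‖ ^ 2 ≠ θ ^ p := by
    intro z hz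
    rw [root_pow M p hp] at hz
    obtain ⟨l, hl, rfl⟩ := hz
    intro h1
    apply hsq l hl
    rw [norm_pow, ← pow_mul, mul_comm, pow_mul] at h1
    exact (pow_left_inj₀ (by positivity) hθ0.le (by omega)).1 h1
  have hθp : 1 < θ ^ p := one_lt_pow₀ hθ (by omega)
  by_cases hz : zt M e Q = 0
  · have hn := hs.neutral
    rw [hz] at hn
    exact h.final hθp 0 hn (vol_zero h.cnt hsq') μ hX hμ f hf
  · refine h.final hθp (zt M e Q) hs.neutral ?_ μ hX hμ f hf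
    by_contra hvol
    obtain ⟨b₀, hb₀⟩ := Function.ne_iff.1 hz
    obtain ⟨l, m, hl1, hm1, hlm, hl, hm⟩ := pair_of_vol h.cnt (zt M e Q) hs.neutral.1 b₀ hb₀
      (θ ^ p) hθp hvol (fun v hv => hs.simple hz v hv)
    rw [root_pow M p hp] at hl hm
    obtain ⟨l', hl', rfl⟩ := hl
    obtain ⟨m', hm', rfl⟩ := hm
    have hnl : ∀ x : ℂ, (M.map (Int.cast : ℤ → ℂ)).charpoly.IsRoot x → x ^ p ≠ 1 → ¬ RU x := by
      intro x hx hxp hRUx
      rw [hRU x hx hRUx] at hxp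
      apply hxp
      exact_mod_cast hs.one
    apply hpair l' m' hl' hm' (hnl l' hl' hl1) (hnl m' hm' hm1)
    rw [mul_pow, hlm]
    push_cast
    rfl

end Pool.Agent.Helper97.Sub
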