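import Pool.Agent.Helper97.Sub.Ana

set_option autoImplicit false

namespace Pool.Agent.Helper97.Sub

open Finset MeasureTheory Filter Topology
open scoped ComplexConjugate Kronecker

variable {d : ℕ}

theorem analytic_zero (h : ℝ → ℂ) (hh : AnalyticOnNhd ℝ h Set.univ)
    (hv : volume {ω : ℝ | h ω = 0} ≠ 0) : ∀ ω, h ω = 0 := by
  rcases hh.eqOn_zero_or_eventually_ne_zero_of_preconnected isPreconnected_univ with h1 | h1
  · intro ω; exact h1 (Set.mem_univ ω)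
  · exfalso
    apply hv
    have h2 := ae_restrict_le_codiscreteWithin (μ := (volume : Measure ℝ)) MeasurableSet.univ h1
    rw [Measure.restrict_univ, mem_ae_iff] at h2
    convert h2 using 2
    ext ω
    simp

theorem an_yv (ζ : Fin d → ℚ) (c : Fin d) (x : ℝ) : AnalyticAt ℝ (fun ω => yv ζ ω c) x := by
  have h1 : AnalyticAt ℂ (fun z : ℂ => Complex.exp ((-(2 * Real.pi * (ζ c : ℝ) : ℝ) : ℂ) *
      Complex.I * z)) (x : ℂ) := by fun_prop
  have h2 := (h1.restrictScalars (𝕜 := ℝ)).comp (Complex.ofRealCLM.analyticAt x)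
  convert h2 using 1
  funext ω
  simp only [yv, Function.comp_apply]
  congr 1
  push_cast
  ring

theorem an_WS (ζ : Fin d → ℚ) (E : Fin d → ℂ) (v : List (Fin d)) (x : ℝ) :
    AnalyticAt ℝ (fun ω => WS (yv ζ ω) E v) x := by
  induction v with
  | nil => simp only [WS]; exact analyticAt_const
  | cons c v ih =>
    simp only [WS]
    exact analyticAt_const.add ((an_yv ζ c x).mul ih)

theorem an_conj (f : ℝ → ℂ) (x : ℝ) (hf : AnalyticAt ℝ f x) :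
    AnalyticAt ℝ (fun ω => conj (f ω)) x :=
  ((Complex.conjCLE : ℂ ≃L[ℝ] ℂ).toContinuousLinearMap.analyticAt (f x)).comp hf

theorem an_det {n : Type} [Fintype n] [DecidableEq n] (A : ℝ → Matrix n n ℂ) (x : ℝ)
    (hA : ∀ i j, AnalyticAt ℝ (fun ω => A ω i j) x) : AnalyticAt ℝ (fun ω => (A ω).det) x := by
  simp only [Matrix.det_apply]
  refine Finset.analyticAt_fun_sum _ fun s _ => ?_
  have h1 : AnalyticAt ℝ (fun ω => ∏ i, A ω (s i) i) x :=
    Finset.analyticAt_fun_prod _ fun i _ => hA _ _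
  have h2 : (fun ω => Equiv.Perm.sign s • ∏ i, A ω (s i) i) =
      fun ω => ((Equiv.Perm.sign s : ℤ) : ℂ) * ∏ i, A ω (s i) i := by
    funext ω
    rw [Units.smul_def, zsmul_eq_mul]
  rw [h2]
  exact analyticAt_const.mul h1

/-- the kernel vector `1 - y` -/
noncomputable def tv (ζ : Fin d → ℚ) (ω : ℝ) (c : Fin d) : ℂ := 1 - yv ζ ω c

theorem WS_one_sub (y : Fin d → ℂ) (v : List (Fin d)) :
    WS y (fun c => 1 - y c) v = 1 - yw y v := by
  induction v with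
  | nil => simp [WS, yw]
  | cons c v ih =>
    rw [WS, ih]
    simp only [yw, List.map_cons, List.prod_cons]
    ring

theorem OpM_tv {σ : Fin d → List (Fin d)} {M : Matrix (Fin d) (Fin d) ℤ}
    (hM : ∀ i j, M i j = (((σ j).count i : ℕ) : ℤ)) (ζ : Fin d → ℚ)
    (hζ : ∀ a, ∑ b, ((M b a : ℤ) : ℚ) * ζ b = ζ a) (ω : ℝ) :
    (OpM σ (yv ζ ω)).mulVec (tv ζ ω) = tv ζ ω := by
  rw [← Op_eq]
  funext b
  rw [Op, show tv ζ ω = fun c => 1 - yv ζ ω c from rfl, WS_one_sub, yw_yv hM ζ hζ]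

theorem OpM_one {σ : Fin d → List (Fin d)} {M : Matrix (Fin d) (Fin d) ℤ}
    (hM : ∀ i j, M i j = (((σ j).count i : ℕ) : ℤ)) :
    OpM σ (fun _ => 1) = (M.map (Int.cast : ℤ → ℂ)).transpose := by
  have h : ∀ (c : Fin d) (v : List (Fin d)), WS (fun _ => 1) (Pi.single c 1) v =
      ((v.count c : ℕ) : ℂ) := by
    intro c v
    induction v with
    | nil => simp [WS]
    | cons a v ih =>
      rw [WS, ih, List.count_cons]
      by_cases hac : a = c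
      · subst hac; simp; ring
      · rw [Pi.single_eq_of_ne hac]
        simp [hac]
  funext b c
  rw [OpM, h, Matrix.transpose_apply, Matrix.map_apply, hM]
  simp

theorem yv_zero (ζ : Fin d → ℚ) : yv ζ 0 = fun _ => 1 := by
  funext c; simp [yv]

/-- scaled deflation -/
noncomputable def Dt (σ : Fin d → List (Fin d)) (ζ : Fin d → ℚ) (b₀ : Fin d) (ω : ℝ) :
    Matrix (Fin d) (Fin d) ℂ :=
  fun b c => tv ζ ω b₀ * OpM σ (yv ζ ω) b c - if c = b₀ then tv ζ ω b else 0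

noncomputable def hdet (σ : Fin d → List (Fin d)) (ζ : Fin d → ℚ) (b₀ : Fin d) (θ : ℝ) (ω : ℝ) : ℂ :=
  tv ζ ω b₀ * (Dt σ ζ b₀ ω ⊗ₖ (Dt σ ζ b₀ ω).map conj -
    ((θ : ℂ) * (tv ζ ω b₀ * conj (tv ζ ω b₀))) •
      (1 : Matrix (Fin d × Fin d) (Fin d × Fin d) ℂ)).det

theorem an_tv (ζ : Fin d → ℚ) (c : Fin d) (x : ℝ) : AnalyticAt ℝ (fun ω => tv ζ ω c) x :=
  analyticAt_const.sub (an_yv ζ c x)

theorem an_Dt (σ : Fin d → List (Fin d)) (ζ : Fin d → ℚ) (b₀ : Fin d) (b c : Fin d) (x : ℝ) :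
    AnalyticAt ℝ (fun ω => Dt σ ζ b₀ ω b c) x := by
  simp only [Dt]
  refine AnalyticAt.sub ((an_tv ζ b₀ x).mul (an_WS ζ _ _ x)) ?_
  by_cases h : c = b₀
  · simp only [if_pos h]; exact an_tv ζ b x
  · simp only [if_neg h]; exact analyticAt_const

theorem an_hdet (σ : Fin d → List (Fin d)) (ζ : Fin d → ℚ) (b₀ : Fin d) (θ : ℝ) :
    AnalyticOnNhd ℝ (hdet σ ζ b₀ θ) Set.univ := by
  intro x _
  refine (an_tv ζ b₀ x).mul (an_det _ x ?_)
  rintro ⟨i, i'⟩ ⟨j, j'⟩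
  simp only [Matrix.sub_apply, Matrix.kroneckerMap_apply, Matrix.map_apply, Matrix.smul_apply,
    smul_eq_mul]
  refine AnalyticAt.sub ((an_Dt σ ζ b₀ i j x).mul (an_conj _ x (an_Dt σ ζ b₀ i' j' x))) ?_
  exact (analyticAt_const.mul ((an_tv ζ b₀ x).mul (an_conj _ x (an_tv ζ b₀ x)))).mul
    analyticAt_const

theorem Dt_eq (σ : Fin d → List (Fin d)) (ζ : Fin d → ℚ) (b₀ : Fin d) (ω : ℝ)
    (h : tv ζ ω b₀ ≠ 0) :
    Dt σ ζ b₀ ω = tv ζ ω b₀ • Df (OpM σ (yv ζ ω)) (tv ζ ω) b₀ := by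
  funext b c
  simp only [Dt, Df, Matrix.smul_apply, smul_eq_mul, mul_sub]
  congr 1
  by_cases hc : c = b₀
  · rw [if_pos hc, if_pos hc]; field_simp
  · rw [if_neg hc, if_neg hc, mul_zero]

theorem hdet_eq (σ : Fin d → List (Fin d)) (ζ : Fin d → ℚ) (b₀ : Fin d) (θ ω : ℝ)
    (h : tv ζ ω b₀ ≠ 0) :
    hdet σ ζ b₀ θ ω = tv ζ ω b₀ * ((tv ζ ω b₀ * conj (tv ζ ω b₀)) ^ (Fintype.card (Fin d × Fin d)) *
      (Df (OpM σ (yv ζ ω)) (tv ζ ω) b₀ ⊗ₖ (Df (OpM σ (yv ζ ω)) (tv ζ ω) b₀).map conj -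
        (θ : ℂ) • (1 : Matrix (Fin d × Fin d) (Fin d × Fin d) ℂ)).det) := by
  rw [hdet, ← Matrix.det_smul, Dt_eq σ ζ b₀ ω h]
  congr 2
  ext ⟨i, i'⟩ ⟨j, j'⟩
  simp only [Matrix.sub_apply, Matrix.kroneckerMap_apply, Matrix.map_apply, Matrix.smul_apply,
    smul_eq_mul, map_mul]
  ring

theorem tv_slope (ζ : Fin d → ℚ) (c : Fin d) :
    Tendsto (fun ω : ℝ => (ω : ℂ)⁻¹ * tv ζ ω c) (𝓝[≠] 0)
      (𝓝 (2 * Real.pi * Complex.I * (ζ c : ℂ))) := by
  have h1 : HasDerivAt (fun ω : ℝ => tv ζ ω c) (2 * Real.pi * Complex.I * (ζ c : ℂ)) 0 := by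
    have h3 : HasDerivAt (fun ω : ℝ => ((ω : ℝ) : ℂ)) 1 0 := Complex.ofRealCLM.hasDerivAt
    have h4 := (h3.const_mul (-(2 * Real.pi * Complex.I * (ζ c : ℂ)))).cexp.const_sub 1
    have e1 : (fun ω : ℝ => tv ζ ω c) =
        fun ω : ℝ => 1 - Complex.exp (-(2 * Real.pi * Complex.I * (ζ c : ℂ)) * (ω : ℂ)) := by
      funext ω
      simp only [tv, yv]
      congr 2
      push_cast
      ring
    have e2 : (2 * Real.pi * Complex.I * (ζ c : ℂ)) =
        -(Complex.exp (-(2 * Real.pi * Complex.I * (ζ c : ℂ)) * ((0 : ℝ) : ℂ)) *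
          (-(2 * Real.pi * Complex.I * (ζ c : ℂ)) * 1)) := by
      simp
    rw [← e1, ← e2] at h4
    exact h4
  have h2 := hasDerivAt_iff_tendsto_slope_zero.1 h1
  refine h2.congr fun ω => ?_
  have h0 : tv ζ 0 c = 0 := by simp [tv, yv]
  rw [zero_add, h0, sub_zero, Complex.real_smul]
  push_cast
  rfl

theorem tv_ratio (ζ : Fin d → ℚ) (b₀ : Fin d) (hb : ζ b₀ ≠ 0) (b : Fin d) :
    Tendsto (fun ω : ℝ => tv ζ ω b / tv ζ ω b₀) (𝓝[≠] 0) (𝓝 ((ζ b : ℂ) / (ζ b₀ : ℂ))) := by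
  have h1 := tv_slope ζ b
  have h2 := tv_slope ζ b₀
  have hne : (2 * Real.pi * Complex.I * (ζ b₀ : ℂ)) ≠ 0 := by
    have : (ζ b₀ : ℂ) ≠ 0 := by exact_mod_cast hb
    have := Real.pi_ne_zero
    simp_all
  have h3 := h1.div h2 hne
  have e : (2 * Real.pi * Complex.I * (ζ b : ℂ)) / (2 * Real.pi * Complex.I * (ζ b₀ : ℂ)) =
      (ζ b : ℂ) / (ζ b₀ : ℂ) := by
    have h5 : (2 * Real.pi * Complex.I : ℂ) ≠ 0 := by
      have := Real.pi_ne_zero
      simp_all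
    rw [mul_div_mul_left _ _ h5]
  rw [e] at h3
  refine h3.congr' ?_
  filter_upwards [self_mem_nhdsWithin] with ω hω
  have hω' : ((ω : ℝ) : ℂ)⁻¹ ≠ 0 := inv_ne_zero (by exact_mod_cast hω)
  simp only [Pi.div_apply]
  rw [mul_div_mul_left _ _ hω']

theorem tv_ne (ζ : Fin d → ℚ) (b₀ : Fin d) (hb : ζ b₀ ≠ 0) :
    ∀ᶠ ω : ℝ in 𝓝[≠] 0, tv ζ ω b₀ ≠ 0 := by
  have h2 := tv_slope ζ b₀
  have hne : (2 * Real.pi * Complex.I * (ζ b₀ : ℂ)) ≠ 0 := by
    have : (ζ b₀ : ℂ) ≠ 0 := by exact_mod_cast hb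
    have := Real.pi_ne_zero
    simp_all
  have h3 := h2.eventually_ne hne
  filter_upwards [h3] with ω hω h0
  rw [h0, mul_zero] at hω
  exact hω rfl

theorem det_limit (σ : Fin d → List (Fin d)) (ζ : Fin d → ℚ) (b₀ : Fin d) (hb : ζ b₀ ≠ 0) (θ : ℝ)
    (h : ∀ ω, hdet σ ζ b₀ θ ω = 0) :
    (Df (OpM σ (fun _ => 1)) (fun b => (ζ b : ℂ)) b₀ ⊗ₖ
        (Df (OpM σ (fun _ => 1)) (fun b => (ζ b : ℂ)) b₀).map conj -
        (θ : ℂ) • (1 : Matrix (Fin d × Fin d) (Fin d × Fin d) ℂ)).det = 0 := by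
  have h1 : ∀ᶠ ω : ℝ in 𝓝[≠] 0,
      (Df (OpM σ (yv ζ ω)) (tv ζ ω) b₀ ⊗ₖ (Df (OpM σ (yv ζ ω)) (tv ζ ω) b₀).map conj -
        (θ : ℂ) • (1 : Matrix (Fin d × Fin d) (Fin d × Fin d) ℂ)).det = 0 := by
    filter_upwards [tv_ne ζ b₀ hb] with ω hω
    have h2 := h ω
    rw [hdet_eq σ ζ b₀ θ ω hω] at h2
    have h3 : (tv ζ ω b₀ * conj (tv ζ ω b₀)) ≠ 0 := by
      simp [hω]
    rcases mul_eq_zero.1 h2 with h4 | h4
    · exact absurd h4 hω
    · exact (mul_eq_zero.1 h4).resolve_left (pow_ne_zero _ h3)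
  have hD : Tendsto (fun ω : ℝ => Df (OpM σ (yv ζ ω)) (tv ζ ω) b₀) (𝓝[≠] 0)
      (𝓝 (Df (OpM σ (fun _ => 1)) (fun b => (ζ b : ℂ)) b₀)) := by
    refine tendsto_pi_nhds.2 fun b => tendsto_pi_nhds.2 fun c => ?_
    simp only [Df]
    refine Tendsto.sub ?_ ?_
    · have h3 := (an_WS ζ (Pi.single c 1) (σ b) 0).continuousAt.tendsto
      simp only [yv_zero] at h3
      exact h3.mono_left nhdsWithin_le_nhds
    · by_cases hc : c = b₀
      · simp only [if_pos hc]; exact tv_ratio ζ b₀ hb b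
      · simp only [if_neg hc]; exact tendsto_const_nhds
  have hcont : Continuous fun A : Matrix (Fin d) (Fin d) ℂ =>
      (A ⊗ₖ A.map conj - (θ : ℂ) • (1 : Matrix (Fin d × Fin d) (Fin d × Fin d) ℂ)).det := by
    apply Continuous.matrix_det
    apply Continuous.sub _ continuous_const
    apply continuous_matrix
    rintro ⟨i, i'⟩ ⟨j, j'⟩
    simp only [Matrix.kroneckerMap_apply, Matrix.map_apply]
    have e1 : Continuous fun A : Matrix (Fin d) (Fin d) ℂ => A i j := continuous_id.matrix_elem i j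
    have e2 : Continuous fun A : Matrix (Fin d) (Fin d) ℂ => A i' j' :=
      continuous_id.matrix_elem i' j'
    exact e1.mul (Complex.continuous_conj.comp e2)
  have h2 := (hcont.tendsto _).comp hD
  refine tendsto_nhds_unique (h2.congr' ?_) tendsto_const_nhds
  filter_upwards [h1] with ω hω
  exact hω

/-- A set of positive measure of frequencies whose neutral matrix has an eigenvalue of modulus
`√θ` forces two eigenvalues of `M`, different from one, with product `θ`. -/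
theorem pair_of_vol {σ : Fin d → List (Fin d)} {M : Matrix (Fin d) (Fin d) ℤ}
    (hM : ∀ i j, M i j = (((σ j).count i : ℕ) : ℤ)) (ζ : Fin d → ℚ)
    (hζ : ∀ a, ∑ b, ((M b a : ℤ) : ℚ) * ζ b = ζ a) (b₀ : Fin d) (hb : ζ b₀ ≠ 0) (θ : ℝ)
    (hθ : 1 < θ)
    (hvol : volume {ω : ℝ | ∃ l : ℂ, (OpM σ (yv ζ ω)).charpoly.IsRoot l ∧ ‖l‖ ^ 2 = θ} ≠ 0)
    (hsimple : ∀ v : Fin d → ℂ,
      ((M.map (Int.cast : ℤ → ℂ)).transpose.mulVec
        ((M.map (Int.cast : ℤ → ℂ)).transpose.mulVec v - v) -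
        ((M.map (Int.cast : ℤ → ℂ)).transpose.mulVec v - v)) = 0 →
      ∃ c : ℂ, v = c • (fun b => (ζ b : ℂ))) :
    ∃ l m : ℂ, l ≠ 1 ∧ m ≠ 1 ∧ l * m = θ ∧
      (M.map (Int.cast : ℤ → ℂ)).charpoly.IsRoot l ∧
      (M.map (Int.cast : ℤ → ℂ)).charpoly.IsRoot m := by
  have hz : ∀ ω, hdet σ ζ b₀ θ ω = 0 := by
    apply analytic_zero _ (an_hdet σ ζ b₀ θ)
    intro h0
    apply hvol
    refine measure_mono_null ?_ h0
    rintro ω ⟨l, hl, hlθ⟩
    change hdet σ ζ b₀ θ ω = 0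
    by_cases ht : tv ζ ω b₀ = 0
    · rw [hdet, ht, zero_mul]
    · rw [hdet_eq σ ζ b₀ θ ω ht]
      obtain ⟨v, hv, hv2⟩ := (root_iff _ _).1 hl
      have hl0 : l ≠ 0 := by
        rintro rfl
        simp at hlθ
        linarith
      have hl1 : l ≠ 1 := by
        rintro rfl
        simp at hlθ
        linarith
      obtain ⟨v', hv', hv2'⟩ := defl1 _ _ b₀ (OpM_tv hM ζ hζ ω) ht v l hv hl0 hl1 hv2
      have h1 := ker1 _ v' l hv' hv2'
      have h2 : l * conj l = (θ : ℂ) := by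
        rw [Complex.mul_conj, Complex.normSq_eq_norm_sq, hlθ]
      rw [h2] at h1
      rw [h1]
      ring
  have h1 := det_limit σ ζ b₀ hb θ hz
  have hθ0 : (θ : ℂ) ≠ 0 := by
    have : θ ≠ 0 := by linarith
    exact_mod_cast this
  obtain ⟨l, m, hlm, ⟨v, hv, hv2⟩, ⟨u, hu, hu2⟩⟩ := ker2 _ _ hθ0 h1
  rw [OpM_one hM] at hv2 hu2
  have hA : (M.map (Int.cast : ℤ → ℂ)).transpose.mulVec (fun b => (ζ b : ℂ)) =
      fun b => (ζ b : ℂ) := by
    funext a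
    have h3 := congrArg (fun q : ℚ => (q : ℂ)) (hζ a)
    simp only [Matrix.mulVec, dotProduct, Matrix.transpose_apply, Matrix.map_apply]
    rw [← h3]
    push_cast
    rfl
  have hζb : (fun b => (ζ b : ℂ)) b₀ ≠ 0 := by
    simp only
    exact_mod_cast hb
  have hl0 : l ≠ 0 := by
    rintro rfl
    rw [zero_mul] at hlm
    exact hθ0 hlm.symm
  have hm0 : m ≠ 0 := by
    rintro rfl
    rw [map_zero, mul_zero] at hlm
    exact hθ0 hlm.symm
  obtain ⟨hl1, v', hv', hv2'⟩ := defl2 _ _ b₀ hA hζb hsimple v l hv hl0 hv2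
  obtain ⟨hm1, u', hu', hu2'⟩ := defl2 _ _ b₀ hA hζb hsimple u m hu hm0 hu2
  refine ⟨l, conj m, hl1, ?_, hlm, ?_, ?_⟩
  · intro h
    apply hm1
    have := congrArg conj h
    rwa [Complex.conj_conj, map_one] at this
  · rw [← Matrix.charpoly_transpose]
    exact (root_iff _ _).2 ⟨v', hv', hv2'⟩
  · rw [← Matrix.charpoly_transpose]
    refine (root_iff _ _).2 ⟨fun b => conj (u' b), ?_, ?_⟩
    · intro h
      apply hu'
      funext b
      have := congrFun h b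
      simpa using this
    · funext a
      have h3 := congrArg conj (congrFun hu2' a)
      simp only [Matrix.mulVec, dotProduct, Matrix.transpose_apply, Matrix.map_apply,
        Pi.smul_apply, smul_eq_mul, map_sum, map_mul] at h3 ⊢
      rw [← h3]
      refine sum_congr rfl fun b _ => ?_
      simp

end Pool.Agent.Helper97.Sub
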