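import Pool.Agent.Helper97.Sub.An2
import Pool.Agent.Helper16.Sub.E2

set_option autoImplicit false

namespace Pool.Agent.Helper97.Sub

open Finset Polynomial

variable {d : ℕ}

/-- Data of a simple eigenvalue `e = ±1` which is the only root of unity. -/
structure Simp (M : Matrix (Fin d) (Fin d) ℤ) (e : ℤ) (Q : ℤ[X]) (p : ℕ) : Prop where
  fac : M.charpoly = (X - C e) * Q
  ev : Q.eval e ≠ 0
  nr : ∀ z : ℂ, (Q.map (Int.castRingHom ℂ)).IsRoot z → ∀ k : ℕ, 0 < k → z ^ k ≠ 1
  pos : 0 < p
  one : e ^ p = 1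

variable {M : Matrix (Fin d) (Fin d) ℤ} {e : ℤ} {Q : ℤ[X]} {p : ℕ}

theorem Simp.MS (h : Simp M e Q p) : M * aeval M Q = e • aeval M Q := by
  have h1 := Matrix.aeval_self_charpoly M
  rw [h.fac, map_mul, map_sub, aeval_X, aeval_C, sub_mul, sub_eq_zero] at h1
  rw [h1, Algebra.algebraMap_eq_smul_one, smul_mul_assoc, one_mul]

theorem comm_aeval (M : Matrix (Fin d) (Fin d) ℤ) (Q : ℤ[X]) : aeval M Q * M = M * aeval M Q := by
  have h1 : aeval M (Q * X) = aeval M (X * Q) := by rw [mul_comm]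
  rwa [map_mul, map_mul, aeval_X] at h1

theorem Simp.SM (h : Simp M e Q p) : aeval M Q * M = e • aeval M Q := by
  rw [comm_aeval, h.MS]

theorem Simp.SMpow (h : Simp M e Q p) (n : ℕ) : aeval M Q * M ^ (p * n) = aeval M Q := by
  have h1 : ∀ k : ℕ, aeval M Q * M ^ k = e ^ k • aeval M Q := by
    intro k
    induction k with
    | zero => simp
    | succ k ih =>
      rw [pow_succ, ← mul_assoc, ih, smul_mul_assoc, h.SM, smul_smul, pow_succ]
  rw [h1, pow_mul, h.one, one_pow, one_smul]

theorem Simp.MpowS (h : Simp M e Q p) (n : ℕ) : M ^ (p * n) * aeval M Q = aeval M Q := by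
  have h1 : ∀ k : ℕ, M ^ k * aeval M Q = e ^ k • aeval M Q := by
    intro k
    induction k with
    | zero => simp
    | succ k ih =>
      rw [pow_succ', mul_assoc, ih, mul_smul_comm, h.MS, smul_smul, pow_succ]
  rw [h1, pow_mul, h.one, one_pow, one_smul]

theorem Simp.SS (h : Simp M e Q p) : aeval M Q * aeval M Q = Q.eval e • aeval M Q := by
  have h1 : ∀ R : ℤ[X], aeval M R * aeval M Q = R.eval e • aeval M Q := by
    intro R
    induction R using Polynomial.induction_on' with
    | add a b ha hb => rw [map_add, add_mul, ha, hb, eval_add, add_smul]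
    | monomial n c =>
      have h1 : ∀ k : ℕ, M ^ k * aeval M Q = e ^ k • aeval M Q := by
        intro k
        induction k with
        | zero => simp
        | succ k ih =>
          rw [pow_succ', mul_assoc, ih, mul_smul_comm, h.MS, smul_smul, pow_succ]
      rw [aeval_monomial, eval_monomial, mul_assoc, h1, ← Algebra.smul_def, smul_smul]
  exact h1 Q

/-- A vector killed by `Q(M)` with constant sums has sum zero. -/
theorem sum_zero (M : Matrix (Fin d) (Fin d) ℤ) (Q : ℤ[X])
    (nr : ∀ z : ℂ, (Q.map (Int.castRingHom ℂ)).IsRoot z → ∀ k : ℕ, 0 < k → z ^ k ≠ 1)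
    (hQ0 : Q ≠ 0) (K : ℕ) (hK : 0 < K) (w : Fin d → ℤ) (hw : (aeval M Q).mulVec w = 0)
    (hc : ∀ n : ℕ, ∑ a, ((M ^ (K * n)).mulVec w) a = ∑ a, w a) : ∑ a, w a = 0 := by
  set A : Matrix (Fin d) (Fin d) ℂ := M.map (Int.cast : ℤ → ℂ) with hA
  set wc : Fin d → ℂ := fun a => ((w a : ℤ) : ℂ) with hwc
  have hmap : ∀ k : ℕ, A ^ k = (M ^ k).map (Int.cast : ℤ → ℂ) := by
    intro k
    have := Matrix.map_pow M (Int.castRingHom ℂ) k
    simpa [hA] using this.symm
  have hcast : ∀ (N : Matrix (Fin d) (Fin d) ℤ) (a : Fin d),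
      ((N.map (Int.cast : ℤ → ℂ)).mulVec wc) a = ((N.mulVec w a : ℤ) : ℂ) := by
    intro N a
    simp only [Matrix.mulVec, dotProduct, Matrix.map_apply, hwc]
    push_cast
    rfl
  have h3 : ∀ n : ℕ, ∑ a, (((A ^ K) ^ n).mulVec wc) a = ∑ a, wc a := by
    intro n
    rw [← pow_mul, hmap]
    rw [sum_congr rfl fun a _ => hcast (M ^ (K * n)) a]
    simp only [hwc]
    exact_mod_cast hc n
  -- aeval A Qc
  set Qc := Q.map (Int.castRingHom ℂ) with hQc
  have haev : aeval A Qc = (aeval M Q).map (Int.cast : ℤ → ℂ) := by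
    have h1 : ∀ R : ℤ[X], aeval A (R.map (Int.castRingHom ℂ)) =
        (aeval M R).map (Int.cast : ℤ → ℂ) := by
      intro R
      induction R using Polynomial.induction_on' with
      | add a b ha hb =>
        rw [Polynomial.map_add, map_add, map_add, ha, hb]
        ext i j; simp
      | monomial n c =>
        rw [Polynomial.map_monomial, aeval_monomial, aeval_monomial, hmap]
        ext i j
        rw [← Algebra.smul_def, ← Algebra.smul_def]
        simp only [Matrix.smul_apply, Matrix.map_apply, smul_eq_mul]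
        push_cast
        rfl
    exact h1 Q
  have hQw : (aeval A Qc).mulVec wc = 0 := by
    rw [haev]
    funext a
    rw [hcast, hw]
    simp
  -- the polynomial F
  set F : ℂ[X] := C Qc.leadingCoeff * (Qc.roots.map (fun l => X - C (l ^ K))).prod with hF
  have hQc0 : Qc ≠ 0 := by
    rw [hQc]
    exact (Polynomial.map_ne_zero_iff (Int.cast_injective)).2 hQ0
  have hsplit : Qc = C Qc.leadingCoeff * (Qc.roots.map (fun l => X - C l)).prod :=
    (IsAlgClosed.splits Qc).eq_prod_roots
  have hdvd : Qc ∣ expand ℂ K F := by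
    rw [hF, map_mul, expand_C]
    conv_lhs => rw [hsplit]
    apply mul_dvd_mul_left
    rw [map_multiset_prod, Multiset.map_map]
    apply Multiset.prod_dvd_prod_of_dvd
    intro l _
    simp only [Function.comp_apply, map_sub, expand_X, expand_C]
    rw [C_pow]
    exact sub_dvd_pow_sub_pow _ _ _
  have hF1 : F.eval 1 ≠ 0 := by
    rw [hF, eval_mul, eval_C, eval_multiset_prod, Multiset.map_map]
    apply mul_ne_zero
    · exact leadingCoeff_ne_zero.2 hQc0
    · apply Multiset.prod_ne_zero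
      intro h0
      rw [Multiset.mem_map] at h0
      obtain ⟨l, hl, hl2⟩ := h0
      simp only [Function.comp_apply, eval_sub, eval_X, eval_C] at hl2
      exact nr l (isRoot_of_mem_roots hl) K hK (sub_eq_zero.1 hl2).symm
  have h5 := E2_poly (A ^ K) wc h3 F
  rw [← expand_aeval] at h5
  obtain ⟨R, hR⟩ := hdvd
  have h6 : aeval A (expand ℂ K F) = aeval A R * aeval A Qc := by
    rw [hR, mul_comm, map_mul]
  rw [h6, ← Matrix.mulVec_mulVec, hQw] at h5
  have h7 : ∑ a, wc a = 0 := by
    have h8 : F.eval 1 * ∑ a, wc a = 0 := by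
      rw [← h5]
      simp
    exact (mul_eq_zero.1 h8).resolve_left hF1
  have h9 : ((∑ a, w a : ℤ) : ℂ) = 0 := by
    rw [← h7]
    push_cast
    rfl
  exact_mod_cast h9

/-- the neutral vector -/
noncomputable def zt (M : Matrix (Fin d) (Fin d) ℤ) (e : ℤ) (Q : ℤ[X]) (a : Fin d) : ℚ :=
  ((∑ b, (aeval M Q) b a : ℤ) : ℚ) / ((Q.eval e : ℤ) : ℚ)

theorem Simp.neutral (h : Simp M e Q p) : Neutral (M ^ p) (zt M e Q) := by
  have hq : ((Q.eval e : ℤ) : ℚ) ≠ 0 := by exact_mod_cast h.ev
  constructor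
  · intro a
    have h1 : ∑ b, (M ^ p) b a * (∑ c, (aeval M Q) c b) = ∑ c, (aeval M Q) c a := by
      simp only [mul_sum]
      rw [sum_comm]
      refine sum_congr rfl fun c _ => ?_
      have h2 := congrFun (congrFun (h.SMpow 1) c) a
      rw [mul_one, Matrix.mul_apply] at h2
      rw [← h2]
      exact sum_congr rfl fun b _ => mul_comm _ _
    have h2 := congrArg (fun q : ℤ => (q : ℚ)) h1
    simp only [zt]
    push_cast at h2 ⊢
    rw [← h2, sum_div]
    exact sum_congr rfl fun b _ => by ring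
  · intro p' hp' u hu
    set w : Fin d → ℤ := (Q.eval e) • u - (aeval M Q).mulVec u with hw
    have h1 : (aeval M Q).mulVec w = 0 := by
      rw [hw, Matrix.mulVec_sub, Matrix.mulVec_smul, Matrix.mulVec_mulVec, h.SS,
        Matrix.smul_mulVec, sub_self]
    have h2 : ∀ n : ℕ, ∑ a, ((M ^ (p * p' * n)).mulVec w) a = ∑ a, w a := by
      intro n
      rw [hw, Matrix.mulVec_sub, Matrix.mulVec_smul, Matrix.mulVec_mulVec, mul_assoc, h.MpowS]
      simp only [Pi.sub_apply, Pi.smul_apply, sum_sub_distrib, smul_eq_mul, ← mul_sum]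
      rw [pow_mul, hu n]
    have hQ0 : Q ≠ 0 := by
      rintro rfl
      exact h.ev (by simp)
    have h3 := sum_zero M Q h.nr hQ0 (p * p') (Nat.mul_pos h.pos hp') w h1 h2
    rw [hw] at h3
    simp only [Pi.sub_apply, Pi.smul_apply, sum_sub_distrib, smul_eq_mul, ← mul_sum] at h3
    rw [sub_eq_zero] at h3
    have h4 : ∑ a, ((aeval M Q).mulVec u) a = ∑ a, (∑ b, (aeval M Q) b a) * u a := by
      simp only [Matrix.mulVec, dotProduct]
      rw [sum_comm]
      exact sum_congr rfl fun a _ => by rw [sum_mul]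
    rw [h4] at h3
    have h5 := congrArg (fun q : ℤ => (q : ℚ)) h3
    simp only [zt]
    push_cast at h5 ⊢
    have h6 : ∑ a, (∑ b, ((aeval M Q) b a : ℚ)) / ((Q.eval e : ℤ) : ℚ) * (u a : ℚ) =
        (∑ a, (∑ b, ((aeval M Q) b a : ℚ)) * (u a : ℚ)) / ((Q.eval e : ℤ) : ℚ) := by
      rw [sum_div]
      exact sum_congr rfl fun a _ => by ring
    rw [h6, ← h5]
    field_simp

theorem Simp.simple (h : Simp M e Q p) (hz : zt M e Q ≠ 0) (v : Fin d → ℂ)
    (hv : ((((M ^ p).map (Int.cast : ℤ → ℂ)).transpose.mulVec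
        (((M ^ p).map (Int.cast : ℤ → ℂ)).transpose.mulVec v - v) -
        (((M ^ p).map (Int.cast : ℤ → ℂ)).transpose.mulVec v - v))) = 0) :
    ∃ c : ℂ, v = c • (fun b => (zt M e Q b : ℂ)) := by
  set A : Matrix (Fin d) (Fin d) ℂ := (M.map (Int.cast : ℤ → ℂ)).transpose with hA
  set Qc := Q.map (Int.castRingHom ℂ) with hQc
  have hmap : ((M ^ p).map (Int.cast : ℤ → ℂ)).transpose = A ^ p := by
    have := Matrix.map_pow M (Int.castRingHom ℂ) p
    rw [hA, ← Matrix.transpose_pow]
    congr 1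
  rw [hmap] at hv
  have hchar : A.charpoly = (X - C (e : ℂ)) * Qc := by
    rw [hA, Matrix.charpoly_transpose]
    have h1 := Matrix.charpoly_map M (Int.castRingHom ℂ)
    have h2 : M.map (Int.castRingHom ℂ) = M.map (Int.cast : ℤ → ℂ) := by
      ext i j; simp
    rw [h2] at h1
    rw [h1, h.fac, Polynomial.map_mul]
    simp [hQc]
  have hAS : A * aeval A Qc = (e : ℂ) • aeval A Qc := by
    have h1 := Matrix.aeval_self_charpoly A
    rw [hchar, map_mul, map_sub, aeval_X, aeval_C, sub_mul, sub_eq_zero] at h1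
    rw [h1, Algebra.algebraMap_eq_smul_one, smul_mul_assoc, one_mul]
  have hApS : A ^ p * aeval A Qc = aeval A Qc := by
    have h1 : ∀ k : ℕ, A ^ k * aeval A Qc = (e : ℂ) ^ k • aeval A Qc := by
      intro k
      induction k with
      | zero => simp
      | succ k ih =>
        rw [pow_succ', mul_assoc, ih, mul_smul_comm, hAS, smul_smul, pow_succ]
    rw [h1]
    have h2 : (e : ℂ) ^ p = 1 := by exact_mod_cast h.one
    rw [h2, one_smul]
  have hSS : aeval A Qc * aeval A Qc = Qc.eval (e : ℂ) • aeval A Qc := by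
    have h1 : ∀ R : ℂ[X], aeval A R * aeval A Qc = R.eval (e : ℂ) • aeval A Qc := by
      intro R
      induction R using Polynomial.induction_on' with
      | add a b ha hb => rw [map_add, add_mul, ha, hb, eval_add, add_smul]
      | monomial n c =>
        have h1 : ∀ k : ℕ, A ^ k * aeval A Qc = (e : ℂ) ^ k • aeval A Qc := by
          intro k
          induction k with
          | zero => simp
          | succ k ih =>
            rw [pow_succ', mul_assoc, ih, mul_smul_comm, hAS, smul_smul, pow_succ]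
        rw [aeval_monomial, eval_monomial, mul_assoc, h1, ← Algebra.smul_def, smul_smul]
    exact h1 Qc
  set q : ℂ := Qc.eval (e : ℂ) with hq
  have hq0 : q ≠ 0 := by
    rw [hq, hQc]
    have h1 : (Q.map (Int.castRingHom ℂ)).eval (e : ℂ) = ((Q.eval e : ℤ) : ℂ) := by
      simp
    rw [h1]
    exact_mod_cast h.ev
  set w : Fin d → ℂ := q • v - (aeval A Qc).mulVec v with hw
  have hQw : (aeval A Qc).mulVec w = 0 := by
    rw [hw, Matrix.mulVec_sub, Matrix.mulVec_smul, Matrix.mulVec_mulVec, hSS,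
      Matrix.smul_mulVec, sub_self]
  have hv2 : (aeval A ((X ^ p - 1 : ℂ[X]) ^ 2)).mulVec v = 0 := by
    rw [map_pow, map_sub, map_pow, aeval_X, map_one, pow_two, ← Matrix.mulVec_mulVec,
      Matrix.sub_mulVec, Matrix.one_mulVec, Matrix.sub_mulVec, Matrix.one_mulVec]
    exact hv
  have hS2 : (aeval A ((X ^ p - 1 : ℂ[X]) ^ 2)) * (aeval A Qc) = 0 := by
    have h0 : (A ^ p - 1) * aeval A Qc = 0 := by rw [sub_mul, one_mul, hApS, sub_self]
    rw [map_pow, map_sub, map_pow, aeval_X, map_one, pow_two, mul_assoc, h0, mul_zero]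
  have hPw : (aeval A ((X ^ p - 1 : ℂ[X]) ^ 2)).mulVec w = 0 := by
    rw [hw, Matrix.mulVec_sub, Matrix.mulVec_smul, hv2, Matrix.mulVec_mulVec, hS2,
      Matrix.zero_mulVec, smul_zero, sub_zero]
  have hcop : IsCoprime Qc ((X ^ p - 1 : ℂ[X]) ^ 2) := by
    apply IsCoprime.pow_right
    refine (Polynomial.isCoprime_iff_aeval_ne_zero_of_isAlgClosed (k := ℂ) ℂ Qc (X ^ p - 1)).2 ?_
    intro a
    by_contra hcon
    push Not at hcon
    obtain ⟨h1, h2⟩ := hcon
    rw [coe_aeval_eq_eval] at h1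
    simp only [map_sub, map_pow, aeval_X, map_one] at h2
    exact h.nr a h1 p h.pos (sub_eq_zero.1 h2)
  have hw0 : w = 0 := by
    obtain ⟨a, b, hab⟩ := hcop
    have h1 := congrArg (fun R : ℂ[X] => (aeval A R).mulVec w) hab
    simp only [map_add, map_mul, map_one, Matrix.add_mulVec, ← Matrix.mulVec_mulVec, hQw, hPw,
      Matrix.one_mulVec, Matrix.mulVec_zero, add_zero] at h1
    exact h1.symm
  have hve : A.mulVec v = (e : ℂ) • v := by
    have h1 : q • v = (aeval A Qc).mulVec v := sub_eq_zero.1 hw0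
    have h2 : q • A.mulVec v = q • ((e : ℂ) • v) := by
      rw [← Matrix.mulVec_smul, h1, Matrix.mulVec_mulVec, hAS, Matrix.smul_mulVec, ← h1,
        smul_comm]
    have h3 : q • (A.mulVec v - (e : ℂ) • v) = 0 := by rw [smul_sub, h2, sub_self]
    exact sub_eq_zero.1 ((smul_eq_zero.1 h3).resolve_left hq0)
  have hze : A.mulVec (fun b => (zt M e Q b : ℂ)) = (e : ℂ) • (fun b => (zt M e Q b : ℂ)) := by
    funext a
    have h1 : ∑ b, M b a * (∑ c, (aeval M Q) c b) = e * ∑ c, (aeval M Q) c a := by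
      simp only [mul_sum]
      rw [sum_comm]
      refine sum_congr rfl fun c _ => ?_
      have h2 := congrFun (congrFun h.SM c) a
      rw [Matrix.mul_apply, Matrix.smul_apply, smul_eq_mul] at h2
      rw [← h2]
      exact sum_congr rfl fun b _ => mul_comm _ _
    have h2 := congrArg (fun q : ℤ => (q : ℂ)) h1
    simp only [zt, Matrix.mulVec, dotProduct, hA, Matrix.transpose_apply, Matrix.map_apply,
      Pi.smul_apply, smul_eq_mul]
    push_cast at h2 ⊢
    rw [← mul_div_assoc, ← h2, sum_div]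
    exact sum_congr rfl fun b _ => by ring
  -- dimension one
  have hdim := LinearMap.finrank_eigenspace_le (Matrix.toLin' A) (e : ℂ)
  rw [Matrix.charpoly_toLin', hchar] at hdim
  have hmult : ((X - C (e : ℂ)) * Qc).rootMultiplicity (e : ℂ) = 1 := by
    have hQc0 : Qc ≠ 0 := by
      intro h0
      rw [h0] at hq
      simp at hq
      exact hq0 hq
    rw [rootMultiplicity_mul (mul_ne_zero (X_sub_C_ne_zero _) hQc0), rootMultiplicity_X_sub_C_self,
      rootMultiplicity_eq_zero hq0]
  rw [hmult] at hdim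
  have hz' : (fun b => (zt M e Q b : ℂ)) ≠ 0 := by
    intro h0
    apply hz
    funext b
    have := congrFun h0 b
    simp only [Pi.zero_apply] at this ⊢
    exact_mod_cast this
  have hmem1 : (fun b => (zt M e Q b : ℂ)) ∈ Module.End.eigenspace (Matrix.toLin' A) (e : ℂ) := by
    rw [Module.End.mem_eigenspace_iff, Matrix.toLin'_apply, hze]
  have hmem2 : v ∈ Module.End.eigenspace (Matrix.toLin' A) (e : ℂ) := by
    rw [Module.End.mem_eigenspace_iff, Matrix.toLin'_apply, hve]
  have h1 := finrank_le_one_iff.1 hdim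
  obtain ⟨⟨b, hb⟩, hb2⟩ := h1
  obtain ⟨c1, hc1⟩ := hb2 ⟨_, hmem1⟩
  obtain ⟨c2, hc2⟩ := hb2 ⟨_, hmem2⟩
  have e1 : c1 • b = (fun b => (zt M e Q b : ℂ)) := congrArg Subtype.val hc1
  have e2 : c2 • b = v := congrArg Subtype.val hc2
  have hc10 : c1 ≠ 0 := by
    rintro rfl
    rw [zero_smul] at e1
    exact hz' e1.symm
  refine ⟨c2 / c1, ?_⟩
  rw [← e1, ← e2, smul_smul, div_mul_cancel₀ _ hc10]

end Pool.Agent.Helper97.Sub
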