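import Pool.Agent.Helper97.Sub.Pos

set_option autoImplicit false

namespace Pool.Agent.Helper97.Sub

open Finset MeasureTheory Filter Topology
open scoped ComplexConjugate Kronecker

variable {d : ℕ}

theorem root_iff (A : Matrix (Fin d) (Fin d) ℂ) (l : ℂ) :
    A.charpoly.IsRoot l ↔ ∃ v : Fin d → ℂ, v ≠ 0 ∧ A.mulVec v = l • v := by
  rw [Polynomial.IsRoot.def, Matrix.eval_charpoly, ← Matrix.exists_mulVec_eq_zero_iff]
  constructor
  · rintro ⟨v, hv, h⟩
    refine ⟨v, hv, ?_⟩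
    rw [Matrix.sub_mulVec, sub_eq_zero, Matrix.scalar_apply, ← Matrix.smul_one_eq_diagonal,
      Matrix.smul_mulVec, Matrix.one_mulVec] at h
    exact h.symm
  · rintro ⟨v, hv, h⟩
    refine ⟨v, hv, ?_⟩
    rw [Matrix.sub_mulVec, sub_eq_zero, Matrix.scalar_apply, ← Matrix.smul_one_eq_diagonal,
      Matrix.smul_mulVec, Matrix.one_mulVec, h]

/-- deflated matrix -/
noncomputable def Df (A : Matrix (Fin d) (Fin d) ℂ) (t : Fin d → ℂ) (b₀ : Fin d) :
    Matrix (Fin d) (Fin d) ℂ :=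
  fun b c => A b c - if c = b₀ then t b / t b₀ else 0

theorem Df_mulVec (A : Matrix (Fin d) (Fin d) ℂ) (t : Fin d → ℂ) (b₀ : Fin d) (v : Fin d → ℂ) :
    (Df A t b₀).mulVec v = A.mulVec v - (v b₀ / t b₀) • t := by
  funext b
  simp only [Matrix.mulVec, dotProduct, Df, Pi.sub_apply, Pi.smul_apply, smul_eq_mul, sub_mul,
    sum_sub_distrib, ite_mul, zero_mul, sum_ite_eq', mem_univ, if_true]
  ring

theorem defl1 (A : Matrix (Fin d) (Fin d) ℂ) (t : Fin d → ℂ) (b₀ : Fin d) (hA : A.mulVec t = t)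
    (ht : t b₀ ≠ 0) (v : Fin d → ℂ) (l : ℂ) (hv : v ≠ 0) (hl0 : l ≠ 0) (hl1 : l ≠ 1)
    (h : A.mulVec v = l • v) : ∃ v' : Fin d → ℂ, v' ≠ 0 ∧ (Df A t b₀).mulVec v' = l • v' := by
  set c := v b₀ / t b₀ / l with hc
  refine ⟨v - c • t, ?_, ?_⟩
  · intro h0
    have h1 : v = c • t := sub_eq_zero.1 h0
    have h2 : l • v = v := by
      rw [← h]; conv_lhs => rw [h1]
      rw [Matrix.mulVec_smul, hA, ← h1]
    apply hv
    have h3 : (l - 1) • v = 0 := by rw [sub_smul, h2, one_smul, sub_self]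
    exact (smul_eq_zero.1 h3).resolve_left (sub_ne_zero.2 hl1)
  · rw [Df_mulVec, Matrix.mulVec_sub, Matrix.mulVec_smul, h, hA]
    funext b
    simp only [Pi.sub_apply, Pi.smul_apply, smul_eq_mul]
    rw [hc]
    field_simp
    ring

theorem defl2 (A : Matrix (Fin d) (Fin d) ℂ) (t : Fin d → ℂ) (b₀ : Fin d) (hA : A.mulVec t = t)
    (ht : t b₀ ≠ 0)
    (hsimple : ∀ v : Fin d → ℂ, (A.mulVec (A.mulVec v - v) - (A.mulVec v - v)) = 0 →
      ∃ c : ℂ, v = c • t)
    (v : Fin d → ℂ) (l : ℂ) (hv : v ≠ 0) (hl0 : l ≠ 0)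
    (h : (Df A t b₀).mulVec v = l • v) :
    l ≠ 1 ∧ ∃ v' : Fin d → ℂ, v' ≠ 0 ∧ A.mulVec v' = l • v' := by
  rw [Df_mulVec] at h
  set α := v b₀ / t b₀ with hα
  have h1 : A.mulVec v = l • v + α • t := by rw [← h]; abel
  have hnot : ∀ c : ℂ, v ≠ c • t := by
    rintro c rfl
    have h2 : α = c := by
      rw [hα]; simp only [Pi.smul_apply, smul_eq_mul]; field_simp
    rw [Matrix.mulVec_smul, hA, h2, sub_self] at h
    exact hv ((smul_eq_zero.1 h.symm).resolve_left hl0)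
  have hl1 : l ≠ 1 := by
    rintro rfl
    obtain ⟨c, hc⟩ := hsimple v (by
      rw [h1, one_smul, add_sub_cancel_left, Matrix.mulVec_smul, hA, sub_self])
    exact hnot c hc
  refine ⟨hl1, v + (α / (l - 1)) • t, ?_, ?_⟩
  · intro h0
    apply hnot (-(α / (l - 1)))
    rw [neg_smul]
    exact eq_neg_of_add_eq_zero_left h0
  · have hl : l - 1 ≠ 0 := sub_ne_zero.2 hl1
    rw [Matrix.mulVec_add, Matrix.mulVec_smul, hA, h1]
    funext b
    simp only [Pi.add_apply, Pi.smul_apply, smul_eq_mul]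
    field_simp
    ring

theorem kron_mulVec (D D' : Matrix (Fin d) (Fin d) ℂ) (z : Fin d × Fin d → ℂ) (i j : Fin d) :
    ((D ⊗ₖ D').mulVec z) (i, j) = ∑ k, ∑ l, D i k * D' j l * z (k, l) := by
  simp only [Matrix.mulVec, dotProduct, Matrix.kroneckerMap_apply, Fintype.sum_prod_type]

theorem ker1 (D : Matrix (Fin d) (Fin d) ℂ) (v : Fin d → ℂ) (l : ℂ) (hv : v ≠ 0)
    (h : D.mulVec v = l • v) :
    (D ⊗ₖ D.map conj - (l * conj l) • (1 : Matrix (Fin d × Fin d) (Fin d × Fin d) ℂ)).det = 0 := by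
  rw [← Matrix.exists_mulVec_eq_zero_iff]
  refine ⟨fun p => v p.1 * conj (v p.2), ?_, ?_⟩
  · intro h0
    obtain ⟨i, hi⟩ := Function.ne_iff.1 hv
    have h1 := congrFun h0 (i, i)
    simp only [Pi.zero_apply, mul_eq_zero, map_eq_zero, or_self] at h1
    exact hi h1
  · rw [Matrix.sub_mulVec, sub_eq_zero, Matrix.smul_mulVec, Matrix.one_mulVec]
    funext ⟨i, j⟩
    rw [kron_mulVec]
    have h1 : ∀ i, ∑ k, D i k * v k = l * v i := fun i => by
      have := congrFun h i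
      simpa [Matrix.mulVec, dotProduct] using this
    have h2 : ∑ k, conj (D j k) * conj (v k) = conj l * conj (v j) := by
      rw [← map_mul, ← h1, map_sum]
      simp only [map_mul]
    simp only [Matrix.map_apply, Pi.smul_apply, smul_eq_mul]
    calc ∑ k, ∑ m, D i k * conj (D j m) * (v k * conj (v m))
        = (∑ k, D i k * v k) * ∑ m, conj (D j m) * conj (v m) := by
          rw [sum_mul_sum]
          refine sum_congr rfl fun k _ => sum_congr rfl fun m _ => by ring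
      _ = l * conj l * (v i * conj (v j)) := by rw [h1, h2]; ring

theorem ker2 (D : Matrix (Fin d) (Fin d) ℂ) (s : ℂ) (hs : s ≠ 0)
    (h : (D ⊗ₖ D.map conj - s • (1 : Matrix (Fin d × Fin d) (Fin d × Fin d) ℂ)).det = 0) :
    ∃ l m : ℂ, l * conj m = s ∧ (∃ v : Fin d → ℂ, v ≠ 0 ∧ D.mulVec v = l • v) ∧
      ∃ v : Fin d → ℂ, v ≠ 0 ∧ D.mulVec v = m • v := by
  rw [← Matrix.exists_mulVec_eq_zero_iff] at h
  obtain ⟨z₀, hz₀, hz₀'⟩ := h
  rw [Matrix.sub_mulVec, sub_eq_zero, Matrix.smul_mulVec, Matrix.one_mulVec] at hz₀'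
  -- the commuting operators
  let P : Module.End ℂ (Fin d × Fin d → ℂ) := Matrix.toLin' (D ⊗ₖ (1 : Matrix (Fin d) (Fin d) ℂ))
  let Q : Module.End ℂ (Fin d × Fin d → ℂ) :=
    Matrix.toLin' ((1 : Matrix (Fin d) (Fin d) ℂ) ⊗ₖ D.map conj)
  have hPQ : ∀ z, P (Q z) = (D ⊗ₖ D.map conj).mulVec z := by
    intro z
    simp only [P, Q, Matrix.toLin'_apply, Matrix.mulVec_mulVec, ← Matrix.mul_kronecker_mul,
      Matrix.mul_one, Matrix.one_mul]
  have hQP : ∀ z, Q (P z) = (D ⊗ₖ D.map conj).mulVec z := by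
    intro z
    simp only [P, Q, Matrix.toLin'_apply, Matrix.mulVec_mulVec, ← Matrix.mul_kronecker_mul,
      Matrix.mul_one, Matrix.one_mul]
  let E : Submodule ℂ (Fin d × Fin d → ℂ) :=
    LinearMap.ker (Matrix.toLin' (D ⊗ₖ D.map conj) - s • LinearMap.id)
  have hE : ∀ z, z ∈ E ↔ (D ⊗ₖ D.map conj).mulVec z = s • z := by
    intro z
    simp only [E, LinearMap.mem_ker, LinearMap.sub_apply, Matrix.toLin'_apply, LinearMap.smul_apply,
      LinearMap.id_apply, sub_eq_zero]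
  have hPE : ∀ z ∈ E, P z ∈ E := by
    intro z hz
    rw [hE] at hz ⊢
    rw [← hPQ, hQP, hz, map_smul]
  have hz₀E : z₀ ∈ E := (hE z₀).2 hz₀'
  have : Nontrivial E := ⟨⟨z₀, hz₀E⟩, 0, fun h => hz₀ (congrArg Subtype.val h)⟩
  obtain ⟨l, hl⟩ := Module.End.exists_eigenvalue (P.restrict hPE)
  obtain ⟨⟨z, hzE⟩, hz⟩ := hl.exists_hasEigenvector
  have hz1 : P z = l • z := congrArg Subtype.val hz.apply_eq_smul
  have hz2 : z ≠ 0 := fun h => hz.2 (Subtype.ext h)
  have hz3 : l • Q z = s • z := by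
    rw [← (hE z).1 hzE, ← hQP, hz1, map_smul]
  have hl0 : l ≠ 0 := by
    rintro rfl
    rw [zero_smul] at hz3
    exact hz2 ((smul_eq_zero.1 hz3.symm).resolve_left hs)
  have hz4 : Q z = (s / l) • z := by
    rw [div_eq_inv_mul, mul_smul, ← hz3, smul_smul, inv_mul_cancel₀ hl0, one_smul]
  obtain ⟨⟨i, j⟩, hij⟩ := Function.ne_iff.1 hz2
  rw [Pi.zero_apply] at hij
  refine ⟨l, conj (s / l), ?_, ⟨fun k => z (k, j), ?_, ?_⟩, ⟨fun k => conj (z (i, k)), ?_, ?_⟩⟩
  · rw [Complex.conj_conj]; field_simp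
  · intro h0; exact hij (congrFun h0 i)
  · funext k
    have h1 := congrFun hz1 (k, j)
    simp only [P, Matrix.toLin'_apply, Pi.smul_apply, smul_eq_mul] at h1
    rw [kron_mulVec] at h1
    simp only [Matrix.mulVec, dotProduct, Pi.smul_apply, smul_eq_mul]
    rw [← h1]
    refine sum_congr rfl fun m _ => ?_
    rw [sum_eq_single j]
    · rw [Matrix.one_apply_eq, mul_one]
    · intro b _ hb; rw [Matrix.one_apply_ne (Ne.symm hb)]; ring
    · simp
  · intro h0
    have := congrFun h0 j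
    simp only [Pi.zero_apply, map_eq_zero] at this
    exact hij this
  · funext k
    have h1 := congrFun hz4 (i, k)
    simp only [Q, Matrix.toLin'_apply, Pi.smul_apply, smul_eq_mul] at h1
    rw [kron_mulVec] at h1
    simp only [Matrix.mulVec, dotProduct, Pi.smul_apply, smul_eq_mul]
    have hrow : ∑ m, conj (D k m) * z (i, m) = s / l * z (i, k) := by
      rw [← h1]
      symm
      rw [sum_eq_single i]
      · refine sum_congr rfl fun m _ => ?_
        rw [Matrix.one_apply_eq, one_mul, Matrix.map_apply]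
      · intro b _ hb
        apply sum_eq_zero
        intro m _
        rw [Matrix.one_apply_ne (Ne.symm hb)]; simp
      · simp
    rw [← map_mul, ← hrow, map_sum]
    refine sum_congr rfl fun m _ => ?_
    rw [map_mul, Complex.conj_conj]

end Pool.Agent.Helper97.Sub
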