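import Pool.Agent.Helper97.Sub.Meas

set_option autoImplicit false

namespace Pool.Agent.Helper97.Sub

open Finset MeasureTheory
open scoped ComplexConjugate

variable {d : ℕ}

/-- The symbolic data. -/
structure Sys (σ : Fin d → List (Fin d)) (M : Matrix (Fin d) (Fin d) ℤ) (θ : ℝ)
    (X : Set (ℤ → Fin d)) : Prop where
  ne : ∀ a, σ a ≠ []
  cnt : ∀ i j, M i j = (((σ j).count i : ℕ) : ℤ)
  prim : ∃ k : ℕ, ∀ i j, 0 < (M ^ k) i j
  root : (M.map (Int.cast : ℤ → ℂ)).charpoly.IsRoot (θ : ℂ)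
  top : ∀ z : ℂ, (M.map (Int.cast : ℤ → ℂ)).charpoly.IsRoot z → ‖z‖ ≤ θ
  lang : ∀ x : ℤ → Fin d, x ∈ X ↔
        ∀ (i : ℤ) (k : ℕ), ∃ (n : ℕ) (a : Fin d),
          (List.ofFn (fun j : Fin k => x (i + ((j : ℕ) : ℤ)))) <:+:
            ((fun w : List (Fin d) => w.flatMap σ)^[n] [a])

variable {σ : Fin d → List (Fin d)} {M : Matrix (Fin d) (Fin d) ℤ} {θ : ℝ} {X : Set (ℤ → Fin d)}

theorem Sys.word (h : Sys σ M θ X) {x : ℤ → Fin d} (hx : x ∈ X) (i : ℤ) (n : ℕ) :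
    ∃ m a, win x i n <:+: T σ m a := (h.lang x).1 hx i n

/-- growth in terms of tile lengths -/
theorem Sys.growth (H : H_stmt) (h : Sys σ M θ X) :
    1 ≤ θ ∧ ∃ c : ℝ, 0 < c ∧ ∃ C : ℝ, 0 ≤ C ∧ ∀ (k : ℕ) (a : Fin d),
      c * θ ^ k ≤ ((T σ k a).length : ℝ) ∧ ((T σ k a).length : ℝ) ≤ C * θ ^ k := by
  obtain ⟨h1, c, hc, C, hC⟩ := H d M θ (fun i j => by rw [h.cnt]; positivity)
    (fun j => by
      obtain ⟨i, hi⟩ := List.exists_mem_of_ne_nil _ (h.ne j)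
      refine ⟨i, ?_⟩
      rw [h.cnt]
      exact_mod_cast List.count_pos_iff.2 hi) h.prim h.root h.top
  refine ⟨h1, c, hc, max C 0, le_max_right _ _, fun k a => ?_⟩
  have e : (((ell M k a : ℤ)) : ℝ) = ((T σ k a).length : ℝ) := by
    rw [← length_T h.cnt k a]; norm_cast
  obtain ⟨h2, h3⟩ := hC k a
  rw [e] at h2 h3
  refine ⟨h2, h3.trans ?_⟩
  gcongr
  exact le_max_left _ _

theorem Sys.energy (h : Sys σ M θ X) {μ : Measure (ℤ → Fin d)} [IsProbabilityMeasure μ]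
    (hX : μ Xᶜ = 0) (hμ : MeasurePreserving (sh (d := d)) μ μ)
    {G : List (Fin d) → ℂ} {w : ℕ} {z : ℂ} {B : ℝ} (hz : ‖z‖ = 1) (hB : 0 ≤ B)
    (hG : ∀ v : List (Fin d), v.length = w → ‖G v‖ ≤ B) {C₁ : ℝ}
    (hC : ∀ N : ℕ, ∫ x, ‖SN G w z N x‖ ^ 2 ∂μ ≤ C₁ * N)
    (k₀ : ℕ) (hprim : ∀ a b, a ∈ T σ k₀ b) (k Mx : ℕ)
    (hM : ∀ c, (T σ (k + k₀) c).length ≤ Mx) (a : Fin d) (N : ℕ) (hN : N ≤ (T σ k a).length) :
    ∑ u ∈ range ((T σ k a).length + 1 - N),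
      ‖PS G w z (T σ k a) (u + N) - PS G w z (T σ k a) u‖ ^ 2 ≤
      2 * ((2 * Mx + 1 : ℕ) * (C₁ * N)) + 2 * ((T σ k a).length + 1) * (w * B) ^ 2 := by
  set L := 2 * Mx + 1 with hL
  set ℓ := (T σ k a).length with hℓ
  -- choose a point
  have hint : Integrable (fun x => ∑ i ∈ range L, ‖SN G w z N (sh^[i] x)‖ ^ 2) μ :=
    integrable_finset_sum _ fun i _ => integrable_SN hz hG N i
  obtain ⟨x, hxX, hx⟩ := exists_notMem_null_le_integral hint hX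
  have hxX' : x ∈ X := by simpa using hxX
  rw [integral_finset_sum _ fun i _ => integrable_SN hz hG N i] at hx
  simp only [integral_SN hμ] at hx
  rw [sum_const, card_range, nsmul_eq_mul] at hx
  have hx2 : ∑ i ∈ range L, ‖SN G w z N (sh^[i] x)‖ ^ 2 ≤ L * (C₁ * N) :=
    hx.trans (by gcongr; exact hC N)
  -- find the tile
  have hocc := occ_tile h.ne k₀ hprim k Mx hM (win x 0 L) (h.word hxX' 0 L)
    (by rw [win_length]; omega) a
  obtain ⟨P, Q, hPQ⟩ := hocc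
  have hPl : P.length + ℓ ≤ L := by
    have := congrArg List.length hPQ
    rw [win_length] at this
    simp only [List.length_append] at this
    omega
  have hU := win_occ x L P (T σ k a) Q hPQ.symm
  rw [← hℓ] at hU
  have hterm : ∀ u ∈ range (ℓ + 1 - N), ‖PS G w z (T σ k a) (u + N) - PS G w z (T σ k a) u‖ ^ 2 ≤
      2 * ‖SN G w z N (sh^[P.length + u] x)‖ ^ 2 + 2 * (w * B) ^ 2 := by
    intro u hu
    rw [mem_range] at hu
    have h1 := PS_sub_SN hz hB hG x P.length ℓ u N (by omega)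
    rw [← hU] at h1
    set p := PS G w z (T σ k a) (u + N) - PS G w z (T σ k a) u with hp
    set q := z ^ u * SN G w z N (sh^[P.length + u] x) with hq
    have hqn : ‖q‖ = ‖SN G w z N (sh^[P.length + u] x)‖ := by
      rw [hq, norm_mul, norm_pow, hz, one_pow, one_mul]
    have h2 : ‖p‖ ≤ ‖q‖ + w * B := by
      have := norm_sub_norm_le p q
      linarith
    rw [← hqn]
    have h3 : 0 ≤ ‖p‖ := norm_nonneg _
    have h4 : ‖p‖ ^ 2 ≤ (‖q‖ + w * B) ^ 2 := by gcongr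
    nlinarith [sq_nonneg (‖q‖ - w * B)]
  refine (sum_le_sum hterm).trans ?_
  rw [sum_add_distrib, ← mul_sum, sum_const, card_range, nsmul_eq_mul]
  have h5 : ∑ u ∈ range (ℓ + 1 - N), ‖SN G w z N (sh^[P.length + u] x)‖ ^ 2 ≤ L * (C₁ * N) := by
    rcases Nat.eq_zero_or_pos N with h0 | h0
    · subst h0
      have : ∀ y : ℤ → Fin d, SN G w z 0 y = 0 := fun y => by simp [SN]
      simp [this]
    refine le_trans ?_ hx2
    rw [← sum_image (f := fun i => ‖SN G w z N (sh^[i] x)‖ ^ 2) (g := fun u => P.length + u)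
      (fun a _ b _ hab => by simpa using hab)]
    apply sum_le_sum_of_subset_of_nonneg
    · intro i hi
      rw [mem_image] at hi
      obtain ⟨u, hu, rfl⟩ := hi
      rw [mem_range] at hu ⊢
      omega
    · intros; positivity
  have h6 : ((ℓ + 1 - N : ℕ) : ℝ) ≤ (ℓ : ℝ) + 1 := by
    have : ℓ + 1 - N ≤ ℓ + 1 := Nat.sub_le _ _
    exact_mod_cast this
  have h7 : ((ℓ + 1 - N : ℕ) : ℝ) * (2 * (w * B) ^ 2) ≤ ((ℓ : ℝ) + 1) * (2 * (w * B) ^ 2) := by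
    gcongr
  nlinarith

/-- From a good frequency to a limit vector. -/
theorem Sys.core (H : H_stmt) (A2 : A2_stmt) (h : Sys σ M θ X) (hθ : 1 < θ)
    {μ : Measure (ℤ → Fin d)} [IsProbabilityMeasure μ]
    (hX : μ Xᶜ = 0) (hμ : MeasurePreserving (sh (d := d)) μ μ)
    (G : List (Fin d) → ℂ) (w : ℕ) (ν : Measure (AddCircle (1 : ℝ)))
    (hν : IsSpec μ sh (fun x => G (List.ofFn (fun j : Fin w => x ((j : ℕ) : ℤ)))) ν)
    (s : AddCircle (1 : ℝ)) (hgood : Good ν s) (y : Fin d → ℂ) (hy : ∀ b, yw y (σ b) = y b)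
    (hyn : ∀ c, ‖y c‖ = 1)
    (hrec : ∀ ε : ℝ, 0 < ε → ∀ K : ℕ, ∃ k, K ≤ k ∧
      ∀ a, ‖(conj (fourier 1 s)) ^ (T σ k a).length - y a‖ < ε) :
    ∃ l : ℂ, (OpM σ y).charpoly.IsRoot l ∧ ‖l‖ ^ 2 = θ := by
  set z : ℂ := conj (fourier 1 s) with hzdef
  have hz : ‖z‖ = 1 := by
    rw [hzdef, RCLike.norm_conj, fourier_apply]
    exact Circle.norm_coe _
  obtain ⟨B, hB, hG⟩ := exists_bound w G
  obtain ⟨c, hc, C, N₀, hlo, hup⟩ := hgood
  have hf : MemLp (fun x : ℤ → Fin d => G (List.ofFn (fun j : Fin w => x ((j : ℕ) : ℤ)))) 2 μ := by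
    refine MemLp.of_bound (meas_f w G).aestronglyMeasurable B (Filter.Eventually.of_forall ?_)
    intro x
    exact hG _ (by simp)
  have hKN : ∀ N : ℕ, KN ν N s = ∫ x, ‖SN G w z N x‖ ^ 2 ∂μ := fun N =>
    A2 _ μ _ hμ _ hf ν hν N s
  have hup' : ∀ N : ℕ, ∫ x, ‖SN G w z N x‖ ^ 2 ∂μ ≤ C * N := fun N => by
    rw [← hKN]; exact hup N
  have hC0 : 0 ≤ C := by
    have h1 := hup' 1
    have h2 : 0 ≤ ∫ x, ‖SN G w z 1 x‖ ^ 2 ∂μ := integral_nonneg fun x => by positivity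
    push_cast at h1
    linarith
  obtain ⟨-, c₀, hc₀, C₀, hC₀, hgr⟩ := h.growth H
  obtain ⟨k₀, hk₀⟩ := h.prim
  have hprim : ∀ a b, a ∈ T σ k₀ b := fun a b => mem_T h.cnt k₀ a b (hk₀ a b)
  set r := Real.sqrt θ with hr
  have hθ0 : 0 ≤ θ := by linarith
  have hr2 : ∀ k : ℕ, r ^ (2 * k) = θ ^ k := fun k => by
    rw [pow_mul, hr, Real.sq_sqrt hθ0]
  have hr1 : 1 < r := by
    rw [hr, Real.lt_sqrt (by norm_num)]; simpa using hθ
  have hr0 : 0 < r := by linarith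
  -- the constant
  set R : ℝ := 2 * C₀ * θ ^ k₀ + 3 with hR
  set K : ℝ := 2 * R * C + 2 * (C₀ + 1) * (w * B) ^ 2 with hK
  have hdat : Dat σ G w z B r c₀ C₀ K := by
    refine ⟨hz, hB, hG, hr1, hc₀, by positivity, ?_, ?_, ?_⟩
    · intro k a; rw [hr2]; exact (hgr k a).1
    · intro k a; rw [hr2]; exact (hgr k a).2
    · intro k a N hN1 hN
      set Mx := ⌈C₀ * θ ^ (k + k₀)⌉₊ with hMx
      have hM : ∀ c, (T σ (k + k₀) c).length ≤ Mx := fun c => by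
        have := (hgr (k + k₀) c).2.trans (Nat.le_ceil _)
        exact_mod_cast this
      have h1 := h.energy hX hμ hz hB hG hup' k₀ hprim k Mx hM a N hN
      refine h1.trans ?_
      rw [hr2]
      have hθk : 1 ≤ θ ^ k := one_le_pow₀ hθ.le
      have hMx2 : (Mx : ℝ) ≤ C₀ * θ ^ (k + k₀) + 1 :=
        (Nat.ceil_lt_add_one (by positivity)).le
      have hN1' : (1:ℝ) ≤ N := by exact_mod_cast hN1
      have h2 : ((2 * Mx + 1 : ℕ) : ℝ) ≤ R * θ ^ k := by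
        push_cast
        calc 2 * (Mx : ℝ) + 1 ≤ 2 * (C₀ * θ ^ (k + k₀) + 1) + 1 := by gcongr
          _ = 2 * C₀ * θ ^ k₀ * θ ^ k + 3 * 1 := by rw [pow_add]; ring
          _ ≤ 2 * C₀ * θ ^ k₀ * θ ^ k + 3 * θ ^ k := by gcongr
          _ = R * θ ^ k := by rw [hR]; ring
      have h3 : ((T σ k a).length : ℝ) + 1 ≤ (C₀ + 1) * θ ^ k := by
        have := (hgr k a).2
        linarith
      have h4 : 2 * (((2 * Mx + 1 : ℕ) : ℝ) * (C * N)) ≤ 2 * (R * θ ^ k * (C * N)) := by gcongr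
      have h5 : 2 * (((T σ k a).length : ℝ) + 1) * (w * B) ^ 2 ≤
          2 * ((C₀ + 1) * θ ^ k) * (w * B) ^ 2 := by gcongr
      have h6 : 2 * ((C₀ + 1) * θ ^ k) * (w * B) ^ 2 * 1 ≤
          2 * ((C₀ + 1) * θ ^ k) * (w * B) ^ 2 * N := by gcongr
      calc 2 * (((2 * Mx + 1 : ℕ) : ℝ) * (C * N)) + 2 * (((T σ k a).length : ℝ) + 1) * (w * B) ^ 2
          ≤ 2 * (R * θ ^ k * (C * N)) + 2 * ((C₀ + 1) * θ ^ k) * (w * B) ^ 2 * N := by linarith
        _ = K * θ ^ k * N := by rw [hK]; ring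
  obtain ⟨A, hA0, hA⟩ := hdat.tile_upper h.ne
  -- bound on the lengths of the images
  set sm : ℝ := C₀ * θ with hsm
  have hs : ∀ a, ((σ a).length : ℝ) ≤ sm := fun a => by
    have := (hgr 1 a).2
    rwa [T_one, pow_one] at this
  have hsm0 : 0 ≤ sm := by positivity
  have hPre := hdat.prefix_upper hA0 hA hs hsm0
  have hSuf := hdat.suffix_upper hA0 hA hs hsm0
  have hr11 : 0 < r - 1 := by linarith
  obtain ⟨c₂, hc₂, k₁, hlow⟩ := hdat.tile_lower hPre hSuf (by positivity) hC₀ c hc N₀ (by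
    intro N hN
    have h1 := hlo N hN
    rw [hKN] at h1
    have hint := integrable_SN (μ := μ) hz hG N 0
    simp only [Function.iterate_zero, id_eq] at hint
    obtain ⟨x, hxX, hx⟩ := exists_notMem_null_integral_le hint hX
    have hxX' : x ∈ X := by simpa using hxX
    refine ⟨win x 0 N, win_length _ _ _, h.word hxX' 0 N, ?_⟩
    have h2 := TS_sub_SN hz hB hG x N
    have h3 : ‖SN G w z N x‖ ≤ ‖TS G w z (win x 0 N)‖ + w * B := by
      have := norm_sub_norm_le (SN G w z N x) (TS G w z (win x 0 N))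
      rw [norm_sub_rev] at this
      linarith
    calc c * N ≤ _ := h1
      _ ≤ ‖SN G w z N x‖ ^ 2 := hx
      _ ≤ _ := by gcongr)
  obtain ⟨v, hv⟩ := hdat.limit_vector hy hyn hA0 hA hlow hrec
  obtain ⟨l, hl1, hl2⟩ := Sub.G d (OpM σ y) v r c₂ A hr0 hc₂ hv
  refine ⟨l, hl1, ?_⟩
  rw [hl2, hr, Real.sq_sqrt hθ0]

end Pool.Agent.Helper97.Sub
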