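import Mathlib

set_option autoImplicit false

namespace Pool.Agent.Helper97.Sub

open MeasureTheory
open scoped ComplexConjugate

/-- The left shift on two-sided sequences. -/
def sh {d : ℕ} : (ℤ → Fin d) → (ℤ → Fin d) := fun x i => x (i + 1)

/-- `nu` is a spectral measure of `f` for the transformation `T` of `(Ω, μ)`. -/
def IsSpec {Ω : Type} [MeasurableSpace Ω] (μ : Measure Ω) (T : Ω → Ω) (f : Ω → ℂ)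
    (ν : Measure (AddCircle (1 : ℝ))) : Prop :=
  IsFiniteMeasure ν ∧
    ∀ n : ℕ, ∫ t, fourier (n : ℤ) t ∂ν = ∫ x, f (T^[n] x) * conj (f x) ∂μ

/-- Unnormalised Fejer integral. -/
noncomputable def KN (ν : Measure (AddCircle (1 : ℝ))) (N : ℕ) (s : AddCircle (1 : ℝ)) : ℝ :=
  ∫ t, ‖∑ j ∈ Finset.range N, fourier (j : ℤ) (t - s)‖ ^ 2 ∂ν

/-- Two-sided bounds for the Fejer integrals at `s`. -/
def Good (ν : Measure (AddCircle (1 : ℝ))) (s : AddCircle (1 : ℝ)) : Prop :=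
  ∃ c : ℝ, 0 < c ∧ ∃ C : ℝ, ∃ N₀ : ℕ,
    (∀ N : ℕ, N₀ ≤ N → c * N ≤ KN ν N s) ∧ ∀ N : ℕ, KN ν N s ≤ C * N

/-- Column sums of the powers of `M`. -/
def ell {d : ℕ} (M : Matrix (Fin d) (Fin d) ℤ) (k : ℕ) (a : Fin d) : ℤ := ∑ b, (M ^ k) b a

/-- `z` is the neutral part of the all-one vector for `M`. -/
def Neutral {d : ℕ} (M : Matrix (Fin d) (Fin d) ℤ) (z : Fin d → ℚ) : Prop :=
  (∀ a, ∑ b, ((M b a : ℤ) : ℚ) * z b = z a) ∧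
  ∀ p : ℕ, 0 < p → ∀ u : Fin d → ℤ,
    (∀ n : ℕ, ∑ a, ((M ^ (p * n)).mulVec u) a = ∑ a, u a) →
      ((∑ a, u a : ℤ) : ℚ) = ∑ a, z a * u a

/-- Module A1. -/
def A1_stmt : Prop :=
  ∀ (Ω : Type) [MeasurableSpace Ω] (μ : Measure Ω) [IsProbabilityMeasure μ] (T : Ω → Ω),
    MeasurePreserving T μ μ → ∀ f : Ω → ℂ, MemLp f 2 μ → ∃ ν, IsSpec μ T f ν

/-- Module A2. -/
def A2_stmt : Prop :=
  ∀ (Ω : Type) [MeasurableSpace Ω] (μ : Measure Ω) [IsProbabilityMeasure μ] (T : Ω → Ω),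
    MeasurePreserving T μ μ → ∀ f : Ω → ℂ, MemLp f 2 μ →
      ∀ ν, IsSpec μ T f ν → ∀ (N : ℕ) (s : AddCircle (1 : ℝ)),
        KN ν N s =
          ∫ x, ‖∑ j ∈ Finset.range N, f (T^[j] x) * (conj (fourier 1 s)) ^ j‖ ^ 2 ∂μ

/-- Module B. -/
def B_stmt : Prop :=
  ∀ ν : Measure (AddCircle (1 : ℝ)), IsFiniteMeasure ν →
    ¬ ν.MutuallySingular volume →
      volume {ω : ℝ | Good ν ((ω : ℝ) : AddCircle (1 : ℝ))} ≠ 0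

/-- Module C1. -/
def C1_stmt : Prop :=
  ∀ (Ω : Type) [MeasurableSpace Ω] (μ : Measure Ω) [IsProbabilityMeasure μ] (T : Ω → Ω),
    MeasurePreserving T μ μ → ∀ f : Ω → ℂ, MemLp f 2 μ →
      (∀ ε : ℝ, 0 < ε → ∃ g : Ω → ℂ, MemLp g 2 μ ∧
        (∫ x, ‖f x - g x‖ ^ 2 ∂μ) < ε ∧
        ∀ ν, IsSpec μ T g ν → ν.MutuallySingular volume) →
      ∀ ν, IsSpec μ T f ν → ν.MutuallySingular volume

/-- Module C2. -/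
def C2_stmt : Prop :=
  ∀ (d : ℕ) (μ : Measure (ℤ → Fin d)), IsProbabilityMeasure μ →
    MeasurePreserving (sh (d := d)) μ μ →
    ∀ f : (ℤ → Fin d) → ℂ, MemLp f 2 μ → ∀ ε : ℝ, 0 < ε →
      ∃ (w : ℕ) (G : List (Fin d) → ℂ) (g : (ℤ → Fin d) → ℂ),
        MemLp g 2 μ ∧ (∫ x, ‖f x - g x‖ ^ 2 ∂μ) < ε ∧
        ∀ ν, IsSpec μ sh g ν ↔
          IsSpec μ sh (fun x => G (List.ofFn (fun j : Fin w => x ((j : ℕ) : ℤ)))) ν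

/-- Module E1. -/
def E1_stmt : Prop :=
  ∀ (d : ℕ) (M : Matrix (Fin d) (Fin d) ℤ) (z : Fin d → ℚ), Neutral M z →
    ∀ᵐ ω : ℝ, ∀ ε : ℝ, 0 < ε → ∀ K : ℕ, ∃ k : ℕ, K ≤ k ∧
      ∀ a, ‖(((((ell M k a : ℤ) : ℝ) - ((z a : ℚ) : ℝ)) * ω : ℝ) : AddCircle (1 : ℝ))‖ < ε

/-- Module E2. -/
def E2_stmt : Prop :=
  ∀ (d : ℕ) (M : Matrix (Fin d) (Fin d) ℤ),
    (∀ z : ℂ, (M.map (Int.cast : ℤ → ℂ)).charpoly.IsRoot z → ∀ p : ℕ, 0 < p → z ^ p ≠ 1) →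
      Neutral M 0

/-- Module G. -/
def G_stmt : Prop :=
  ∀ (d : ℕ) (A : Matrix (Fin d) (Fin d) ℂ) (v : Fin d → ℂ) (s c C : ℝ), 0 < s → 0 < c →
    (∀ n : ℕ, c * s ^ n ≤ ‖(A ^ n).mulVec v‖ ∧ ‖(A ^ n).mulVec v‖ ≤ C * s ^ n) →
      ∃ z : ℂ, A.charpoly.IsRoot z ∧ ‖z‖ = s

/-- Module H. -/
def H_stmt : Prop :=
  ∀ (d : ℕ) (M : Matrix (Fin d) (Fin d) ℤ) (θ : ℝ),
    (∀ i j, 0 ≤ M i j) → (∀ j, ∃ i, 0 < M i j) →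
    (∃ k : ℕ, ∀ i j, 0 < (M ^ k) i j) →
    (M.map (Int.cast : ℤ → ℂ)).charpoly.IsRoot (θ : ℂ) →
    (∀ z : ℂ, (M.map (Int.cast : ℤ → ℂ)).charpoly.IsRoot z → ‖z‖ ≤ θ) →
      1 ≤ θ ∧ ∃ c : ℝ, 0 < c ∧ ∃ C : ℝ, ∀ (k : ℕ) (a : Fin d),
        c * θ ^ k ≤ ((ell M k a : ℤ) : ℝ) ∧ ((ell M k a : ℤ) : ℝ) ≤ C * θ ^ k

end Pool.Agent.Helper97.Sub
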