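import Pool.Agent.Helper97.Sub.Lang

set_option autoImplicit false

namespace Pool.Agent.Helper97.Sub

open Finset

variable {d : ℕ}

theorem pair_sum_le (ℓ : ℕ) (g : ℕ → ℕ → ℝ) (hg : ∀ u v, 0 ≤ g u v) (hs : ∀ u v, g u v = g v u) :
    ∑ u ∈ range ℓ, ∑ v ∈ range ℓ, g u v ≤
      2 * ∑ N ∈ range ℓ, ∑ u ∈ range (ℓ - N), g u (u + N) := by
  have h1 : ∀ u ∈ range ℓ, ∑ v ∈ range ℓ, g u v ≤ ∑ v ∈ Ico u ℓ, g u v + ∑ v ∈ range (u + 1), g u v := by
    intro u hu
    rw [mem_range] at hu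
    rw [← sum_range_add_sum_Ico (fun v => g u v) hu.le, add_comm]
    gcongr
    exact fun i _ _ => hg _ _
    omega
  have h2 : ∑ u ∈ range ℓ, ∑ v ∈ Ico u ℓ, g u v =
      ∑ N ∈ range ℓ, ∑ u ∈ range (ℓ - N), g u (u + N) := by
    have : ∀ u ∈ range ℓ, ∑ v ∈ Ico u ℓ, g u v = ∑ N ∈ range (ℓ - u), g u (u + N) := by
      intro u _
      rw [sum_Ico_eq_sum_range]
    rw [sum_congr rfl this]
    apply sum_comm'
    intro x y
    simp only [mem_range]
    omega
  have h3 : ∑ u ∈ range ℓ, ∑ v ∈ range (u + 1), g u v = ∑ u ∈ range ℓ, ∑ v ∈ Ico u ℓ, g u v := by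
    have : ∑ u ∈ range ℓ, ∑ v ∈ range (u + 1), g u v = ∑ v ∈ range ℓ, ∑ u ∈ Ico v ℓ, g u v := by
      apply sum_comm'
      intro x y
      simp only [mem_range, mem_Ico]
      omega
    rw [this]
    exact sum_congr rfl fun u _ => sum_congr rfl fun v _ => hs _ _
  calc ∑ u ∈ range ℓ, ∑ v ∈ range ℓ, g u v
      ≤ ∑ u ∈ range ℓ, (∑ v ∈ Ico u ℓ, g u v + ∑ v ∈ range (u + 1), g u v) := sum_le_sum h1
    _ = 2 * ∑ N ∈ range ℓ, ∑ u ∈ range (ℓ - N), g u (u + N) := by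
        rw [sum_add_distrib, h3, h2]; ring

theorem mean_sub_sq_le (F : ℕ → ℂ) (S S' : Finset ℕ) (hS : S.Nonempty) (hS' : S'.Nonempty) :
    ‖(∑ u ∈ S, F u) / (#S : ℂ) - (∑ u ∈ S', F u) / (#S' : ℂ)‖ ^ 2 ≤
      (∑ u ∈ S, ∑ v ∈ S', ‖F u - F v‖ ^ 2) / ((#S : ℝ) * #S') := by
  have hc : (0:ℝ) < #S := by exact_mod_cast hS.card_pos
  have hc' : (0:ℝ) < #S' := by exact_mod_cast hS'.card_pos
  have hcC : (#S : ℂ) ≠ 0 := by exact_mod_cast hc.ne'
  have hcC' : (#S' : ℂ) ≠ 0 := by exact_mod_cast hc'.ne'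
  have e : (∑ u ∈ S, F u) / (#S : ℂ) - (∑ u ∈ S', F u) / (#S' : ℂ) =
      (∑ p ∈ S ×ˢ S', (F p.1 - F p.2)) / ((#S : ℂ) * #S') := by
    rw [sum_product]
    simp only [sum_sub_distrib, sum_const, nsmul_eq_mul]
    rw [← mul_sum]
    field_simp
  rw [e, norm_div, div_pow, norm_mul, Complex.norm_natCast, Complex.norm_natCast]
  have h1 : ‖∑ p ∈ S ×ˢ S', (F p.1 - F p.2)‖ ^ 2 ≤
      ((#S : ℝ) * #S') * ∑ p ∈ S ×ˢ S', ‖F p.1 - F p.2‖ ^ 2 := by
    calc ‖∑ p ∈ S ×ˢ S', (F p.1 - F p.2)‖ ^ 2 ≤ (∑ p ∈ S ×ˢ S', ‖F p.1 - F p.2‖) ^ 2 := by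
          gcongr; exact norm_sum_le _ _
      _ ≤ (#(S ×ˢ S') : ℝ) * ∑ p ∈ S ×ˢ S', ‖F p.1 - F p.2‖ ^ 2 := sq_sum_le_card_mul_sum_sq
      _ = _ := by rw [card_product]; push_cast; ring
  rw [← sum_product']
  rw [div_le_div_iff₀ (by positivity) (by positivity)]
  calc ‖∑ p ∈ S ×ˢ S', (F p.1 - F p.2)‖ ^ 2 * ((#S : ℝ) * #S')
      ≤ (((#S : ℝ) * #S') * ∑ p ∈ S ×ˢ S', ‖F p.1 - F p.2‖ ^ 2) * ((#S : ℝ) * #S') := by gcongr
    _ = _ := by ring

/-- The standing data and the energy bound. -/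
structure Dat (σ : Fin d → List (Fin d)) (G : List (Fin d) → ℂ) (w : ℕ) (z : ℂ) (B r c₀ C₀ K : ℝ) :
    Prop where
  hz : ‖z‖ = 1
  hB : 0 ≤ B
  hG : ∀ v : List (Fin d), v.length = w → ‖G v‖ ≤ B
  hr : 1 < r
  hc₀ : 0 < c₀
  hK : 0 ≤ K
  low : ∀ k a, c₀ * r ^ (2 * k) ≤ ((T σ k a).length : ℝ)
  up : ∀ k a, ((T σ k a).length : ℝ) ≤ C₀ * r ^ (2 * k)
  en : ∀ k a N, 1 ≤ N → N ≤ (T σ k a).length →
    ∑ u ∈ range ((T σ k a).length + 1 - N),
      ‖PS G w z (T σ k a) (u + N) - PS G w z (T σ k a) u‖ ^ 2 ≤ K * r ^ (2 * k) * N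

variable {σ : Fin d → List (Fin d)} {G : List (Fin d) → ℂ} {w : ℕ} {z : ℂ} {B r c₀ C₀ K : ℝ}

theorem Dat.len_pos (h : Dat σ G w z B r c₀ C₀ K) (k : ℕ) (a : Fin d) :
    0 < (T σ k a).length := by
  have h1 := h.low k a
  have h2 : 0 < c₀ * r ^ (2 * k) := mul_pos h.hc₀ (pow_pos (by linarith [h.hr]) _)
  exact_mod_cast h2.trans_le h1

theorem Dat.pair (h : Dat σ G w z B r c₀ C₀ K) (k : ℕ) (a : Fin d) :
    ∑ u ∈ range (T σ k a).length, ∑ v ∈ range (T σ k a).length,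
      ‖PS G w z (T σ k a) u - PS G w z (T σ k a) v‖ ^ 2 ≤
      2 * K * r ^ (2 * k) * ((T σ k a).length : ℝ) ^ 2 := by
  set ℓ := (T σ k a).length with hℓ
  have hr0 : 0 < r := by linarith [h.hr]
  have h1 := pair_sum_le ℓ (fun u v => ‖PS G w z (T σ k a) u - PS G w z (T σ k a) v‖ ^ 2)
    (fun u v => by positivity) (fun u v => by rw [norm_sub_rev])
  refine h1.trans ?_
  have h2 : ∀ N ∈ range ℓ, ∑ u ∈ range (ℓ - N),
      ‖PS G w z (T σ k a) u - PS G w z (T σ k a) (u + N)‖ ^ 2 ≤ K * r ^ (2 * k) * ℓ := by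
    intro N hN
    rw [mem_range] at hN
    rcases Nat.eq_zero_or_pos N with h0 | h0
    · subst h0
      simp only [add_zero, sub_self, norm_zero]
      simp only [ne_eq, OfNat.ofNat_ne_zero, not_false_eq_true, zero_pow, sum_const_zero]
      have := h.hK
      positivity
    · have h3 := h.en k a N h0 (by omega)
      rw [← hℓ] at h3
      calc ∑ u ∈ range (ℓ - N), ‖PS G w z (T σ k a) u - PS G w z (T σ k a) (u + N)‖ ^ 2
          ≤ ∑ u ∈ range (ℓ + 1 - N), ‖PS G w z (T σ k a) u - PS G w z (T σ k a) (u + N)‖ ^ 2 := by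
            apply sum_le_sum_of_subset_of_nonneg
            · intro x hx
              rw [mem_range] at hx ⊢
              omega
            · intros; positivity
        _ = ∑ u ∈ range (ℓ + 1 - N), ‖PS G w z (T σ k a) (u + N) - PS G w z (T σ k a) u‖ ^ 2 :=
            sum_congr rfl fun u _ => by rw [norm_sub_rev]
        _ ≤ K * r ^ (2 * k) * N := h3
        _ ≤ K * r ^ (2 * k) * ℓ := by
            have := h.hK
            gcongr
  calc 2 * ∑ N ∈ range ℓ, ∑ u ∈ range (ℓ - N),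
        ‖PS G w z (T σ k a) u - PS G w z (T σ k a) (u + N)‖ ^ 2
      ≤ 2 * ∑ N ∈ range ℓ, K * r ^ (2 * k) * ℓ := by gcongr with N hN; exact h2 N hN
    _ = 2 * K * r ^ (2 * k) * (ℓ : ℝ) ^ 2 := by
        rw [sum_const, card_range, nsmul_eq_mul]; ring

/-- mean over a subtile versus mean over the tile -/
theorem Dat.mean_step (h : Dat σ G w z B r c₀ C₀ K) (k : ℕ) (a c : Fin d) (t : ℕ)
    (ht : t + (T σ k c).length ≤ (T σ (k + 1) a).length) :
    ‖(∑ u ∈ Ico t (t + (T σ k c).length), PS G w z (T σ (k + 1) a) u) / ((T σ k c).length : ℂ) -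
      (∑ u ∈ range (T σ (k + 1) a).length, PS G w z (T σ (k + 1) a) u) /
        ((T σ (k + 1) a).length : ℂ)‖ ≤ (2 * K * C₀ * r ^ 2 / c₀ + 1) * r ^ (k + 1) := by
  set W := T σ (k + 1) a with hW
  set ℓ := W.length with hℓ
  set m := (T σ k c).length with hm
  have hr0 : 0 < r := by linarith [h.hr]
  have hm0 : 0 < m := h.len_pos k c
  have hℓ0 : 0 < ℓ := h.len_pos (k + 1) a
  have hK := h.hK
  have hc₀ := h.hc₀
  have h1 := mean_sub_sq_le (PS G w z W) (Ico t (t + m)) (range ℓ)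
    ⟨t, by rw [mem_Ico]; omega⟩ ⟨0, by rw [mem_range]; omega⟩
  rw [Nat.card_Ico, card_range, Nat.add_sub_cancel_left] at h1
  have h2 : ∑ u ∈ Ico t (t + m), ∑ v ∈ range ℓ, ‖PS G w z W u - PS G w z W v‖ ^ 2 ≤
      2 * K * r ^ (2 * (k + 1)) * (ℓ : ℝ) ^ 2 := by
    have hp := h.pair (k + 1) a
    rw [← hW, ← hℓ] at hp
    refine le_trans ?_ hp
    apply sum_le_sum_of_subset_of_nonneg
    · intro x hx
      rw [mem_Ico] at hx
      rw [mem_range]
      omega
    · intros; positivity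
  have hmR : (0:ℝ) < m := by exact_mod_cast hm0
  have hℓR : (0:ℝ) < ℓ := by exact_mod_cast hℓ0
  have hl := h.low k c
  have hu := h.up (k + 1) a
  have h3 : (∑ u ∈ Ico t (t + m), ∑ v ∈ range ℓ, ‖PS G w z W u - PS G w z W v‖ ^ 2) /
      ((m : ℝ) * ℓ) ≤ (2 * K * C₀ * r ^ 2 / c₀) * r ^ (2 * (k + 1)) := by
    rw [div_le_iff₀ (by positivity)]
    refine h2.trans ?_
    have h4 : (ℓ : ℝ) ≤ C₀ * r ^ 2 / c₀ * m := by
      calc (ℓ : ℝ) ≤ C₀ * r ^ (2 * (k + 1)) := hu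
        _ = C₀ * r ^ 2 / c₀ * (c₀ * r ^ (2 * k)) := by field_simp; ring
        _ ≤ C₀ * r ^ 2 / c₀ * m := by
            have hC : 0 ≤ C₀ := by
              by_contra hneg
              push Not at hneg
              have : C₀ * r ^ (2 * (k + 1)) < 0 := mul_neg_of_neg_of_pos hneg (by positivity)
              linarith
            gcongr
    calc 2 * K * r ^ (2 * (k + 1)) * (ℓ : ℝ) ^ 2 = 2 * K * r ^ (2 * (k + 1)) * ℓ * ℓ := by ring
      _ ≤ 2 * K * r ^ (2 * (k + 1)) * ℓ * (C₀ * r ^ 2 / c₀ * m) := by gcongr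
      _ = _ := by ring
  have hC0 : 0 ≤ C₀ := by
    have h5 := h.up 0 a
    have h6 : (0:ℝ) ≤ ((T σ 0 a).length : ℝ) := Nat.cast_nonneg _
    simp only [mul_zero, pow_zero, mul_one] at h5
    linarith
  set κ := 2 * K * C₀ * r ^ 2 / c₀ with hκ
  have hκ0 : 0 ≤ κ := by positivity
  have h5 : ‖(∑ u ∈ Ico t (t + m), PS G w z W u) / (m : ℂ) -
      (∑ u ∈ range ℓ, PS G w z W u) / (ℓ : ℂ)‖ ^ 2 ≤ ((κ + 1) * r ^ (k + 1)) ^ 2 := by
    refine (h1.trans h3).trans ?_
    rw [mul_pow, ← pow_mul, mul_comm (k + 1) 2]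
    gcongr
    nlinarith
  exact (sq_le_sq₀ (norm_nonneg _) (by positivity)).1 h5

/-- mean of the partial sums over a tile -/
noncomputable def Fb (G : List (Fin d) → ℂ) (w : ℕ) (z : ℂ) (W : List (Fin d)) : ℂ :=
  (∑ u ∈ range W.length, PS G w z W u) / (W.length : ℂ)

theorem Dat.left_step (h : Dat σ G w z B r c₀ C₀ K) (k : ℕ) (a c : Fin d) (V : List (Fin d))
    (hV : T σ (k + 1) a = T σ k c ++ V) :
    ‖Fb G w z (T σ (k + 1) a)‖ ≤ ‖Fb G w z (T σ k c)‖ + w * B +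
      (2 * K * C₀ * r ^ 2 / c₀ + 1) * r ^ (k + 1) := by
  have hm0 : 0 < (T σ k c).length := h.len_pos k c
  have hmR : (0:ℝ) < (T σ k c).length := by exact_mod_cast hm0
  have h1 := h.mean_step k a c 0 (by rw [hV, List.length_append]; omega)
  rw [zero_add, ← range_eq_Ico] at h1
  have h2 : ‖(∑ u ∈ range (T σ k c).length, PS G w z (T σ (k + 1) a) u) /
      ((T σ k c).length : ℂ) - Fb G w z (T σ k c)‖ ≤ w * B := by
    rw [Fb, ← sub_div, ← sum_sub_distrib, norm_div, Complex.norm_natCast, div_le_iff₀ hmR]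
    refine (norm_sum_le_of_le (f := fun u => PS G w z (T σ (k + 1) a) u - PS G w z (T σ k c) u) _
      (n := fun _ => (w * B : ℝ)) ?_).trans ?_
    · intro u hu
      rw [mem_range] at hu
      rw [hV]
      exact PS_append_left h.hz h.hB h.hG _ _ _ hu.le
    · rw [sum_const, card_range, nsmul_eq_mul, mul_comm]
  have e : Fb G w z (T σ (k + 1) a) = Fb G w z (T σ k c) +
      ((∑ u ∈ range (T σ k c).length, PS G w z (T σ (k + 1) a) u) /
      ((T σ k c).length : ℂ) - Fb G w z (T σ k c)) -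
      ((∑ u ∈ range (T σ k c).length, PS G w z (T σ (k + 1) a) u) / ((T σ k c).length : ℂ) -
      Fb G w z (T σ (k + 1) a)) := by ring
  rw [e]
  refine (norm_sub_le _ _).trans (add_le_add ((norm_add_le _ _).trans (add_le_add le_rfl h2)) ?_)
  exact h1

theorem Dat.right_step (h : Dat σ G w z B r c₀ C₀ K) (k : ℕ) (a c : Fin d) (U : List (Fin d))
    (hU : T σ (k + 1) a = U ++ T σ k c) :
    ‖TS G w z (T σ (k + 1) a) - Fb G w z (T σ (k + 1) a)‖ ≤
      ‖TS G w z (T σ k c) - Fb G w z (T σ k c)‖ +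
      (2 * K * C₀ * r ^ 2 / c₀ + 1) * r ^ (k + 1) := by
  have hm0 : 0 < (T σ k c).length := h.len_pos k c
  have hmR : (0:ℝ) < (T σ k c).length := by exact_mod_cast hm0
  have hmC : ((T σ k c).length : ℂ) ≠ 0 := by exact_mod_cast hm0.ne'
  have h1 := h.mean_step k a c U.length (by rw [hU, List.length_append])
  have h2 : (∑ u ∈ Ico U.length (U.length + (T σ k c).length), PS G w z (T σ (k + 1) a) u) /
      ((T σ k c).length : ℂ) = TS G w z (T σ (k + 1) a) -
        z ^ U.length * (TS G w z (T σ k c) - Fb G w z (T σ k c)) := by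
    rw [sum_Ico_eq_sum_range, Nat.add_sub_cancel_left]
    have h3 : ∀ u ∈ range (T σ k c).length, PS G w z (T σ (k + 1) a) (U.length + u) =
        PS G w z (U ++ T σ k c) U.length + z ^ U.length * PS G w z (T σ k c) u := by
      intro u _
      rw [hU, PS_append_right]
    rw [sum_congr rfl h3, sum_add_distrib, sum_const, card_range, nsmul_eq_mul, ← mul_sum]
    have h4 : TS G w z (T σ (k + 1) a) = PS G w z (U ++ T σ k c) U.length +
        z ^ U.length * TS G w z (T σ k c) := by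
      rw [hU, TS, List.length_append, PS_append_right, TS]
    rw [h4, Fb]
    field_simp
    ring
  have e : TS G w z (T σ (k + 1) a) - Fb G w z (T σ (k + 1) a) =
      z ^ U.length * (TS G w z (T σ k c) - Fb G w z (T σ k c)) +
      ((∑ u ∈ Ico U.length (U.length + (T σ k c).length), PS G w z (T σ (k + 1) a) u) /
      ((T σ k c).length : ℂ) - Fb G w z (T σ (k + 1) a)) := by
    rw [h2]; ring
  rw [e]
  refine (norm_add_le _ _).trans (add_le_add ?_ h1)
  rw [norm_mul, norm_pow, h.hz, one_pow, one_mul]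

theorem geo_bound (x : ℕ → ℝ) (r A b : ℝ) (hr : 1 < r) (hb : 0 ≤ b) (hA : 0 ≤ A) (h0 : x 0 ≤ A)
    (hx : ∀ k, x (k + 1) ≤ x k + b * r ^ (k + 1)) (k : ℕ) :
    x k ≤ (A + b * r / (r - 1)) * r ^ k := by
  have hr0 : 0 < r := by linarith
  have hr1 : 0 < r - 1 := by linarith
  induction k with
  | zero =>
    rw [pow_zero, mul_one]
    have : 0 ≤ b * r / (r - 1) := by positivity
    linarith
  | succ k ih =>
    refine (hx k).trans ?_
    have h1 : (A + b * r / (r - 1)) * r ^ (k + 1) - (A + b * r / (r - 1)) * r ^ k =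
        A * (r - 1) * r ^ k + b * r ^ (k + 1) := by
      field_simp; ring
    have h2 : 0 ≤ A * (r - 1) * r ^ k := by positivity
    linarith

/-- Upper bound for the tile sums. -/
theorem Dat.tile_upper (hσ : ∀ a, σ a ≠ []) (h : Dat σ G w z B r c₀ C₀ K) :
    ∃ A : ℝ, 0 ≤ A ∧ ∀ k a, ‖TS G w z (T σ k a)‖ ≤ A * r ^ k := by
  have hr := h.hr
  have hr0 : 0 < r := by linarith
  have hB := h.hB
  have hK := h.hK
  have hc₀ := h.hc₀
  rcases Nat.eq_zero_or_pos d with hd | hd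
  · refine ⟨0, le_rfl, fun k a => ?_⟩
    subst hd
    exact a.elim0
  have : Nonempty (Fin d) := ⟨⟨0, hd⟩⟩
  have hC0 : 0 ≤ C₀ := by
    have h5 := h.up 0 ⟨0, hd⟩
    have h6 : (0:ℝ) ≤ ((T σ 0 ⟨0, hd⟩).length : ℝ) := Nat.cast_nonneg _
    simp only [mul_zero, pow_zero, mul_one] at h5
    linarith
  set κ := 2 * K * C₀ * r ^ 2 / c₀ + 1 with hκ
  have hκ0 : 0 ≤ κ := by positivity
  -- left
  have hleft : ∀ k a, ‖Fb G w z (T σ k a)‖ ≤ (0 + (w * B + κ) * r / (r - 1)) * r ^ k := by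
    intro k a
    have hx := geo_bound (fun k => ⨆ a, ‖Fb G w z (T σ k a)‖) r 0 (w * B + κ) hr (by positivity)
      le_rfl ?_ ?_ k
    · exact (le_ciSup (Set.finite_range fun a => ‖Fb G w z (T σ k a)‖).bddAbove a).trans hx
    · apply ciSup_le
      intro a
      simp [Fb, T_zero, PS]
    · intro k
      apply ciSup_le
      intro a
      obtain ⟨c, v, hcv⟩ := List.exists_cons_of_ne_nil (hσ a)
      have h1 := h.left_step k a c (v.flatMap (T σ k)) (by rw [T_succ, hcv, List.flatMap_cons])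
      have h2 := le_ciSup (Set.finite_range fun a => ‖Fb G w z (T σ k a)‖).bddAbove c
      have h3 : (1:ℝ) ≤ r ^ (k + 1) := one_le_pow₀ hr.le
      have h4 : (w:ℝ) * B ≤ w * B * r ^ (k + 1) := le_mul_of_one_le_right (by positivity) h3
      calc ‖Fb G w z (T σ (k + 1) a)‖ ≤ _ := h1
        _ ≤ (⨆ a, ‖Fb G w z (T σ k a)‖) + (w * B + κ) * r ^ (k + 1) := by
          rw [add_mul]; linarith
  have hright : ∀ k a, ‖TS G w z (T σ k a) - Fb G w z (T σ k a)‖ ≤
      (B + κ * r / (r - 1)) * r ^ k := by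
    intro k a
    have hx := geo_bound (fun k => ⨆ a, ‖TS G w z (T σ k a) - Fb G w z (T σ k a)‖) r B κ hr hκ0
      hB ?_ ?_ k
    · exact (le_ciSup (Set.finite_range
        fun a => ‖TS G w z (T σ k a) - Fb G w z (T σ k a)‖).bddAbove a).trans hx
    · apply ciSup_le
      intro a
      have h0 : Fb G w z (T σ 0 a) = 0 := by simp [Fb, T_zero, PS]
      rw [h0, sub_zero, T_zero, TS, PS]
      simp only [List.length_singleton, range_one, sum_singleton, zero_add, List.drop_zero,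
        pow_zero, mul_one]
      split_ifs with hw
      · apply h.hG
        rw [List.length_take, List.length_singleton]; omega
      · rw [norm_zero]; exact hB
    · intro k
      apply ciSup_le
      intro a
      obtain ⟨v, c, hcv⟩ : ∃ v c, σ a = v ++ [c] :=
        ⟨(σ a).dropLast, (σ a).getLast (hσ a), (List.dropLast_append_getLast (hσ a)).symm⟩
      have h1 := h.right_step k a c (v.flatMap (T σ k)) (by
        rw [T_succ, hcv, List.flatMap_append]; simp)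
      have h2 := le_ciSup (Set.finite_range
        fun a => ‖TS G w z (T σ k a) - Fb G w z (T σ k a)‖).bddAbove c
      linarith
  refine ⟨(0 + (w * B + κ) * r / (r - 1)) + (B + κ * r / (r - 1)), ?_, ?_⟩
  · have : 0 < r - 1 := by linarith
    positivity
  · intro k a
    have h1 := hleft k a
    have h2 := hright k a
    have e : TS G w z (T σ k a) = Fb G w z (T σ k a) +
      (TS G w z (T σ k a) - Fb G w z (T σ k a)) := by ring
    rw [e, add_mul]
    exact (norm_add_le _ _).trans (add_le_add h1 h2)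

end Pool.Agent.Helper97.Sub
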