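import Pool.Agent.Helper97.Sub.An4

set_option autoImplicit false

namespace Pool.Agent.Helper97.Sub

open Finset Polynomial MeasureTheory
open scoped ComplexConjugate

variable {d : ℕ}

/-- `z` is an eigenvalue of the integer matrix `M`. -/
def IsEig (M : Matrix (Fin d) (Fin d) ℤ) (z : ℂ) : Prop :=
  (M.map (Int.cast : ℤ → ℂ)).charpoly.IsRoot z

/-- `M` has at most one eigenvalue which is a root of unity, and it is algebraically simple. -/
def AtMostOneRU (M : Matrix (Fin d) (Fin d) ℤ) : Prop :=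
  ∀ ε ε' : ℂ, IsEig M ε → RU ε → IsEig M ε' → RU ε' →
    ε' = ε ∧ (M.map (Int.cast : ℤ → ℂ)).charpoly.rootMultiplicity ε = 1

/-- No two eigenvalues `l`, `m` that are not roots of unity satisfy `l m = θ` or `l m = ε θ` for
an eigenvalue `ε` that is a root of unity (no condition if there is no such `ε`). -/
def NoPair (M : Matrix (Fin d) (Fin d) ℤ) (θ : ℝ) : Prop :=
  ∀ ε l m : ℂ, IsEig M ε → RU ε → IsEig M l → ¬ RU l → IsEig M m → ¬ RU m →
    l * m ≠ θ ∧ l * m ≠ ε * θ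

/-- No integer vector `u` whose images under the powers of `M ^ p` have constant nonzero sum. -/
def NoNeutral (M : Matrix (Fin d) (Fin d) ℤ) : Prop :=
  ∀ p : ℕ, 0 < p → ∀ u : Fin d → ℤ,
    (∀ n : ℕ, ∑ a, ((M ^ (p * n)).mulVec u) a = ∑ a, u a) → ∑ a, u a = 0

variable {σ : Fin d → List (Fin d)} {M : Matrix (Fin d) (Fin d) ℤ} {θ : ℝ} {X : Set (ℤ → Fin d)}

theorem not_RU_real {θ : ℝ} (h : 1 < θ) : ¬ RU (θ : ℂ) := by
  rintro ⟨k, hk, hk2⟩
  have h1 : θ ^ k = 1 := by exact_mod_cast hk2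
  have h2 : 1 < θ ^ k := one_lt_pow₀ h (by omega)
  linarith

theorem RU_norm {z : ℂ} (h : RU z) : ‖z‖ = 1 := by
  obtain ⟨k, hk, hk2⟩ := h
  exact Complex.norm_eq_one_of_pow_eq_one hk2 (by omega)

theorem Sys.pairs (h : Sys σ M θ X)
    (hsq : ∀ z : ℂ, (M.map (Int.cast : ℤ → ℂ)).charpoly.IsRoot z → ‖z‖ ^ 2 ≠ θ)
    (h1 : AtMostOneRU M) (h2 : NoPair M θ)
    (μ : Measure (ℤ → Fin d)) [IsProbabilityMeasure μ]
    (hX : μ Xᶜ = 0) (hμ : MeasurePreserving (sh (d := d)) μ μ)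
    (f : (ℤ → Fin d) → ℂ) (hf : MemLp f 2 μ) :
    ∃ ν, IsSpec μ sh f ν ∧ ν.MutuallySingular volume := by
  by_cases hex : ∃ ε : ℂ, IsEig M ε ∧ RU ε
  · obtain ⟨ε, hε1, hε2⟩ := hex
    obtain ⟨e, Q, he, heε, hS⟩ := exists_simp M ε hε1 hε2 (h1 ε ε hε1 hε2 hε1 hε2).2
      (fun z hz hz2 => (h1 ε z hε1 hε2 hz hz2).1)
    have hRU : ∀ z : ℂ, (M.map (Int.cast : ℤ → ℂ)).charpoly.IsRoot z → RU z → z = (e : ℂ) := by
      intro z hz hz2
      rw [heε]
      exact (h1 ε z hε1 hε2 hz hz2).1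
    rcases he with rfl | rfl
    · have hs := hS 1 one_pos (by norm_num)
      have h' : Sys σ (M ^ 1) (θ ^ 1) X := by rwa [pow_one, pow_one]
      refine h'.simp one_pos (h.one_lt hsq) hs hsq ?_ hRU μ hX hμ f hf
      intro l m hl hm hl2 hm2
      rw [pow_one, pow_one]
      exact (h2 ε l m hε1 hε2 hl hl2 hm hm2).1
    · have hs := hS 2 two_pos (by norm_num)
      refine h.sq.simp two_pos (h.one_lt hsq) hs hsq ?_ hRU μ hX hμ f hf
      intro l m hl hm hl2 hm2 h3
      obtain ⟨h4, h5⟩ := h2 ε l m hε1 hε2 hl hl2 hm hm2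
      rw [← heε] at h5
      rcases sq_eq_sq_iff_eq_or_eq_neg.1 h3 with h6 | h6
      · exact h4 h6
      · apply h5
        rw [h6]
        push_cast
        ring
  · refine h.nonneutral hsq ?_ μ hX hμ f hf
    have hE := E2 d M (fun z hz p hp hzp => hex ⟨z, hz, p, hp, hzp⟩)
    intro p hp u hu
    have h3 := hE.2 p hp u hu
    simp only [Pi.zero_apply, zero_mul, sum_const_zero] at h3
    exact_mod_cast h3

theorem noPair_of_lt (hθ : 1 < θ)
    (hlt : ∀ z : ℂ, IsEig M z → z ≠ (θ : ℂ) → ‖z‖ ^ 2 < θ) : NoPair M θ := by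
  intro ε l m hε1 hε2 hl hl2 hm hm2
  have hθ0 : (0:ℝ) < θ := by linarith
  have hθc : (θ : ℂ) ≠ 0 := by
    have : θ ≠ 0 := by linarith
    exact_mod_cast this
  have hRU1 : RU (1 : ℂ) := ⟨1, one_pos, by simp⟩
  have key : ∀ δ : ℂ, RU δ → l * m ≠ δ * θ := by
    intro δ hδ h3
    by_cases hlθ : l = (θ : ℂ)
    · rw [hlθ, mul_comm δ] at h3
      have := mul_left_cancel₀ hθc h3
      rw [this] at hm2
      exact hm2 hδ
    · by_cases hmθ : m = (θ : ℂ)
      · rw [hmθ] at h3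
        have := mul_right_cancel₀ hθc h3
        rw [this] at hl2
        exact hl2 hδ
      · have e1 := hlt l hl hlθ
        have e2 := hlt m hm hmθ
        have e3 : ‖l‖ * ‖m‖ = θ := by
          rw [← norm_mul, h3, norm_mul, RU_norm hδ, one_mul, Complex.norm_real, Real.norm_eq_abs,
            abs_of_pos hθ0]
        have e4 : ‖l‖ ^ 2 * ‖m‖ ^ 2 = θ ^ 2 := by rw [← mul_pow, e3]
        have e5 : ‖l‖ ^ 2 * ‖m‖ ^ 2 < θ * θ := by
          have h5 : 0 ≤ ‖m‖ ^ 2 := by positivity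
          have h6 : 0 ≤ ‖l‖ ^ 2 := by positivity
          nlinarith
        nlinarith
  exact ⟨by simpa using key 1 hRU1, key ε hε2⟩

theorem two_letters {M : Matrix (Fin 2) (Fin 2) ℤ} (hθ : 1 < θ) (hroot : IsEig M θ) :
    AtMostOneRU M ∧ NoPair M θ := by
  set χ := (M.map (Int.cast : ℤ → ℂ)).charpoly with hχ
  have hmonic : χ.Monic := Matrix.charpoly_monic _
  have hdeg : χ.natDegree = 2 := by
    rw [hχ, Matrix.charpoly_natDegree_eq_dim]; simp
  have hcard : χ.roots.card = 2 := by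
    rw [← hdeg]
    exact (splits_iff_card_roots.1 (IsAlgClosed.splits χ))
  have hmem : (θ : ℂ) ∈ χ.roots := (mem_roots hmonic.ne_zero).2 hroot
  obtain ⟨s, hs⟩ := Multiset.exists_cons_of_mem hmem
  have hs1 : s.card = 1 := by
    rw [hs, Multiset.card_cons] at hcard
    omega
  obtain ⟨l₂, rfl⟩ := Multiset.card_eq_one.1 hs1
  have hcases : ∀ z : ℂ, IsEig M z → z = θ ∨ z = l₂ := by
    intro z hz
    have h1 : z ∈ χ.roots := (mem_roots hmonic.ne_zero).2 hz
    rw [hs] at h1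
    simpa using h1
  have hθ0 : (0:ℝ) < θ := by linarith
  have hRUe : ∀ z : ℂ, IsEig M z → RU z → z = l₂ := by
    intro z hz hz2
    rcases hcases z hz with h1 | h1
    · rw [h1] at hz2
      exact absurd hz2 (not_RU_real hθ)
    · exact h1
  constructor
  · intro ε ε' hε1 hε2 hε1' hε2'
    have e1 := hRUe ε hε1 hε2
    have e2 := hRUe ε' hε1' hε2'
    refine ⟨by rw [e1, e2], ?_⟩
    rw [← count_roots, ← hχ, hs, e1]
    have hne : l₂ ≠ (θ : ℂ) := by
      intro h0
      rw [e1, h0] at hε2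
      exact not_RU_real hθ hε2
    rw [Multiset.count_cons_of_ne hne, Multiset.count_singleton_self]
  · intro ε l m hε1 hε2 hl hl2 hm hm2
    have e1 := hRUe ε hε1 hε2
    have hl3 : l = θ := by
      rcases hcases l hl with h1 | h1
      · exact h1
      · rw [h1, ← e1] at hl2
        exact absurd hε2 hl2
    have hm3 : m = θ := by
      rcases hcases m hm with h1 | h1
      · exact h1
      · rw [h1, ← e1] at hm2
        exact absurd hε2 hm2
    have hlt : θ < θ * θ := by nlinarith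
    have key : ∀ δ : ℂ, ‖δ‖ = 1 → l * m ≠ δ * θ := by
      intro δ hδ h3
      have := congrArg norm h3
      rw [hl3, hm3, norm_mul, norm_mul, hδ, Complex.norm_real, Real.norm_eq_abs,
        abs_of_pos hθ0] at this
      linarith
    exact ⟨by simpa using key 1 (by simp), key ε (RU_norm hε2)⟩

end Pool.Agent.Helper97.Sub
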