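import Pool.Agent.Helper97.Sub.Defs

set_option autoImplicit false

namespace Pool.Agent.Helper97.Sub

open Polynomial Filter Topology

variable {d : ℕ}

noncomputable def rprod (R : Multiset ℂ) : ℂ[X] := (R.map (fun l => X - C l)).prod

theorem rprod_cons (l : ℂ) (R : Multiset ℂ) : rprod (l ::ₘ R) = (X - C l) * rprod R := by
  simp [rprod]

theorem exists_bd (Q : Matrix (Fin d) (Fin d) ℂ) :
    ∃ K : ℝ, 0 ≤ K ∧ ∀ x : Fin d → ℂ, ‖Q.mulVec x‖ ≤ K * ‖x‖ := by
  let L : (Fin d → ℂ) →L[ℂ] (Fin d → ℂ) := LinearMap.toContinuousLinearMap (Matrix.mulVecLin Q)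
  exact ⟨‖L‖, norm_nonneg _, fun x => L.le_opNorm x⟩

theorem peel_small (A : Matrix (Fin d) (Fin d) ℂ) (s : ℝ) (hs : 0 < s) (R : Multiset ℂ) :
    (∀ l ∈ R, ‖l‖ < s) → ∀ v : Fin d → ℂ, (aeval A (rprod R)).mulVec v = 0 →
      ∃ ρ : ℝ, 0 < ρ ∧ ρ < s ∧ ∃ K : ℝ, 0 ≤ K ∧ ∀ n : ℕ, ‖(A ^ n).mulVec v‖ ≤ K * ρ ^ n := by
  induction R using Multiset.induction_on with
  | empty =>
    intro _ v hv
    have : v = 0 := by simpa [rprod] using hv
    subst this
    exact ⟨s / 2, by linarith, by linarith, 0, le_rfl, fun n => by simp⟩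
  | cons l R ih =>
    intro hR v hv
    have hl : ‖l‖ < s := hR l (by simp)
    have hR' : ∀ l ∈ R, ‖l‖ < s := fun m hm => hR m (by simp [hm])
    set u : Fin d → ℂ := A.mulVec v - l • v with hu
    have h1 : (aeval A (rprod R)).mulVec u = 0 := by
      rw [rprod_cons, mul_comm, map_mul] at hv
      rw [← Matrix.mulVec_mulVec] at hv
      have h2 : (aeval A (X - C l)).mulVec v = u := by
        rw [map_sub, aeval_X, aeval_C, Matrix.sub_mulVec, hu]
        congr 1
        rw [Algebra.algebraMap_eq_smul_one, Matrix.smul_mulVec, Matrix.one_mulVec]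
      rwa [h2] at hv
    obtain ⟨ρ', hρ'0, hρ's, K', hK'0, hK'⟩ := ih hR' u h1
    set ρ := (max ‖l‖ ρ' + s) / 2 with hρ
    have hm : max ‖l‖ ρ' < s := max_lt hl hρ's
    have h3 : ‖l‖ < ρ := by have := le_max_left ‖l‖ ρ'; linarith
    have h4 : ρ' < ρ := by have := le_max_right ‖l‖ ρ'; linarith
    have h5 : ρ < s := by linarith
    have hρ0 : 0 < ρ := hρ'0.trans h4
    refine ⟨ρ, hρ0, h5, max ‖v‖ (K' / (ρ - ‖l‖)), (norm_nonneg v).trans (le_max_left _ _), ?_⟩
    set Kk := max ‖v‖ (K' / (ρ - ‖l‖)) with hKk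
    have hd : 0 < ρ - ‖l‖ := by linarith
    have hKk1 : K' ≤ Kk * (ρ - ‖l‖) := by
      rw [← div_le_iff₀ hd]; exact le_max_right _ _
    have hKk0 : 0 ≤ Kk := (norm_nonneg v).trans (le_max_left _ _)
    intro n
    induction n with
    | zero =>
      rw [pow_zero, pow_zero, Matrix.one_mulVec, mul_one, hKk]
      exact le_max_left _ _
    | succ n ihn =>
      have e : (A ^ (n + 1)).mulVec v = l • (A ^ n).mulVec v + (A ^ n).mulVec u := by
        rw [hu, Matrix.mulVec_sub, Matrix.mulVec_smul, Matrix.mulVec_mulVec, ← pow_succ]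
        abel
      rw [e]
      refine (norm_add_le _ _).trans ?_
      rw [norm_smul]
      have h6 : ρ' ^ n ≤ ρ ^ n := pow_le_pow_left₀ hρ'0.le h4.le n
      have h7 := hK' n
      have h8 : (0:ℝ) ≤ ρ ^ n := by positivity
      calc ‖l‖ * ‖(A ^ n).mulVec v‖ + ‖(A ^ n).mulVec u‖
          ≤ ‖l‖ * (Kk * ρ ^ n) + K' * ρ ^ n := by
            apply add_le_add
            · gcongr
            · exact h7.trans (by gcongr)
        _ ≤ ‖l‖ * (Kk * ρ ^ n) + Kk * (ρ - ‖l‖) * ρ ^ n := by gcongr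
        _ = Kk * ρ ^ (n + 1) := by ring

theorem peel_big (A : Matrix (Fin d) (Fin d) ℂ) (s : ℝ) (hs : 0 < s) (R : Multiset ℂ) :
    (∀ l ∈ R, s < ‖l‖) → ∀ v : Fin d → ℂ, (aeval A (rprod R)).mulVec v = 0 →
      (∃ K : ℝ, ∀ n : ℕ, ‖(A ^ n).mulVec v‖ ≤ K * s ^ n) → v = 0 := by
  induction R using Multiset.induction_on with
  | empty =>
    intro _ v hv _
    simpa [rprod] using hv
  | cons l R ih =>
    intro hR v hv hK
    obtain ⟨K, hK⟩ := hK
    have hl : s < ‖l‖ := hR l (by simp)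
    have hR' : ∀ l ∈ R, s < ‖l‖ := fun m hm => hR m (by simp [hm])
    apply ih hR' v _ ⟨K, hK⟩
    set u := (aeval A (rprod R)).mulVec v with hu
    have h1 : A.mulVec u = l • u := by
      rw [rprod_cons, map_mul, ← Matrix.mulVec_mulVec, ← hu, map_sub, aeval_X, aeval_C,
        Matrix.sub_mulVec, Algebra.algebraMap_eq_smul_one, Matrix.smul_mulVec, Matrix.one_mulVec,
        sub_eq_zero] at hv
      exact hv
    have h2 : ∀ n : ℕ, (A ^ n).mulVec u = l ^ n • u := by
      intro n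
      induction n with
      | zero => simp
      | succ n ihn =>
        rw [pow_succ, ← Matrix.mulVec_mulVec, h1, Matrix.mulVec_smul, ihn, smul_smul, pow_succ,
          mul_comm]
    obtain ⟨Q, hQ0, hQ⟩ := exists_bd (aeval A (rprod R))
    have h3 : ∀ n : ℕ, ‖l‖ ^ n * ‖u‖ ≤ Q * K * s ^ n := by
      intro n
      have h4 : (A ^ n).mulVec u = (aeval A (rprod R)).mulVec ((A ^ n).mulVec v) := by
        rw [hu, Matrix.mulVec_mulVec, Matrix.mulVec_mulVec]
        congr 1
        have : A ^ n = aeval A (X ^ n : ℂ[X]) := by simp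
        rw [this, ← map_mul, ← map_mul, mul_comm]
      calc ‖l‖ ^ n * ‖u‖ = ‖(A ^ n).mulVec u‖ := by rw [h2, norm_smul, norm_pow]
        _ ≤ Q * ‖(A ^ n).mulVec v‖ := by rw [h4]; exact hQ _
        _ ≤ Q * (K * s ^ n) := by gcongr; exact hK n
        _ = _ := by ring
    by_contra hne
    have hun : 0 < ‖u‖ := norm_pos_iff.2 hne
    have hratio : 1 < ‖l‖ / s := by rw [one_lt_div hs]; exact hl
    have h5 : Tendsto (fun n : ℕ => (‖l‖ / s) ^ n) atTop atTop :=
      tendsto_pow_atTop_atTop_of_one_lt hratio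
    obtain ⟨n, hn⟩ := (h5.eventually_gt_atTop (Q * K / ‖u‖)).exists
    have h6 := h3 n
    rw [div_pow, div_lt_div_iff₀ hun (by positivity)] at hn
    linarith

theorem G : G_stmt := by
  intro d A v s c Cc hs hc hv
  by_contra hcon
  push Not at hcon
  set R := A.charpoly.roots with hR
  have hχ : A.charpoly = rprod R := by
    have h1 := (IsAlgClosed.splits A.charpoly).eq_prod_roots
    rw [(Matrix.charpoly_monic A).leadingCoeff, C_1, one_mul] at h1
    exact h1
  have hmem : ∀ l ∈ R, ‖l‖ ≠ s := by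
    intro l hl
    exact hcon l (isRoot_of_mem_roots hl)
  have hsplit : rprod R = rprod (R.filter fun l => ‖l‖ < s) * rprod (R.filter fun l => ¬ ‖l‖ < s) := by
    rw [rprod, rprod, rprod, ← Multiset.prod_add, ← Multiset.map_add, Multiset.filter_add_not]
  have h0 : (aeval A (rprod (R.filter fun l => ¬ ‖l‖ < s))).mulVec
      ((aeval A (rprod (R.filter fun l => ‖l‖ < s))).mulVec v) = 0 := by
    rw [Matrix.mulVec_mulVec, ← map_mul, mul_comm, ← hsplit, ← hχ, Matrix.aeval_self_charpoly,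
      Matrix.zero_mulVec]
  obtain ⟨Q, hQ0, hQ⟩ := exists_bd (aeval A (rprod (R.filter fun l => ‖l‖ < s)))
  have h1 : (aeval A (rprod (R.filter fun l => ‖l‖ < s))).mulVec v = 0 := by
    apply peel_big A s hs (R.filter fun l => ¬ ‖l‖ < s) _ _ h0
    · refine ⟨Q * Cc, fun n => ?_⟩
      have e : (A ^ n).mulVec ((aeval A (rprod (R.filter fun l => ‖l‖ < s))).mulVec v) =
          (aeval A (rprod (R.filter fun l => ‖l‖ < s))).mulVec ((A ^ n).mulVec v) := by
        rw [Matrix.mulVec_mulVec, Matrix.mulVec_mulVec]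
        congr 1
        have : A ^ n = aeval A (X ^ n : ℂ[X]) := by simp
        rw [this, ← map_mul, ← map_mul, mul_comm]
      rw [e]
      calc _ ≤ Q * ‖(A ^ n).mulVec v‖ := hQ _
        _ ≤ Q * (Cc * s ^ n) := by gcongr; exact (hv n).2
        _ = _ := by ring
    · intro l hl
      rw [Multiset.mem_filter] at hl
      have h2 := hmem l hl.1
      have h3 := hl.2
      push Not at h3
      exact lt_of_le_of_ne h3 (Ne.symm h2)
  obtain ⟨ρ, hρ0, hρs, K, hK0, hK⟩ := peel_small A s hs (R.filter fun l => ‖l‖ < s)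
    (fun l hl => (Multiset.mem_filter.1 hl).2) v h1
  have h2 : ∀ n : ℕ, c * s ^ n ≤ K * ρ ^ n := fun n => (hv n).1.trans (hK n)
  have h3 : Tendsto (fun n : ℕ => K * (ρ / s) ^ n) atTop (𝓝 (K * 0)) :=
    (tendsto_pow_atTop_nhds_zero_of_lt_one (by positivity) (by rw [div_lt_one hs]; exact hρs)).const_mul K
  rw [mul_zero] at h3
  obtain ⟨n, hn⟩ := (h3.eventually_lt_const hc).exists
  have h4 := h2 n
  rw [div_pow] at hn
  have h5 : K * ρ ^ n < c * s ^ n := by
    have hsn : (0:ℝ) < s ^ n := by positivity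
    calc K * ρ ^ n = K * (ρ ^ n / s ^ n) * s ^ n := by field_simp
      _ < c * s ^ n := by gcongr
  linarith

end Pool.Agent.Helper97.Sub
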