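import Pool.Agent.Helper97.Sub.Words

set_option autoImplicit false

namespace Pool.Agent.Helper97.Sub

open Finset

variable {d : ℕ}

/-- A prefix of a concatenation of tiles is full tiles followed by a prefix of a tile. -/
theorem pre_flatMap (τ : Fin d → List (Fin d)) (v p : List (Fin d)) (h : p <+: v.flatMap τ) :
    ∃ v' p', p = v'.flatMap τ ++ p' ∧ v' <+: v ∧ (p' = [] ∨ ∃ c ∈ v, p' <+: τ c) := by
  induction v generalizing p with
  | nil =>
    refine ⟨[], [], ?_, List.prefix_refl _, Or.inl rfl⟩
    simpa using h
  | cons c v ih =>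
    rw [List.flatMap_cons] at h
    by_cases hl : p.length ≤ (τ c).length
    · refine ⟨[], p, by simp, List.nil_prefix, Or.inr ⟨c, by simp, ?_⟩⟩
      exact List.prefix_of_prefix_length_le h (List.prefix_append _ _) hl
    · have h1 : τ c <+: p := List.prefix_of_prefix_length_le (List.prefix_append _ _) h (by omega)
      obtain ⟨q, rfl⟩ := h1
      rw [List.prefix_append_right_inj] at h
      obtain ⟨v', p', e, hv, hp⟩ := ih q h
      refine ⟨c :: v', p', by rw [e]; simp, ?_, ?_⟩
      · obtain ⟨t, ht⟩ := hv
        exact ⟨t, by rw [← ht]; simp⟩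
      · rcases hp with hp | ⟨c', hc', hp⟩
        · exact Or.inl hp
        · exact Or.inr ⟨c', by simp [hc'], hp⟩

/-- An infix of a concatenation of tiles: inside one tile, or a suffix of a tile, full tiles and
a prefix of a tile. -/
theorem inf_flatMap (τ : Fin d → List (Fin d)) (v W : List (Fin d)) (h : W <:+: v.flatMap τ) :
    (W = [] ∨ ∃ c ∈ v, W <:+: τ c) ∨
      ∃ s v' p, W = s ++ (v'.flatMap τ ++ p) ∧ (∃ c ∈ v, s <:+ τ c) ∧ v' <:+: v ∧
        (p = [] ∨ ∃ c ∈ v, p <+: τ c) := by
  induction v with
  | nil =>
    left; left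
    simpa using h
  | cons c v ih =>
    rw [List.flatMap_cons] at h
    obtain ⟨P, Q, e⟩ := h
    by_cases hl : (τ c).length ≤ P.length
    · -- the infix lives in the rest
      have e' : (P ++ W ++ Q).drop (τ c).length = v.flatMap τ := by rw [e]; simp
      have h' : W <:+: v.flatMap τ := by
        refine ⟨P.drop (τ c).length, Q, ?_⟩
        rw [← e', List.append_assoc P W Q, List.drop_append_of_le_length hl, List.append_assoc]
      rcases ih h' with (h1 | ⟨c', hc', h1⟩) | ⟨s, v', p, h1, ⟨c', hc', h2⟩, h3, h4⟩
      · exact Or.inl (Or.inl h1)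
      · exact Or.inl (Or.inr ⟨c', by simp [hc'], h1⟩)
      · refine Or.inr ⟨s, v', p, h1, ⟨c', by simp [hc'], h2⟩, ?_, ?_⟩
        · obtain ⟨a, b, hab⟩ := h3
          exact ⟨c :: a, b, by rw [← hab]; simp⟩
        · rcases h4 with h4 | ⟨c'', hc'', h4⟩
          · exact Or.inl h4
          · exact Or.inr ⟨c'', by simp [hc''], h4⟩
    · -- the infix starts inside the first tile
      have hPle : P <+: τ c := by
        apply List.prefix_of_prefix_length_le (l₃ := P ++ W ++ Q) _ _ (by omega)
        · rw [List.append_assoc]; exact List.prefix_append _ _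
        · rw [e]; exact List.prefix_append _ _
      obtain ⟨s, hs⟩ := hPle
      have e2 : W ++ Q = s ++ v.flatMap τ := by
        rw [← hs, List.append_assoc, List.append_assoc] at e
        exact List.append_cancel_left e
      by_cases hW : W.length ≤ s.length
      · left; right
        refine ⟨c, by simp, ?_⟩
        have : W <+: s := by
          apply List.prefix_of_prefix_length_le (l₃ := W ++ Q) (List.prefix_append _ _) _ hW
          rw [e2]; exact List.prefix_append _ _
        obtain ⟨t, ht⟩ := this
        exact ⟨P, t, by rw [List.append_assoc, ht, hs]⟩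
      · right
        have hsW : s <+: W := by
          apply List.prefix_of_prefix_length_le (l₃ := W ++ Q) _ (List.prefix_append _ _) (by omega)
          rw [e2]; exact List.prefix_append _ _
        obtain ⟨r, rfl⟩ := hsW
        have h' : r <+: v.flatMap τ := by
          rw [List.append_assoc] at e2
          have := List.append_cancel_left e2
          exact ⟨Q, this⟩
        obtain ⟨v', p', e3, hv, hp⟩ := pre_flatMap τ v r h'
        refine ⟨s, v', p', by rw [e3], ⟨c, by simp, ⟨P, hs⟩⟩, ?_, ?_⟩
        · obtain ⟨t, ht⟩ := hv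
          exact ⟨[c], t, by rw [← ht]; simp⟩
        · rcases hp with hp | ⟨c', hc', hp⟩
          · exact Or.inl hp
          · exact Or.inr ⟨c', by simp [hc'], hp⟩

/-- A suffix of a concatenation of tiles. -/
theorem suf_flatMap (τ : Fin d → List (Fin d)) (v s : List (Fin d)) (h : s <:+ v.flatMap τ) :
    ∃ s' v', s = s' ++ v'.flatMap τ ∧ v' <:+ v ∧ (s' = [] ∨ ∃ c ∈ v, s' <:+ τ c) := by
  induction v with
  | nil =>
    refine ⟨[], [], ?_, List.suffix_refl _, Or.inl rfl⟩
    simpa using h
  | cons c v ih =>
    rw [List.flatMap_cons] at h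
    by_cases hl : s.length ≤ (v.flatMap τ).length
    · have h1 : s <:+ v.flatMap τ :=
        List.suffix_of_suffix_length_le h (List.suffix_append _ _) hl
      obtain ⟨s', v', e, hv, hp⟩ := ih h1
      refine ⟨s', v', e, hv.trans (List.suffix_cons _ _), ?_⟩
      rcases hp with hp | ⟨c', hc', hp⟩
      · exact Or.inl hp
      · exact Or.inr ⟨c', by simp [hc'], hp⟩
    · have h1 : v.flatMap τ <:+ s :=
        List.suffix_of_suffix_length_le (List.suffix_append _ _) h (by omega)
      obtain ⟨s', rfl⟩ := h1
      obtain ⟨t, ht⟩ := h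
      rw [← List.append_assoc] at ht
      have := List.append_cancel_right ht
      exact ⟨s', v, rfl, List.suffix_cons _ _, Or.inr ⟨c, by simp, ⟨t, this⟩⟩⟩

end Pool.Agent.Helper97.Sub
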