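import Pool.Agent.Helper97.Sub.Low

set_option autoImplicit false

namespace Pool.Agent.Helper97.Sub

open Finset Filter Topology

variable {d : ℕ}
variable {σ : Fin d → List (Fin d)} {G : List (Fin d) → ℂ} {w : ℕ} {z : ℂ} {B r c₀ C₀ K : ℝ}

/-- matrix of the twisted transfer operator -/
noncomputable def OpM (σ : Fin d → List (Fin d)) (y : Fin d → ℂ) : Matrix (Fin d) (Fin d) ℂ :=
  fun b c => WS y (Pi.single c 1) (σ b)

theorem WS_eq_sum (y E : Fin d → ℂ) (v : List (Fin d)) :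
    WS y E v = ∑ c, WS y (Pi.single c 1) v * E c := by
  induction v with
  | nil => simp [WS]
  | cons a v ih =>
    simp only [WS]
    rw [ih]
    simp only [add_mul, sum_add_distrib, mul_assoc, ← mul_sum]
    congr 1
    rw [sum_eq_single a]
    · simp
    · intro b _ hb
      rw [Pi.single_eq_of_ne (Ne.symm hb)]; simp
    · simp

theorem Op_eq (y E : Fin d → ℂ) : Op σ y E = (OpM σ y).mulVec E := by
  funext b
  rw [Op, WS_eq_sum]
  rfl

theorem Op_iter (y E : Fin d → ℂ) (n : ℕ) : (Op σ y)^[n] E = ((OpM σ y) ^ n).mulVec E := by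
  induction n generalizing E with
  | zero => simp
  | succ n ih =>
    rw [Function.iterate_succ_apply, ih, Op_eq, Matrix.mulVec_mulVec, pow_succ]

theorem Dat.step (h : Dat σ G w z B r c₀ C₀ K) {y : Fin d → ℂ} (hy : ∀ b, yw y (σ b) = y b)
    (hyn : ∀ c, ‖y c‖ = 1) {A : ℝ} (hA0 : 0 ≤ A) (k n : ℕ)
    (hA : ∀ a, ‖TS G w z (T σ k a)‖ ≤ A) {δ : ℝ} (hδ0 : 0 ≤ δ)
    (hδ : ∀ c, ‖z ^ (T σ k c).length - y c‖ ≤ δ) (b : Fin d) :
    ‖TS G w z (T σ (n + k) b) - (((OpM σ y) ^ n).mulVec (fun a => TS G w z (T σ k a))) b‖ ≤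
      (T σ n b).length * (w * B) + ((T σ n b).length : ℝ) ^ 2 * δ * A := by
  rw [T_add, ← Op_iter, ← WS_T hy]
  have h1 := TS_flatMap h.hz h.hB h.hG (T σ k) (T σ n b)
  have h2 := WS_sub_le (y := fun c => z ^ (T σ k c).length) (y' := y)
    (E := fun c => TS G w z (T σ k c)) (A := A) (δ := δ)
    (fun c => by rw [norm_pow, h.hz, one_pow]) hyn hA0 hA hδ hδ0 (T σ n b)
  have e : TS G w z ((T σ n b).flatMap (T σ k)) - WS y (fun a => TS G w z (T σ k a)) (T σ n b) =
      (TS G w z ((T σ n b).flatMap (T σ k)) -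
        WS (fun c => z ^ (T σ k c).length) (fun c => TS G w z (T σ k c)) (T σ n b)) +
      (WS (fun c => z ^ (T σ k c).length) (fun c => TS G w z (T σ k c)) (T σ n b) -
        WS y (fun a => TS G w z (T σ k a)) (T σ n b)) := by ring
  rw [e]
  exact (norm_add_le _ _).trans (add_le_add h1 h2)

theorem Dat.limit_vector (h : Dat σ G w z B r c₀ C₀ K) {y : Fin d → ℂ}
    (hy : ∀ b, yw y (σ b) = y b) (hyn : ∀ c, ‖y c‖ = 1) {A : ℝ} (hA0 : 0 ≤ A)
    (hA : ∀ k a, ‖TS G w z (T σ k a)‖ ≤ A * r ^ k) {c₂ : ℝ} {k₁ : ℕ}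
    (hlow : ∀ k, k₁ ≤ k → ∃ a, c₂ * r ^ k ≤ ‖TS G w z (T σ k a)‖)
    (hrec : ∀ ε : ℝ, 0 < ε → ∀ K : ℕ, ∃ k, K ≤ k ∧ ∀ a, ‖z ^ (T σ k a).length - y a‖ < ε) :
    ∃ v : Fin d → ℂ, ∀ n : ℕ, c₂ * r ^ n ≤ ‖((OpM σ y) ^ n).mulVec v‖ ∧
      ‖((OpM σ y) ^ n).mulVec v‖ ≤ A * r ^ n := by
  have hr := h.hr
  have hr0 : 0 < r := by linarith
  have hB := h.hB
  -- the subsequence
  choose κ hκ1 hκ2 using fun i : ℕ => hrec (1 / ((i : ℝ) + 1)) (by positivity) i
  set v : ℕ → (Fin d → ℂ) := fun i a => TS G w z (T σ (κ i) a) / (r : ℂ) ^ (κ i) with hv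
  have hvb : ∀ i, ‖v i‖ ≤ A := by
    intro i
    rw [pi_norm_le_iff_of_nonneg hA0]
    intro a
    rw [hv]
    simp only [norm_div, norm_pow, Complex.norm_real, Real.norm_eq_abs, abs_of_pos hr0]
    rw [div_le_iff₀ (by positivity)]
    exact hA _ _
  obtain ⟨v₀, -, φ, hφ, hlim⟩ := tendsto_subseq_of_bounded (s := Metric.closedBall (0 : Fin d → ℂ) A)
    Metric.isBounded_closedBall (x := v) (fun i => by
      rw [Metric.mem_closedBall, dist_zero_right]; exact hvb i)
  refine ⟨v₀, fun n => ?_⟩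
  -- the normalised level k+n vectors
  set u : ℕ → (Fin d → ℂ) := fun i a => TS G w z (T σ (n + κ i) a) / (r : ℂ) ^ (κ i) with hu
  have hdiff : Tendsto (fun i => u i - ((OpM σ y) ^ n).mulVec (v i)) atTop (𝓝 0) := by
    rw [tendsto_pi_nhds]
    intro b
    rw [Pi.zero_apply, tendsto_zero_iff_norm_tendsto_zero]
    have hb : ∀ i, ‖(u i - ((OpM σ y) ^ n).mulVec (v i)) b‖ ≤
        (T σ n b).length * (w * B) * (r⁻¹) ^ (κ i) +
          ((T σ n b).length : ℝ) ^ 2 * (1 / ((i : ℝ) + 1)) * A := by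
      intro i
      have h1 := h.step hy hyn (A := A * r ^ (κ i)) (by positivity) (κ i) n (hA (κ i))
        (δ := 1 / ((i : ℝ) + 1)) (by positivity) (fun c => (hκ2 i c).le) b
      have e1 : ((OpM σ y) ^ n).mulVec (v i) b =
          (((OpM σ y) ^ n).mulVec (fun a => TS G w z (T σ (κ i) a))) b / (r : ℂ) ^ (κ i) := by
        have : v i = ((r : ℂ) ^ (κ i))⁻¹ • (fun a => TS G w z (T σ (κ i) a)) := by
          funext a
          simp only [hv, Pi.smul_apply, smul_eq_mul]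
          rw [div_eq_inv_mul]
        rw [this, Matrix.mulVec_smul, Pi.smul_apply, smul_eq_mul, div_eq_inv_mul]
      rw [Pi.sub_apply, e1, hu]
      simp only
      rw [← sub_div, norm_div, norm_pow, Complex.norm_real, Real.norm_eq_abs, abs_of_pos hr0,
        div_le_iff₀ (by positivity)]
      refine h1.trans (le_of_eq ?_)
      have : (r⁻¹) ^ (κ i) * r ^ (κ i) = 1 := by
        rw [← mul_pow, inv_mul_cancel₀ hr0.ne', one_pow]
      calc ((T σ n b).length : ℝ) * (w * B) + ((T σ n b).length : ℝ) ^ 2 * (1 / ((i : ℝ) + 1)) *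
            (A * r ^ κ i)
          = ((T σ n b).length : ℝ) * (w * B) * ((r⁻¹) ^ (κ i) * r ^ (κ i)) +
            ((T σ n b).length : ℝ) ^ 2 * (1 / ((i : ℝ) + 1)) * (A * r ^ κ i) := by rw [this, mul_one]
        _ = _ := by ring
    have hκt : Tendsto κ atTop atTop := tendsto_atTop_mono hκ1 tendsto_id
    have h1 : Tendsto (fun i => ((T σ n b).length : ℝ) * (w * B) * (r⁻¹) ^ (κ i) +
        ((T σ n b).length : ℝ) ^ 2 * (1 / ((i : ℝ) + 1)) * A) atTop (𝓝 0) := by
      have h2 : Tendsto (fun i => (r⁻¹) ^ (κ i)) atTop (𝓝 0) :=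
        (tendsto_pow_atTop_nhds_zero_of_lt_one (by positivity) (inv_lt_one_of_one_lt₀ hr)).comp hκt
      have h3 : Tendsto (fun i : ℕ => (1 : ℝ) / ((i : ℝ) + 1)) atTop (𝓝 0) :=
        tendsto_one_div_add_atTop_nhds_zero_nat
      have h4 := (h2.const_mul (((T σ n b).length : ℝ) * (w * B))).add
        ((h3.const_mul (((T σ n b).length : ℝ) ^ 2)).mul_const A)
      simpa using h4
    exact squeeze_zero (fun i => norm_nonneg _) hb h1
  have hlim2 : Tendsto (fun i => ((OpM σ y) ^ n).mulVec (v (φ i))) atTop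
      (𝓝 (((OpM σ y) ^ n).mulVec v₀)) := by
    have hc : Continuous fun x : Fin d → ℂ => ((OpM σ y) ^ n).mulVec x :=
      Continuous.matrix_mulVec continuous_const continuous_id
    exact (hc.tendsto v₀).comp hlim
  have hlim3 : Tendsto (fun i => u (φ i)) atTop (𝓝 (((OpM σ y) ^ n).mulVec v₀)) := by
    have h1 := (hdiff.comp hφ.tendsto_atTop).add hlim2
    simp only [zero_add] at h1
    refine h1.congr fun i => ?_
    simp
  have hlim4 := hlim3.norm
  have hnorm : ∀ i a, ‖u i a‖ = ‖TS G w z (T σ (n + κ i) a)‖ / r ^ (κ i) := by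
    intro i a
    rw [hu]
    simp only [norm_div, norm_pow, Complex.norm_real, Real.norm_eq_abs, abs_of_pos hr0]
  constructor
  · apply ge_of_tendsto hlim4
    have hev : ∀ᶠ i in atTop, k₁ ≤ i := eventually_ge_atTop k₁
    filter_upwards [hev] with i hi
    have h1 : k₁ ≤ n + κ (φ i) := by
      have := hφ.id_le i
      have := hκ1 (φ i)
      simp only [id] at *
      omega
    obtain ⟨a, ha⟩ := hlow _ h1
    refine le_trans ?_ (norm_le_pi_norm (u (φ i)) a)
    rw [hnorm, le_div_iff₀ (by positivity), mul_assoc, ← pow_add]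
    exact ha
  · apply le_of_tendsto hlim4
    filter_upwards with i
    rw [pi_norm_le_iff_of_nonneg (by positivity)]
    intro a
    rw [hnorm, div_le_iff₀ (by positivity), mul_assoc, ← pow_add]
    exact hA _ _

end Pool.Agent.Helper97.Sub
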