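import Pool.Agent.Helper97.Sub.Est

set_option autoImplicit false

namespace Pool.Agent.Helper97.Sub

open Finset

variable {d : ℕ}
variable {σ : Fin d → List (Fin d)} {G : List (Fin d) → ℂ} {w : ℕ} {z : ℂ} {B r c₀ C₀ K : ℝ}

theorem Dat.TS_flat (h : Dat σ G w z B r c₀ C₀ K) {A : ℝ} (k : ℕ)
    (hA : ∀ a, ‖TS G w z (T σ k a)‖ ≤ A) (v : List (Fin d)) :
    ‖TS G w z (v.flatMap (T σ k))‖ ≤ v.length * (A + w * B) := by
  have h1 := TS_flatMap h.hz h.hB h.hG (T σ k) v
  have h2 := WS_norm_le (y := fun c => z ^ (T σ k c).length) (E := fun c => TS G w z (T σ k c))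
    (A := A) (fun c => by rw [norm_pow, h.hz, one_pow]) hA v
  have e : TS G w z (v.flatMap (T σ k)) = (TS G w z (v.flatMap (T σ k)) -
    WS (fun c => z ^ (T σ k c).length) (fun c => TS G w z (T σ k c)) v) +
    WS (fun c => z ^ (T σ k c).length) (fun c => TS G w z (T σ k c)) v := by ring
  rw [e]
  refine (norm_add_le _ _).trans ?_
  rw [mul_add]
  linarith

theorem TS_append_le (h : Dat σ G w z B r c₀ C₀ K) (U V : List (Fin d)) :
    ‖TS G w z (U ++ V)‖ ≤ ‖TS G w z U‖ + ‖TS G w z V‖ + w * B := by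
  have h1 := TS_append h.hz h.hB h.hG U V
  have e : TS G w z (U ++ V) = (TS G w z (U ++ V) - (TS G w z U + z ^ U.length * TS G w z V)) +
    (TS G w z U + z ^ U.length * TS G w z V) := by ring
  rw [e]
  refine (norm_add_le _ _).trans ?_
  have h2 : ‖TS G w z U + z ^ U.length * TS G w z V‖ ≤ ‖TS G w z U‖ + ‖TS G w z V‖ := by
    refine (norm_add_le _ _).trans ?_
    rw [norm_mul, norm_pow, h.hz, one_pow, one_mul]
  linarith

theorem TS_nil : TS G w z [] = 0 := by simp [TS, PS]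

theorem TS_single_le (h : Dat σ G w z B r c₀ C₀ K) (a : Fin d) : ‖TS G w z [a]‖ ≤ B := by
  rw [TS, PS]
  simp only [List.length_singleton, range_one, sum_singleton, zero_add, List.drop_zero,
    pow_zero, mul_one]
  split_ifs with hw
  · apply h.hG
    rw [List.length_take, List.length_singleton]; omega
  · rw [norm_zero]; exact h.hB

/-- Prefixes of tiles. -/
theorem Dat.prefix_upper (h : Dat σ G w z B r c₀ C₀ K) {A : ℝ} (hA0 : 0 ≤ A)
    (hA : ∀ k a, ‖TS G w z (T σ k a)‖ ≤ A * r ^ k) {s : ℝ} (hs : ∀ a, ((σ a).length : ℝ) ≤ s)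
    (hs0 : 0 ≤ s) :
    ∀ k a p, p <+: T σ k a → ‖TS G w z p‖ ≤
      (B + (s * (A + w * B) + w * B) * r / (r - 1)) * r ^ k := by
  have hr := h.hr
  have hr0 : 0 < r := by linarith
  have hr1 : 0 < r - 1 := by linarith
  have hB := h.hB
  set b := s * (A + w * B) + w * B with hb
  have hb0 : 0 ≤ b := by positivity
  intro k
  induction k with
  | zero =>
    intro a p hp
    rw [T_zero] at hp
    have h0 : 0 ≤ b * r / (r - 1) := by positivity
    rw [pow_zero, mul_one]
    rcases List.prefix_cons_iff.1 hp with rfl | ⟨t, rfl, ht⟩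
    · rw [TS_nil, norm_zero]; positivity
    · have : t = [] := List.prefix_nil.1 ht
      subst this
      have := TS_single_le h a; linarith
  | succ k ih =>
    intro a p hp
    rw [T_succ] at hp
    obtain ⟨v', p', e, hv, hp'⟩ := pre_flatMap (T σ k) (σ a) p hp
    have h1 := TS_append_le h (v'.flatMap (T σ k)) p'
    rw [← e] at h1
    have h2 := h.TS_flat k (hA k) v'
    have h3 : (v'.length : ℝ) ≤ s := le_trans (by exact_mod_cast hv.length_le) (hs a)
    have h4 : ‖TS G w z p'‖ ≤ (B + b * r / (r - 1)) * r ^ k := by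
      rcases hp' with rfl | ⟨c, _, hc⟩
      · rw [TS_nil, norm_zero]; positivity
      · exact ih c p' hc
    have h5 : (1:ℝ) ≤ r ^ k := one_le_pow₀ hr.le
    have h6 : (v'.length : ℝ) * (A * r ^ k + w * B) + w * B ≤ b * r ^ (k + 1) := by
      calc (v'.length : ℝ) * (A * r ^ k + w * B) + w * B
          ≤ s * (A * r ^ k + w * B * r ^ k) + w * B * r ^ k := by
            have : (w:ℝ) * B ≤ w * B * r ^ k := le_mul_of_one_le_right (by positivity) h5
            gcongr
        _ = b * r ^ k := by rw [hb]; ring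
        _ ≤ b * r ^ (k + 1) := by
            gcongr
            · exact hr.le
            · omega
    have h7 : (B + b * r / (r - 1)) * r ^ (k + 1) - (B + b * r / (r - 1)) * r ^ k =
        B * (r - 1) * r ^ k + b * r ^ (k + 1) := by
      field_simp; ring
    have h8 : 0 ≤ B * (r - 1) * r ^ k := by positivity
    linarith

theorem Dat.suffix_upper (h : Dat σ G w z B r c₀ C₀ K) {A : ℝ} (hA0 : 0 ≤ A)
    (hA : ∀ k a, ‖TS G w z (T σ k a)‖ ≤ A * r ^ k) {s : ℝ} (hs : ∀ a, ((σ a).length : ℝ) ≤ s)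
    (hs0 : 0 ≤ s) :
    ∀ k a p, p <:+ T σ k a → ‖TS G w z p‖ ≤
      (B + (s * (A + w * B) + w * B) * r / (r - 1)) * r ^ k := by
  have hr := h.hr
  have hr0 : 0 < r := by linarith
  have hr1 : 0 < r - 1 := by linarith
  have hB := h.hB
  set b := s * (A + w * B) + w * B with hb
  have hb0 : 0 ≤ b := by positivity
  intro k
  induction k with
  | zero =>
    intro a p hp
    rw [T_zero] at hp
    have h0 : 0 ≤ b * r / (r - 1) := by positivity
    rw [pow_zero, mul_one]
    rcases List.suffix_cons_iff.1 hp with rfl | h2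
    · have := TS_single_le h a; linarith
    · have : p = [] := List.suffix_nil.1 h2
      subst this
      rw [TS_nil, norm_zero]; positivity
  | succ k ih =>
    intro a p hp
    rw [T_succ] at hp
    obtain ⟨p', v', e, hv, hp'⟩ := suf_flatMap (T σ k) (σ a) p hp
    have h1 := TS_append_le h p' (v'.flatMap (T σ k))
    rw [← e] at h1
    have h2 := h.TS_flat k (hA k) v'
    have h3 : (v'.length : ℝ) ≤ s := le_trans (by exact_mod_cast hv.length_le) (hs a)
    have h4 : ‖TS G w z p'‖ ≤ (B + b * r / (r - 1)) * r ^ k := by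
      rcases hp' with rfl | ⟨c, _, hc⟩
      · rw [TS_nil, norm_zero]; positivity
      · exact ih c p' hc
    have h5 : (1:ℝ) ≤ r ^ k := one_le_pow₀ hr.le
    have h6 : (v'.length : ℝ) * (A * r ^ k + w * B) + w * B ≤ b * r ^ (k + 1) := by
      calc (v'.length : ℝ) * (A * r ^ k + w * B) + w * B
          ≤ s * (A * r ^ k + w * B * r ^ k) + w * B * r ^ k := by
            have : (w:ℝ) * B ≤ w * B * r ^ k := le_mul_of_one_le_right (by positivity) h5
            gcongr
        _ = b * r ^ k := by rw [hb]; ring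
        _ ≤ b * r ^ (k + 1) := by
            gcongr
            · exact hr.le
            · omega
    have h7 : (B + b * r / (r - 1)) * r ^ (k + 1) - (B + b * r / (r - 1)) * r ^ k =
        B * (r - 1) * r ^ k + b * r ^ (k + 1) := by
      field_simp; ring
    have h8 : 0 ≤ B * (r - 1) * r ^ k := by positivity
    linarith

/-- Upper bound for long words of the language in terms of tile sums of one level. -/
theorem Dat.word_upper (h : Dat σ G w z B r c₀ C₀ K) {P : ℝ}
    (hP : ∀ k a p, p <+: T σ k a → ‖TS G w z p‖ ≤ P * r ^ k)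
    (hS : ∀ k a p, p <:+ T σ k a → ‖TS G w z p‖ ≤ P * r ^ k) (hP0 : 0 ≤ P)
    (k : ℕ) (A : ℝ) (hA : ∀ a, ‖TS G w z (T σ k a)‖ ≤ A) (hA0 : 0 ≤ A)
    (W : List (Fin d)) (hW : ∃ n a, W <:+: T σ n a) (hlen : C₀ * r ^ (2 * k) < (W.length : ℝ)) :
    ‖TS G w z W‖ ≤ 2 * P * r ^ k + 2 * (w * B) +
      (W.length : ℝ) / (c₀ * r ^ (2 * k)) * (A + w * B) := by
  have hr := h.hr
  have hr0 : 0 < r := by linarith
  have hB := h.hB
  have hc₀ := h.hc₀
  obtain ⟨n, a, hW⟩ := hW
  have hC0 : 0 ≤ C₀ := by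
    have h5 := h.up 0 a
    have h6 : (0:ℝ) ≤ ((T σ 0 a).length : ℝ) := Nat.cast_nonneg _
    simp only [mul_zero, pow_zero, mul_one] at h5
    linarith
  have hWn : (W.length : ℝ) ≤ ((T σ n a).length : ℝ) := by exact_mod_cast hW.length_le
  have hkn : k < n := by
    by_contra hcon
    push Not at hcon
    have h1 := h.up n a
    have h2 : C₀ * r ^ (2 * n) ≤ C₀ * r ^ (2 * k) := by
      gcongr
      exact hr.le
    linarith
  obtain ⟨m, rfl⟩ : ∃ m, n = m + k := ⟨n - k, by omega⟩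
  rw [T_add] at hW
  have hWpos : W ≠ [] := by
    rintro rfl
    simp only [List.length_nil, Nat.cast_zero] at hlen
    have : 0 ≤ C₀ * r ^ (2 * k) := by positivity
    linarith
  rcases inf_flatMap (T σ k) (T σ m a) W hW with (h1 | ⟨c, _, h1⟩) | ⟨s, v', p, e, ⟨c, _, h2⟩, _, h4⟩
  · exact absurd h1 hWpos
  · exfalso
    have h2 : (W.length : ℝ) ≤ ((T σ k c).length : ℝ) := by exact_mod_cast h1.length_le
    have h3 := h.up k c
    linarith
  · have h5 := TS_append_le h s (v'.flatMap (T σ k) ++ p)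
    have h6 := TS_append_le h (v'.flatMap (T σ k)) p
    have h7 := hS k c s h2
    have h8 : ‖TS G w z p‖ ≤ P * r ^ k := by
      rcases h4 with rfl | ⟨c', _, h4⟩
      · rw [TS_nil, norm_zero]; positivity
      · exact hP k c' p h4
    have h9 := h.TS_flat k hA v'
    have h10 : (v'.length : ℝ) * (c₀ * r ^ (2 * k)) ≤ (W.length : ℝ) := by
      have h11 : ∀ v : List (Fin d), (v.length : ℝ) * (c₀ * r ^ (2 * k)) ≤
          ((v.flatMap (T σ k)).length : ℝ) := by
        intro v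
        induction v with
        | nil => simp
        | cons c v ih =>
          rw [List.flatMap_cons, List.length_append, List.length_cons]
          push_cast
          have := h.low k c
          linarith
      refine (h11 v').trans ?_
      rw [e, List.length_append, List.length_append]
      push_cast
      have : (0:ℝ) ≤ s.length := Nat.cast_nonneg _
      have : (0:ℝ) ≤ p.length := Nat.cast_nonneg _
      linarith
    have h12 : (v'.length : ℝ) ≤ (W.length : ℝ) / (c₀ * r ^ (2 * k)) := by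
      rw [le_div_iff₀ (by positivity)]
      exact h10
    have h13 : (v'.length : ℝ) * (A + w * B) ≤ (W.length : ℝ) / (c₀ * r ^ (2 * k)) * (A + w * B) := by
      gcongr
    rw [← e] at h5
    linarith

/-- Lower bound for the tile sums. -/
theorem Dat.tile_lower (h : Dat σ G w z B r c₀ C₀ K) {P : ℝ}
    (hP : ∀ k a p, p <+: T σ k a → ‖TS G w z p‖ ≤ P * r ^ k)
    (hS : ∀ k a p, p <:+ T σ k a → ‖TS G w z p‖ ≤ P * r ^ k) (hP0 : 0 ≤ P) (hC₀ : 0 ≤ C₀)
    (c₁ : ℝ) (hc₁ : 0 < c₁) (N₀ : ℕ)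
    (hlo : ∀ N : ℕ, N₀ ≤ N → ∃ W : List (Fin d), W.length = N ∧ (∃ n a, W <:+: T σ n a) ∧
      c₁ * N ≤ (‖TS G w z W‖ + w * B) ^ 2) :
    ∃ c₂ : ℝ, 0 < c₂ ∧ ∃ k₁ : ℕ, ∀ k, k₁ ≤ k → ∃ a, c₂ * r ^ k ≤ ‖TS G w z (T σ k a)‖ := by
  have hr := h.hr
  have hr0 : 0 < r := by linarith
  have hB := h.hB
  have hc₀ := h.hc₀
  -- constants
  obtain ⟨K₁, hK₁, hK₁'⟩ : ∃ K₁ : ℝ, C₀ + 1 ≤ K₁ ∧ (2 * P + 4) ^ 2 ≤ c₁ * K₁ := by
    refine ⟨max (C₀ + 1) ((2 * P + 4) ^ 2 / c₁), le_max_left _ _, ?_⟩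
    calc (2 * P + 4) ^ 2 = c₁ * ((2 * P + 4) ^ 2 / c₁) := by field_simp
      _ ≤ _ := by gcongr; exact le_max_right _ _
  have hK₁0 : 0 < K₁ := by linarith
  set c₂ := c₀ / (K₁ + 1) with hc₂
  have hc₂0 : 0 < c₂ := by positivity
  have hpow : Filter.Tendsto (fun k : ℕ => r ^ k) Filter.atTop Filter.atTop :=
    tendsto_pow_atTop_atTop_of_one_lt hr
  have hpow2 : Filter.Tendsto (fun k : ℕ => K₁ * r ^ (2 * k)) Filter.atTop Filter.atTop := by
    apply Filter.Tendsto.const_mul_atTop hK₁0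
    exact hpow.comp (Filter.tendsto_id.const_mul_atTop' (by norm_num : 0 < 2))
  obtain ⟨k₂, hk₂⟩ := Filter.eventually_atTop.1 (hpow.eventually_ge_atTop
    (3 * (w * B) + (K₁ + 1) / c₀ * (w * B) + 1))
  obtain ⟨k₃, hk₃⟩ := Filter.eventually_atTop.1 (hpow2.eventually_ge_atTop (N₀ : ℝ))
  refine ⟨c₂, hc₂0, max k₂ k₃, fun k hk => ?_⟩
  by_contra hcon
  push Not at hcon
  have hk2 := hk₂ k ((le_max_left _ _).trans hk)
  have hk3 := hk₃ k ((le_max_right _ _).trans hk)
  set X := r ^ (2 * k) with hX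
  have hX1 : 1 ≤ X := one_le_pow₀ hr.le
  have hXr : X = (r ^ k) ^ 2 := by rw [hX, mul_comm 2 k, pow_mul]
  set N := ⌈K₁ * X⌉₊ with hN
  have hN1 : K₁ * X ≤ N := Nat.le_ceil _
  have hN2 : (N : ℝ) ≤ (K₁ + 1) * X := by
    have := (Nat.ceil_lt_add_one (show 0 ≤ K₁ * X by positivity)).le
    linarith
  obtain ⟨W, hWl, hWL, hWc⟩ := hlo N (by exact_mod_cast hk3.trans hN1)
  have hlen : C₀ * r ^ (2 * k) < (W.length : ℝ) := by
    rw [hWl, ← hX]
    have : C₀ * X < K₁ * X := by
      apply mul_lt_mul_of_pos_right _ (by positivity)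
      linarith
    linarith
  have h1 := h.word_upper hP hS hP0 k (c₂ * r ^ k) (fun a => (hcon a).le) (by positivity) W hWL hlen
  rw [hWl, ← hX] at h1
  have h2 : (N : ℝ) / (c₀ * X) ≤ (K₁ + 1) / c₀ := by
    rw [div_le_div_iff₀ (by positivity) hc₀]
    calc (N : ℝ) * c₀ ≤ (K₁ + 1) * X * c₀ := by gcongr
      _ = _ := by ring
  have h3 : (N : ℝ) / (c₀ * X) * (c₂ * r ^ k + w * B) ≤ r ^ k + (K₁ + 1) / c₀ * (w * B) := by
    calc (N : ℝ) / (c₀ * X) * (c₂ * r ^ k + w * B)
        ≤ (K₁ + 1) / c₀ * (c₂ * r ^ k + w * B) := by gcongr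
      _ = r ^ k + (K₁ + 1) / c₀ * (w * B) := by
          rw [hc₂]; field_simp
  have h4 : (2 * P + 4) * r ^ k ≤ ‖TS G w z W‖ + w * B := by
    have h5 : ((2 * P + 4) * r ^ k) ^ 2 ≤ (‖TS G w z W‖ + w * B) ^ 2 := by
      calc ((2 * P + 4) * r ^ k) ^ 2 = (2 * P + 4) ^ 2 * X := by rw [hXr]; ring
        _ ≤ c₁ * K₁ * X := by gcongr
        _ = c₁ * (K₁ * X) := by ring
        _ ≤ c₁ * N := by gcongr
        _ ≤ _ := hWc
    exact (sq_le_sq₀ (by positivity) (by positivity)).1 h5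
  have h6 : (0:ℝ) < r ^ k := by positivity
  nlinarith

end Pool.Agent.Helper97.Sub
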