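import Pool.Agent.Helper97.Sub.Win
import Pool.Agent.Helper97.Sub.G

set_option autoImplicit false

namespace Pool.Agent.Helper97.Sub

open Finset MeasureTheory
open scoped ComplexConjugate

variable {d : ℕ}

section counts
variable {σ : Fin d → List (Fin d)} {M : Matrix (Fin d) (Fin d) ℤ}

theorem count_flatMap_sum (v : List (Fin d)) (b : Fin d) :
    (v.flatMap σ).count b = ∑ c, (σ c).count b * v.count c := by
  induction v with
  | nil => simp
  | cons a v ih =>
    rw [List.flatMap_cons, List.count_append, ih]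
    have : ∀ c, (σ c).count b * (a :: v).count c =
        (if c = a then (σ c).count b else 0) + (σ c).count b * v.count c := by
      intro c
      rw [List.count_cons]
      by_cases h : c = a
      · subst h; simp; ring
      · rw [if_neg h, if_neg (by simpa using Ne.symm h)]; ring
    rw [sum_congr rfl fun c _ => this c, sum_add_distrib, sum_ite_eq' univ a]
    simp

theorem count_T (hM : ∀ i j, M i j = (((σ j).count i : ℕ) : ℤ)) (k : ℕ) (a b : Fin d) :
    (((T σ k a).count b : ℕ) : ℤ) = (M ^ k) b a := by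
  induction k generalizing b with
  | zero =>
    rw [T_zero, pow_zero, Matrix.one_apply, List.count_singleton]
    by_cases h : a = b
    · subst h; simp
    · rw [if_neg (by simpa using h), if_neg (Ne.symm h)]; simp
  | succ k ih =>
    rw [T_add, show T σ 1 = σ from funext (T_one σ), count_flatMap_sum, pow_succ',
      Matrix.mul_apply]
    push_cast
    refine sum_congr rfl fun c _ => ?_
    rw [ih, hM]

theorem length_T (hM : ∀ i j, M i j = (((σ j).count i : ℕ) : ℤ)) (k : ℕ) (a : Fin d) :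
    (((T σ k a).length : ℕ) : ℤ) = ell M k a := by
  rw [ell, ← sum_congr rfl fun b _ => count_T hM k a b]
  rw [← Nat.cast_sum]
  congr 1
  rw [← List.sum_toFinset_count_eq_length]
  apply sum_subset (subset_univ _)
  intro x _ hx
  rw [List.count_eq_zero]
  simpa using hx

theorem mem_T (hM : ∀ i j, M i j = (((σ j).count i : ℕ) : ℤ)) (k : ℕ) (a b : Fin d)
    (h : 0 < (M ^ k) a b) : a ∈ T σ k b := by
  rw [← count_T hM] at h
  exact List.count_pos_iff.1 (by exact_mod_cast h)

end counts

theorem meas_f (w : ℕ) (G : List (Fin d) → ℂ) :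
    Measurable (fun x : ℤ → Fin d => G (List.ofFn (fun j : Fin w => x ((j : ℕ) : ℤ)))) := by
  have h1 : Measurable (fun x : ℤ → Fin d => fun j : Fin w => x ((j : ℕ) : ℤ)) :=
    measurable_pi_lambda _ fun j => measurable_pi_apply _
  have h2 : Measurable (fun q : Fin w → Fin d => G (List.ofFn q)) := measurable_of_finite _
  exact h2.comp h1

theorem exists_bound (w : ℕ) (G : List (Fin d) → ℂ) :
    ∃ B : ℝ, 0 ≤ B ∧ ∀ v : List (Fin d), v.length = w → ‖G v‖ ≤ B := by
  have hfin : {v : List (Fin d) | v.length = w}.Finite := List.finite_length_eq (Fin d) w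
  obtain ⟨B, hB⟩ := (hfin.image (fun v => ‖G v‖)).bddAbove
  refine ⟨max B 0, le_max_right _ _, fun v hv => ?_⟩
  exact (hB ⟨v, hv, rfl⟩).trans (le_max_left _ _)

theorem measurable_sh : Measurable (sh (d := d)) :=
  measurable_pi_lambda _ fun _ => measurable_pi_apply _

theorem meas_SN (G : List (Fin d) → ℂ) (w : ℕ) (z : ℂ) (N : ℕ) : Measurable (SN G w z N) := by
  unfold SN
  apply Finset.measurable_sum
  intro j _
  exact ((meas_f w G).comp (measurable_sh.iterate j)).mul_const _

theorem norm_SN_le {G : List (Fin d) → ℂ} {w : ℕ} {z : ℂ} {B : ℝ} (hz : ‖z‖ = 1)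
    (hG : ∀ v : List (Fin d), v.length = w → ‖G v‖ ≤ B) (N : ℕ) (x : ℤ → Fin d) :
    ‖SN G w z N x‖ ≤ N * B := by
  rw [SN_eq]
  refine (norm_sum_le_of_le (n := fun _ => B) _ fun j _ => ?_).trans ?_
  · rw [norm_mul, norm_pow, hz, one_pow, mul_one]
    exact hG _ (win_length _ _ _)
  · rw [sum_const, card_range, nsmul_eq_mul]

theorem integrable_SN {μ : Measure (ℤ → Fin d)} [IsProbabilityMeasure μ]
    {G : List (Fin d) → ℂ} {w : ℕ} {z : ℂ} {B : ℝ} (hz : ‖z‖ = 1)
    (hG : ∀ v : List (Fin d), v.length = w → ‖G v‖ ≤ B) (N i : ℕ) :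
    Integrable (fun x => ‖SN G w z N (sh^[i] x)‖ ^ 2) μ := by
  have hm : Measurable (fun x => ‖SN G w z N (sh^[i] x)‖ ^ 2) :=
    ((meas_SN G w z N).comp (measurable_sh.iterate i)).norm.pow_const 2
  refine Integrable.of_bound hm.aestronglyMeasurable ((N * B) ^ 2) (Filter.Eventually.of_forall ?_)
  intro x
  rw [Real.norm_eq_abs, abs_of_nonneg (by positivity)]
  have := norm_SN_le hz hG N (sh^[i] x)
  gcongr

theorem integral_SN {μ : Measure (ℤ → Fin d)} [IsProbabilityMeasure μ]
    (hμ : MeasurePreserving (sh (d := d)) μ μ)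
    (G : List (Fin d) → ℂ) (w : ℕ) (z : ℂ) (N i : ℕ) :
    ∫ x, ‖SN G w z N (sh^[i] x)‖ ^ 2 ∂μ = ∫ x, ‖SN G w z N x‖ ^ 2 ∂μ := by
  have h1 := (hμ.iterate i).map_eq
  have h2 : Measurable (fun x => ‖SN G w z N x‖ ^ 2) := (meas_SN G w z N).norm.pow_const 2
  conv_rhs => rw [← h1]
  rw [integral_map (hμ.iterate i).measurable.aemeasurable h2.aestronglyMeasurable]

end Pool.Agent.Helper97.Sub
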