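import Pool.Agent.Helper97.Sub.Core

set_option autoImplicit false

namespace Pool.Agent.Helper97.Sub

open Finset MeasureTheory
open scoped ComplexConjugate

variable {d : ℕ}

/-- neutral phases -/
noncomputable def yv (ζ : Fin d → ℚ) (ω : ℝ) (c : Fin d) : ℂ :=
  Complex.exp (-(2 * Real.pi * ((ζ c : ℝ) * ω) : ℝ) * Complex.I)

theorem yv_norm (ζ : Fin d → ℚ) (ω : ℝ) (c : Fin d) : ‖yv ζ ω c‖ = 1 := by
  rw [yv]
  have : (-(2 * Real.pi * ((ζ c : ℝ) * ω) : ℝ) : ℂ) * Complex.I =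
      ((-(2 * Real.pi * ((ζ c : ℝ) * ω)) : ℝ) : ℂ) * Complex.I := by push_cast; ring
  rw [this, Complex.norm_exp_ofReal_mul_I]

/-- Lipschitz bound for the exponential in terms of the circle norm -/
theorem exp_sub_le (x y : ℝ) :
    ‖Complex.exp (-(2 * Real.pi * x : ℝ) * Complex.I) -
      Complex.exp (-(2 * Real.pi * y : ℝ) * Complex.I)‖ ≤
      2 * Real.pi * ‖((x - y : ℝ) : AddCircle (1 : ℝ))‖ := by
  set n := round (x - y) with hn
  have h1 : Complex.exp (-(2 * Real.pi * x : ℝ) * Complex.I) =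
      Complex.exp (-(2 * Real.pi * y : ℝ) * Complex.I) *
      Complex.exp (-(2 * Real.pi * (x - y - n) : ℝ) * Complex.I) := by
    rw [← Complex.exp_add]
    have e : (-(2 * Real.pi * y : ℝ) : ℂ) * Complex.I + -(2 * Real.pi * (x - y - n) : ℝ) * Complex.I =
        -(2 * Real.pi * x : ℝ) * Complex.I + (n : ℂ) * (2 * Real.pi * Complex.I) := by
      push_cast; ring
    rw [e, Complex.exp_add, Complex.exp_int_mul_two_pi_mul_I, mul_one]
  rw [h1]
  have h2 : Complex.exp (-(2 * Real.pi * y : ℝ) * Complex.I) *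
      Complex.exp (-(2 * Real.pi * (x - y - n) : ℝ) * Complex.I) -
      Complex.exp (-(2 * Real.pi * y : ℝ) * Complex.I) =
      Complex.exp (-(2 * Real.pi * y : ℝ) * Complex.I) *
      (Complex.exp (-(2 * Real.pi * (x - y - n) : ℝ) * Complex.I) - 1) := by ring
  rw [h2, norm_mul]
  have h3 : ‖Complex.exp (-(2 * Real.pi * y : ℝ) * Complex.I)‖ = 1 := by
    have : (-(2 * Real.pi * y : ℝ) : ℂ) * Complex.I =
      ((-(2 * Real.pi * y) : ℝ) : ℂ) * Complex.I := by push_cast; ring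
    rw [this, Complex.norm_exp_ofReal_mul_I]
  rw [h3, one_mul]
  have h4 : (-(2 * Real.pi * (x - y - n) : ℝ) : ℂ) * Complex.I =
      Complex.I * ((-(2 * Real.pi * (x - y - n)) : ℝ) : ℂ) := by push_cast; ring
  rw [h4]
  refine (Real.norm_exp_I_mul_ofReal_sub_one_le (x := -(2 * Real.pi * (x - y - n)))).trans ?_
  rw [AddCircle.norm_eq]
  simp only [inv_one, one_mul, mul_one]
  rw [norm_neg, Real.norm_eq_abs, abs_mul, abs_of_pos (by positivity : 0 < 2 * Real.pi)]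

theorem fourier_conj (ω : ℝ) : conj (fourier 1 ((ω : ℝ) : AddCircle (1 : ℝ))) =
    Complex.exp (-(2 * Real.pi * ω : ℝ) * Complex.I) := by
  rw [fourier_coe_apply, ← Complex.exp_conj]
  congr 1
  simp only [map_mul, Complex.conj_I, Complex.conj_ofReal, map_ofNat, map_intCast,
    Complex.ofReal_one, div_one]
  push_cast
  ring

theorem yw_yv {σ : Fin d → List (Fin d)} {M : Matrix (Fin d) (Fin d) ℤ}
    (hM : ∀ i j, M i j = (((σ j).count i : ℕ) : ℤ)) (ζ : Fin d → ℚ)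
    (hζ : ∀ a, ∑ b, ((M b a : ℤ) : ℚ) * ζ b = ζ a) (ω : ℝ) (b : Fin d) :
    yw (yv ζ ω) (σ b) = yv ζ ω b := by
  have h1 : ∀ v : List (Fin d), yw (yv ζ ω) v =
      Complex.exp (-(2 * Real.pi * ((∑ a, ((v.count a : ℕ) : ℝ) * (ζ a : ℝ)) * ω) : ℝ) *
        Complex.I) := by
    intro v
    induction v with
    | nil => simp [yw]
    | cons c v ih =>
      have : yw (yv ζ ω) (c :: v) = yv ζ ω c * yw (yv ζ ω) v := by simp [yw]
      rw [this, ih, yv, ← Complex.exp_add]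
      congr 1
      have h2 : ∑ a, (((c :: v).count a : ℕ) : ℝ) * (ζ a : ℝ) =
          (ζ c : ℝ) + ∑ a, ((v.count a : ℕ) : ℝ) * (ζ a : ℝ) := by
        have : ∀ a, (((c :: v).count a : ℕ) : ℝ) * (ζ a : ℝ) =
            (if a = c then (ζ a : ℝ) else 0) + ((v.count a : ℕ) : ℝ) * (ζ a : ℝ) := by
          intro a
          rw [List.count_cons]
          by_cases h : a = c
          · subst h; simp; ring
          · rw [if_neg h, if_neg (by simpa using Ne.symm h)]; simp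
        rw [sum_congr rfl fun a _ => this a, sum_add_distrib, sum_ite_eq' univ c]
        simp
      rw [h2]
      push_cast
      ring
  have h2 : ∑ a, (((σ b).count a : ℕ) : ℝ) * (ζ a : ℝ) = (ζ b : ℝ) := by
    have h3 := congrArg (fun q : ℚ => (q : ℝ)) (hζ b)
    push_cast at h3
    rw [← h3]
    refine sum_congr rfl fun a _ => ?_
    rw [hM]
    push_cast
    rfl
  rw [h1, yv, h2]

/-- A non singular spectral measure of a cylinder function gives a set of positive measure of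
frequencies for which the neutral twisted matrix has an eigenvalue of modulus `√θ`. -/
theorem Sys.pos (H : H_stmt) (A2 : A2_stmt) (Bs : B_stmt) (E1 : E1_stmt)
    {σ : Fin d → List (Fin d)} {M : Matrix (Fin d) (Fin d) ℤ} {θ : ℝ} {X : Set (ℤ → Fin d)}
    (h : Sys σ M θ X) (hθ : 1 < θ)
    {μ : Measure (ℤ → Fin d)} [IsProbabilityMeasure μ]
    (hX : μ Xᶜ = 0) (hμ : MeasurePreserving (sh (d := d)) μ μ)
    (G : List (Fin d) → ℂ) (w : ℕ) (ν : Measure (AddCircle (1 : ℝ)))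
    (hν : IsSpec μ sh (fun x => G (List.ofFn (fun j : Fin w => x ((j : ℕ) : ℤ)))) ν)
    (hns : ¬ ν.MutuallySingular volume) (ζ : Fin d → ℚ) (hζ : Neutral M ζ) :
    volume {ω : ℝ | ∃ l : ℂ, (OpM σ (yv ζ ω)).charpoly.IsRoot l ∧ ‖l‖ ^ 2 = θ} ≠ 0 := by
  have h1 := Bs ν hν.1 hns
  have h2 := E1 d M ζ hζ
  intro hcon
  apply h1
  have h3 : {ω : ℝ | Good ν ((ω : ℝ) : AddCircle (1 : ℝ))} ⊆
      {ω : ℝ | ∃ l : ℂ, (OpM σ (yv ζ ω)).charpoly.IsRoot l ∧ ‖l‖ ^ 2 = θ} ∪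
      {ω : ℝ | ¬ ∀ ε : ℝ, 0 < ε → ∀ K : ℕ, ∃ k : ℕ, K ≤ k ∧
      ∀ a, ‖(((((ell M k a : ℤ) : ℝ) - ((ζ a : ℚ) : ℝ)) * ω : ℝ) : AddCircle (1 : ℝ))‖ < ε} := by
    intro ω hω
    by_cases hrec : ∀ ε : ℝ, 0 < ε → ∀ K : ℕ, ∃ k : ℕ, K ≤ k ∧
      ∀ a, ‖(((((ell M k a : ℤ) : ℝ) - ((ζ a : ℚ) : ℝ)) * ω : ℝ) : AddCircle (1 : ℝ))‖ < ε
    · left
      apply h.core H A2 hθ hX hμ G w ν hν _ hω (yv ζ ω) (yw_yv h.cnt ζ hζ.1 ω) (yv_norm ζ ω)
      intro ε hε K
      obtain ⟨k, hk, hk2⟩ := hrec (ε / (2 * Real.pi)) (by positivity) K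
      refine ⟨k, hk, fun a => ?_⟩
      rw [fourier_conj, ← Complex.exp_nat_mul]
      have e1 : (((T σ k a).length : ℕ) : ℂ) * (-(2 * Real.pi * ω : ℝ) * Complex.I) =
          -(2 * Real.pi * (((T σ k a).length : ℝ) * ω) : ℝ) * Complex.I := by
        push_cast; ring
      rw [e1, yv]
      refine (exp_sub_le _ _).trans_lt ?_
      have e2 : ((T σ k a).length : ℝ) * ω - (ζ a : ℝ) * ω =
          (((ell M k a : ℤ) : ℝ) - ((ζ a : ℚ) : ℝ)) * ω := by
        rw [← length_T h.cnt k a]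
        push_cast
        ring
      rw [e2]
      have := hk2 a
      rw [lt_div_iff₀ (by positivity)] at this
      linarith
    · right; exact hrec
  refine measure_mono_null h3 (measure_union_null hcon ?_)
  exact h2

end Pool.Agent.Helper97.Sub
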