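import Pool.Agent.Helper97.Sub.Defs
import Pool.Agent.Helper97.Sub.Lim

set_option autoImplicit false

namespace Pool.Agent.Helper97.Sub

open Finset MeasureTheory

variable {d : ℕ}

/-- window of a two-sided sequence -/
def win (x : ℤ → Fin d) (i : ℤ) (n : ℕ) : List (Fin d) :=
  List.ofFn (fun j : Fin n => x (i + ((j : ℕ) : ℤ)))

theorem win_length (x : ℤ → Fin d) (i : ℤ) (n : ℕ) : (win x i n).length = n := by
  simp [win]

theorem sh_iter (x : ℤ → Fin d) (j : ℕ) (i : ℤ) : (sh^[j] x) i = x (i + j) := by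
  induction j generalizing x i with
  | zero => simp
  | succ j ih =>
    rw [Function.iterate_succ_apply, ih]
    simp only [sh]
    congr 1
    push_cast
    ring

theorem ofFn_sh (x : ℤ → Fin d) (j w : ℕ) :
    List.ofFn (fun t : Fin w => (sh^[j] x) ((t : ℕ) : ℤ)) = win x j w := by
  rw [win]
  congr 1
  funext t
  rw [sh_iter, add_comm]

theorem win_drop_take (x : ℤ → Fin d) (i : ℤ) (n l w : ℕ) (h : l + w ≤ n) :
    ((win x i n).drop l).take w = win x (i + l) w := by
  apply List.ext_getElem
  · simp [win_length]; omega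
  · intro m h1 h2
    simp only [win, List.getElem_take, List.getElem_drop, List.getElem_ofFn]
    congr 1
    push_cast
    ring

/-- sub-window -/
theorem win_sub (x : ℤ → Fin d) (i : ℤ) (n l m : ℕ) (h : l + m ≤ n) :
    ∃ P Q, win x i n = P ++ win x (i + l) m ++ Q ∧ P.length = l := by
  refine ⟨(win x i n).take l, ((win x i n).drop l).drop m, ?_, ?_⟩
  · rw [← win_drop_take x i n l m h, List.append_assoc, List.take_append_drop,
      List.take_append_drop]
  · rw [List.length_take, win_length]; omega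

/-- an occurrence of a word inside a window -/
theorem win_occ (x : ℤ → Fin d) (n : ℕ) (P U Q : List (Fin d)) (h : win x 0 n = P ++ U ++ Q) :
    U = win x P.length U.length := by
  have hl : P.length + U.length ≤ n := by
    have := congrArg List.length h
    rw [win_length] at this
    simp only [List.length_append] at this
    omega
  have h1 := win_drop_take x 0 n P.length U.length hl
  rw [h] at h1
  rw [zero_add] at h1
  rw [← h1]
  simp [List.append_assoc]

section
variable (G : List (Fin d) → ℂ) (w : ℕ) (z : ℂ)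

/-- twisted Birkhoff sum -/
noncomputable def SN (N : ℕ) (x : ℤ → Fin d) : ℂ :=
  ∑ j ∈ range N, G (List.ofFn (fun t : Fin w => (sh^[j] x) ((t : ℕ) : ℤ))) * z ^ j

theorem SN_eq (N : ℕ) (x : ℤ → Fin d) : SN G w z N x = ∑ j ∈ range N, G (win x j w) * z ^ j := by
  unfold SN
  exact sum_congr rfl fun j _ => by rw [ofFn_sh]

end

variable {G : List (Fin d) → ℂ} {w : ℕ} {z : ℂ} {B : ℝ}

/-- comparison of the partial sums of a word occurring in `x` with Birkhoff sums of `x` -/
theorem PS_sub_SN (hz : ‖z‖ = 1) (hB : 0 ≤ B)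
    (hG : ∀ v : List (Fin d), v.length = w → ‖G v‖ ≤ B) (x : ℤ → Fin d) (i ℓ u N : ℕ)
    (h : u + N ≤ ℓ) :
    ‖(PS G w z (win x i ℓ) (u + N) - PS G w z (win x i ℓ) u) -
      z ^ u * SN G w z N (sh^[i + u] x)‖ ≤ w * B := by
  have e1 : PS G w z (win x i ℓ) (u + N) - PS G w z (win x i ℓ) u =
      ∑ l ∈ range N, if u + l + w ≤ ℓ then G (win x ((i + u + l : ℕ) : ℤ) w) * z ^ (u + l) else 0 := by
    unfold PS
    rw [sum_range_add, add_sub_cancel_left]
    refine sum_congr rfl fun l _ => ?_
    rw [win_length]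
    split_ifs with h1
    · rw [win_drop_take x i ℓ (u + l) w h1]
      congr 2
      push_cast
      ring_nf
    · rfl
  have e2 : z ^ u * SN G w z N (sh^[i + u] x) =
      ∑ l ∈ range N, G (win x ((i + u + l : ℕ) : ℤ) w) * z ^ (u + l) := by
    rw [SN, mul_sum]
    refine sum_congr rfl fun l _ => ?_
    rw [← Function.iterate_add_apply, ofFn_sh, pow_add]
    have : ((l + (i + u) : ℕ) : ℤ) = ((i + u + l : ℕ) : ℤ) := by push_cast; ring
    rw [this]
    ring
  rw [e1, e2, ← sum_sub_distrib]
  have hterm : ∀ l ∈ range N, ‖(if u + l + w ≤ ℓ then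
      G (win x ((i + u + l : ℕ) : ℤ) w) * z ^ (u + l) else 0) -
      G (win x ((i + u + l : ℕ) : ℤ) w) * z ^ (u + l)‖ ≤ if u + l + w ≤ ℓ then 0 else B := by
    intro l _
    split_ifs with h1
    · rw [sub_self, norm_zero]
    · rw [zero_sub, norm_neg, norm_mul, norm_pow, hz, one_pow, mul_one]
      exact hG _ (win_length _ _ _)
  refine (norm_sum_le_of_le _ hterm).trans ?_
  rw [← sum_filter_not_add_sum_filter (range N) (fun l => u + l + w ≤ ℓ)]
  have e3 : ∑ l ∈ range N with ¬ u + l + w ≤ ℓ, (if u + l + w ≤ ℓ then (0:ℝ) else B) =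
      (#{l ∈ range N | ¬ u + l + w ≤ ℓ} : ℝ) * B := by
    rw [sum_congr rfl (fun x hx => by rw [if_neg (mem_filter.1 hx).2]), sum_const, nsmul_eq_mul]
  have e4 : ∑ l ∈ range N with u + l + w ≤ ℓ, (if u + l + w ≤ ℓ then (0:ℝ) else B) = 0 := by
    apply sum_eq_zero
    intro x hx
    rw [if_pos (mem_filter.1 hx).2]
  rw [e3, e4, add_zero]
  apply mul_le_mul_of_nonneg_right _ hB
  have : #{l ∈ range N | ¬ u + l + w ≤ ℓ} ≤ w := by
    calc #{l ∈ range N | ¬ u + l + w ≤ ℓ} ≤ #(Ico (N - w) N) := by
          apply card_le_card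
          intro l hl
          rw [mem_filter, mem_range] at hl
          rw [mem_Ico]
          omega
      _ ≤ w := by rw [Nat.card_Ico]; omega
  exact_mod_cast this

theorem TS_sub_SN (hz : ‖z‖ = 1) (hB : 0 ≤ B)
    (hG : ∀ v : List (Fin d), v.length = w → ‖G v‖ ≤ B) (x : ℤ → Fin d) (N : ℕ) :
    ‖TS G w z (win x 0 N) - SN G w z N x‖ ≤ w * B := by
  have h := PS_sub_SN hz hB hG x 0 N 0 N (by omega)
  simp only [zero_add, PS_zero, sub_zero, pow_zero, one_mul, Function.iterate_zero, id_eq,
    Nat.cast_zero] at h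
  rw [TS, win_length]
  exact h

/-- words of the language -/
theorem len_mono {σ : Fin d → List (Fin d)} (hσ : ∀ a, σ a ≠ []) (n m : ℕ) (h : n ≤ m) (a : Fin d) :
    (T σ n a).length ≤ (T σ m a).length := by
  induction m, h using Nat.le_induction with
  | base => exact le_rfl
  | succ m _ ih =>
    refine ih.trans ?_
    rw [T_add, show T σ 1 = σ from funext (T_one σ)]
    generalize T σ m a = v
    induction v with
    | nil => simp
    | cons c v ihv =>
      rw [List.flatMap_cons, List.length_append, List.length_cons]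
      have := List.length_pos_of_ne_nil (hσ c)
      omega

/-- every long word of the language contains every tile of a given level -/
theorem occ_tile {σ : Fin d → List (Fin d)} (hσ : ∀ a, σ a ≠ []) (k₀ : ℕ)
    (hprim : ∀ a b, a ∈ T σ k₀ b) (k M : ℕ) (hM : ∀ c, (T σ (k + k₀) c).length ≤ M)
    (W : List (Fin d)) (hW : ∃ n a, W <:+: T σ n a) (hlen : 2 * M < W.length) (c : Fin d) :
    T σ k c <:+: W := by
  obtain ⟨n, a, hW⟩ := hW
  have hWn := hW.length_le
  have hn : k + k₀ ≤ n := by
    by_contra hcon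
    push Not at hcon
    have h1 := len_mono hσ n (k + k₀) hcon.le a
    have h2 := hM a
    omega
  obtain ⟨m, rfl⟩ : ∃ m, n = m + (k + k₀) := ⟨n - (k + k₀), by omega⟩
  rw [T_add] at hW
  rcases inf_flatMap (T σ (k + k₀)) (T σ m a) W hW with
    (h1 | ⟨c', _, h1⟩) | ⟨s, v', p, e, ⟨c', _, h2⟩, _, h4⟩
  · subst h1
    simp at hlen
  · have := h1.length_le
    have := hM c'
    omega
  · have h5 : s.length ≤ M := h2.length_le.trans (hM c')
    have h6 : p.length ≤ M := by
      rcases h4 with rfl | ⟨c'', _, h4⟩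
      · simp
      · exact h4.length_le.trans (hM c'')
    cases v' with
    | nil =>
      exfalso
      rw [e] at hlen
      simp only [List.flatMap_nil, List.nil_append, List.length_append] at hlen
      omega
    | cons b v' =>
      rw [List.flatMap_cons] at e
      have h7 : T σ (k + k₀) b <:+: W := ⟨s, v'.flatMap (T σ (k + k₀)) ++ p, by
        rw [e]; simp [List.append_assoc]⟩
      refine List.IsInfix.trans ?_ h7
      rw [add_comm k k₀, T_add]
      obtain ⟨l₁, l₂, hl⟩ := List.append_of_mem (hprim c b)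
      rw [hl, List.flatMap_append, List.flatMap_cons]
      exact ⟨l₁.flatMap (T σ k), l₂.flatMap (T σ k), by simp [List.append_assoc]⟩

end Pool.Agent.Helper97.Sub
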