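import Mathlib

set_option autoImplicit false

namespace Pool.Agent.Helper97.Sub

open Finset

variable {d : ℕ}

/-- Twisted partial sum over a word (only full windows of length `w` count). -/
noncomputable def PS (G : List (Fin d) → ℂ) (w : ℕ) (z : ℂ) (W : List (Fin d)) (u : ℕ) : ℂ :=
  ∑ l ∈ range u, if l + w ≤ W.length then G ((W.drop l).take w) * z ^ l else 0

/-- Twisted sum over a whole word. -/
noncomputable def TS (G : List (Fin d) → ℂ) (w : ℕ) (z : ℂ) (W : List (Fin d)) : ℂ :=
  PS G w z W W.length

/-- Weighted sum along a word. -/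
noncomputable def WS (y : Fin d → ℂ) (E : Fin d → ℂ) : List (Fin d) → ℂ
  | [] => 0
  | c :: v => E c + y c * WS y E v

/-- Iterated substitution of a letter. -/
def T (σ : Fin d → List (Fin d)) (k : ℕ) (a : Fin d) : List (Fin d) :=
  ((fun w : List (Fin d) => w.flatMap σ)^[k] [a])

section tiles
variable (σ : Fin d → List (Fin d))

theorem iter_flatMap (k : ℕ) (v : List (Fin d)) :
    ((fun w : List (Fin d) => w.flatMap σ)^[k] v) = v.flatMap (T σ k) := by
  induction k generalizing v with
  | zero =>
    have h : T σ 0 = fun a => [a] := rfl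
    simp [h]
  | succ k ih =>
    rw [Function.iterate_succ_apply, ih, List.flatMap_assoc]
    congr 1
    funext a
    rw [← ih, T, Function.iterate_succ_apply]
    simp

theorem T_zero (a : Fin d) : T σ 0 a = [a] := rfl

theorem T_one (a : Fin d) : T σ 1 a = σ a := by simp [T]

theorem T_add (j k : ℕ) (a : Fin d) : T σ (j + k) a = (T σ j a).flatMap (T σ k) := by
  rw [← iter_flatMap, T, T, ← Function.iterate_add_apply, add_comm]

theorem T_succ (k : ℕ) (a : Fin d) : T σ (k + 1) a = (σ a).flatMap (T σ k) := by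
  rw [add_comm, T_add, T_one]

end tiles

section sums
variable {G : List (Fin d) → ℂ} {w : ℕ} {z : ℂ} {B : ℝ}

theorem PS_zero (W : List (Fin d)) : PS G w z W 0 = 0 := by simp [PS]

theorem PS_append_right (U V : List (Fin d)) (u : ℕ) :
    PS G w z (U ++ V) (U.length + u) =
      PS G w z (U ++ V) U.length + z ^ U.length * PS G w z V u := by
  unfold PS
  rw [sum_range_add, mul_sum]
  congr 1
  refine sum_congr rfl fun l _ => ?_
  have h1 : (U ++ V).drop (U.length + l) = V.drop l := by
    rw [List.drop_append]; simp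
  rw [h1, List.length_append]
  by_cases h : l + w ≤ V.length
  · rw [if_pos h, if_pos (by omega)]; rw [pow_add]; ring
  · rw [if_neg h, if_neg (by omega)]; ring

theorem PS_append_left (hz : ‖z‖ = 1) (hB : 0 ≤ B) (hG : ∀ v : List (Fin d), v.length = w → ‖G v‖ ≤ B)
    (U V : List (Fin d)) (u : ℕ) (hu : u ≤ U.length) :
    ‖PS G w z (U ++ V) u - PS G w z U u‖ ≤ w * B := by
  unfold PS
  rw [← sum_sub_distrib]
  have hterm : ∀ l ∈ range u, ‖(if l + w ≤ (U ++ V).length then
      G (((U ++ V).drop l).take w) * z ^ l else 0) -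
      (if l + w ≤ U.length then G ((U.drop l).take w) * z ^ l else 0)‖ ≤
      if l + w ≤ U.length then 0 else B := by
    intro l hl
    rw [mem_range] at hl
    by_cases h : l + w ≤ U.length
    · have h2 : l + w ≤ (U ++ V).length := by rw [List.length_append]; omega
      rw [if_pos h, if_pos h, if_pos h2]
      have h3 : ((U ++ V).drop l).take w = (U.drop l).take w := by
        rw [List.drop_append_of_le_length (by omega), List.take_append_of_le_length]
        rw [List.length_drop]; omega
      rw [h3, sub_self, norm_zero]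
    · rw [if_neg h, if_neg h]
      by_cases h2 : l + w ≤ (U ++ V).length
      · rw [if_pos h2, sub_zero, norm_mul, norm_pow, hz, one_pow, mul_one]
        apply hG
        rw [List.length_take, List.length_drop]; omega
      · rw [if_neg h2, sub_zero, norm_zero]; exact hB
  refine (norm_sum_le_of_le _ hterm).trans ?_
  rw [← sum_filter_not_add_sum_filter (range u) (fun l => l + w ≤ U.length)]
  have e1 : ∑ x ∈ range u with ¬ x + w ≤ U.length, (if x + w ≤ U.length then (0:ℝ) else B) =
      (#{x ∈ range u | ¬ x + w ≤ U.length} : ℝ) * B := by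
    rw [sum_congr rfl (fun x hx => by rw [if_neg (mem_filter.1 hx).2]), sum_const, nsmul_eq_mul]
  have e2 : ∑ x ∈ range u with x + w ≤ U.length, (if x + w ≤ U.length then (0:ℝ) else B) = 0 := by
    apply sum_eq_zero
    intro x hx
    rw [if_pos (mem_filter.1 hx).2]
  rw [e1, e2, add_zero]
  apply mul_le_mul_of_nonneg_right _ hB
  have : #{x ∈ range u | ¬ x + w ≤ U.length} ≤ w := by
    calc #{x ∈ range u | ¬ x + w ≤ U.length} ≤ #(Ico (U.length - w + (if w ≤ U.length then 1 else 0)) (U.length)) := by
          apply card_le_card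
          intro x hx
          rw [mem_filter, mem_range] at hx
          rw [mem_Ico]
          split_ifs <;> constructor <;> omega
      _ ≤ w := by
          rw [Nat.card_Ico]
          split_ifs <;> omega
  exact_mod_cast this

theorem TS_append (hz : ‖z‖ = 1) (hB : 0 ≤ B) (hG : ∀ v : List (Fin d), v.length = w → ‖G v‖ ≤ B)
    (U V : List (Fin d)) :
    ‖TS G w z (U ++ V) - (TS G w z U + z ^ U.length * TS G w z V)‖ ≤ w * B := by
  have h1 : TS G w z (U ++ V) = PS G w z (U ++ V) U.length + z ^ U.length * TS G w z V := by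
    rw [TS, List.length_append, PS_append_right, TS]
  have h2 : TS G w z (U ++ V) - (TS G w z U + z ^ U.length * TS G w z V) =
      PS G w z (U ++ V) U.length - PS G w z U U.length := by
    rw [h1, show TS G w z U = PS G w z U U.length from rfl]; ring
  rw [h2]
  exact PS_append_left hz hB hG U V U.length le_rfl

theorem TS_flatMap (hz : ‖z‖ = 1) (hB : 0 ≤ B) (hG : ∀ v : List (Fin d), v.length = w → ‖G v‖ ≤ B)
    (τ : Fin d → List (Fin d)) (v : List (Fin d)) :
    ‖TS G w z (v.flatMap τ) - WS (fun c => z ^ (τ c).length) (fun c => TS G w z (τ c)) v‖ ≤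
      v.length * (w * B) := by
  induction v with
  | nil => simp [TS, PS, WS]
  | cons c v ih =>
    rw [List.flatMap_cons, WS, List.length_cons]
    have h := TS_append hz hB hG (τ c) (v.flatMap τ)
    have e : TS G w z (τ c ++ v.flatMap τ) - (TS G w z (τ c) + z ^ (τ c).length *
        WS (fun c => z ^ (τ c).length) (fun c => TS G w z (τ c)) v) =
        (TS G w z (τ c ++ v.flatMap τ) - (TS G w z (τ c) + z ^ (τ c).length * TS G w z (v.flatMap τ)))
        + z ^ (τ c).length * (TS G w z (v.flatMap τ) -
          WS (fun c => z ^ (τ c).length) (fun c => TS G w z (τ c)) v) := by ring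
    rw [e]
    refine (norm_add_le _ _).trans ?_
    rw [norm_mul, norm_pow, hz, one_pow, one_mul]
    push_cast
    linarith

theorem WS_norm_le {y : Fin d → ℂ} {E : Fin d → ℂ} {A : ℝ} (hy : ∀ c, ‖y c‖ = 1)
    (hE : ∀ c, ‖E c‖ ≤ A) (v : List (Fin d)) : ‖WS y E v‖ ≤ v.length * A := by
  induction v with
  | nil => simp [WS]
  | cons c v ih =>
    rw [WS, List.length_cons]
    refine (norm_add_le _ _).trans ?_
    rw [norm_mul, hy, one_mul]
    push_cast
    have := hE c
    linarith

theorem WS_sub_le {y y' : Fin d → ℂ} {E : Fin d → ℂ} {A δ : ℝ} (hy : ∀ c, ‖y c‖ = 1)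
    (hy' : ∀ c, ‖y' c‖ = 1) (hA : 0 ≤ A) (hE : ∀ c, ‖E c‖ ≤ A) (hδ : ∀ c, ‖y c - y' c‖ ≤ δ)
    (hδ0 : 0 ≤ δ) (v : List (Fin d)) :
    ‖WS y E v - WS y' E v‖ ≤ (v.length : ℝ) ^ 2 * δ * A := by
  induction v with
  | nil => simp [WS]
  | cons c v ih =>
    rw [WS, WS, List.length_cons]
    have e : E c + y c * WS y E v - (E c + y' c * WS y' E v) =
        (y c - y' c) * WS y E v + y' c * (WS y E v - WS y' E v) := by ring
    rw [e]
    refine (norm_add_le _ _).trans ?_
    rw [norm_mul, norm_mul, hy', one_mul]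
    have h1 := WS_norm_le hy hE v
    have h2 : ‖y c - y' c‖ * ‖WS y E v‖ ≤ δ * (v.length * A) :=
      mul_le_mul (hδ c) h1 (norm_nonneg _) hδ0
    push_cast
    have h3 : (0:ℝ) ≤ v.length := Nat.cast_nonneg _
    have h4 : 0 ≤ δ * A := mul_nonneg hδ0 hA
    nlinarith [mul_nonneg h3 h4]

/-- Product of the phases along a word. -/
noncomputable def yw (y : Fin d → ℂ) (v : List (Fin d)) : ℂ := (v.map y).prod

theorem WS_append (y : Fin d → ℂ) (E : Fin d → ℂ) (U V : List (Fin d)) :
    WS y E (U ++ V) = WS y E U + yw y U * WS y E V := by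
  induction U with
  | nil => simp [WS, yw]
  | cons c U ih =>
    rw [List.cons_append, WS, WS, ih]
    simp only [yw, List.map_cons, List.prod_cons]
    ring

/-- The twisted transfer operator. -/
noncomputable def Op (σ : Fin d → List (Fin d)) (y : Fin d → ℂ) (E : Fin d → ℂ) : Fin d → ℂ :=
  fun b => WS y E (σ b)

theorem WS_flatMap {σ : Fin d → List (Fin d)} {y : Fin d → ℂ}
    (hy : ∀ b, yw y (σ b) = y b) (E : Fin d → ℂ) (v : List (Fin d)) :
    WS y E (v.flatMap σ) = WS y (Op σ y E) v := by
  induction v with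
  | nil => simp [WS]
  | cons c v ih =>
    rw [List.flatMap_cons, WS_append, WS, ih, hy, Op]

theorem yw_append (y : Fin d → ℂ) (U V : List (Fin d)) : yw y (U ++ V) = yw y U * yw y V := by
  simp [yw]

theorem yw_T {σ : Fin d → List (Fin d)} {y : Fin d → ℂ}
    (hy : ∀ b, yw y (σ b) = y b) (n : ℕ) (b : Fin d) : yw y (T σ n b) = y b := by
  have h : ∀ v : List (Fin d), yw y (v.flatMap σ) = yw y v := by
    intro v
    induction v with
    | nil => simp
    | cons c v ih => rw [List.flatMap_cons, yw_append, ih, hy]; simp [yw]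
  induction n with
  | zero => simp [T, yw]
  | succ n ih =>
    rw [T_add, show T σ 1 = σ from funext (T_one σ), h, ih]

theorem WS_T {σ : Fin d → List (Fin d)} {y : Fin d → ℂ}
    (hy : ∀ b, yw y (σ b) = y b) (E : Fin d → ℂ) (n : ℕ) (b : Fin d) :
    WS y E (T σ n b) = ((Op σ y)^[n] E) b := by
  induction n generalizing E with
  | zero => simp [T, WS]
  | succ n ih =>
    rw [T_add, show T σ 1 = σ from funext (T_one σ), WS_flatMap hy, ih, Function.iterate_succ_apply]

end sums

end Pool.Agent.Helper97.Sub
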